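import Pool.Agent.Lib.Pa7c826.AlgoPoly

/-!
Arrays of small numbers in polynomial time computations.
-/

namespace Pool.Agent.Lib.Pa7c826t

open Pool.Agent.Lib.PolyTime Pool.Agent.Lib.Pa7c826

variable {α : Type*} {D : α → Prop} {ctx : List (α → List Bool)}

/-- the code of the array `f 0, …, f (n - 1)` of numbers at most `m` -/
def arr (m n : ℕ) (f : ℕ → ℕ) : List Bool :=
  (List.range n).flatMap (fun i => un (f i) ++ List.replicate (m - f i) false)

theorem length_flatMap_const (m : ℕ) (F : ℕ → List Bool) (n : ℕ)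
    (hF : ∀ i < n, (F i).length = m) : ((List.range n).flatMap F).length = n * m := by
  induction n with
  | zero => simp
  | succ n ih =>
    rw [List.range_succ, List.flatMap_append, List.length_append,
      ih (fun i hi => hF i (by omega))]
    simp only [List.flatMap_cons, List.flatMap_nil, List.append_nil]
    rw [hF n (by omega), Nat.succ_mul]

/-- reading a concatenation of blocks of constant length -/
theorem getD_flatMap (m n : ℕ) (F : ℕ → List Bool) (hF : ∀ i < n, (F i).length = m) {i x : ℕ}
    (hi : i < n) (hx : x < m) :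
    ((List.range n).flatMap F).getD (i * m + x) false = (F i).getD x false := by
  induction n with
  | zero => omega
  | succ n ih =>
    have hlen := length_flatMap_const m F n (fun i hi => hF i (by omega))
    rw [List.range_succ, List.flatMap_append]
    simp only [List.flatMap_cons, List.flatMap_nil, List.append_nil]
    rcases Nat.lt_succ_iff_lt_or_eq.1 hi with h | h
    · have h1 : i * m + x < ((List.range n).flatMap F).length := by
        rw [hlen]
        calc i * m + x < i * m + m := by omega
          _ = (i + 1) * m := by ring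
          _ ≤ n * m := Nat.mul_le_mul_right _ h
      rw [List.getD_append _ _ _ _ h1]
      exact ih (fun i hi => hF i (by omega)) h
    · subst h
      rw [List.getD_append_right _ _ _ _ (by rw [hlen]; omega), hlen, Nat.add_sub_cancel_left]

theorem arr_block_length {m k : ℕ} (h : k ≤ m) :
    (un k ++ List.replicate (m - k) false).length = m := by
  simp; omega

theorem arr_length {m n : ℕ} {f : ℕ → ℕ} (h : ∀ i < n, f i ≤ m) : (arr m n f).length = n * m :=
  length_flatMap_const m _ n (fun i hi => arr_block_length (h i hi))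

theorem arr_getD {m n : ℕ} {f : ℕ → ℕ} (h : ∀ i < n, f i ≤ m) {i x : ℕ} (hi : i < n)
    (hx : x < m) : (arr m n f).getD (i * m + x) false = decide (x < f i) := by
  unfold arr
  rw [getD_flatMap m n _ (fun i hi => arr_block_length (h i hi)) hi hx]
  rcases lt_or_ge x (f i) with h1 | h1
  · rw [List.getD_append _ _ _ _ (by simpa using h1)]
    unfold un
    rw [List.getD_replicate (h := h1)]
    simp [h1]
  · rw [List.getD_append_right _ _ _ _ (by simpa using h1)]
    rw [List.getD_replicate (h := by simp; omega)]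
    simp; omega

/-- Arrays computable in polynomial time. -/
def PolyArr (D : α → Prop) (ctx : List (α → List Bool)) (m n : α → ℕ) (f : α → ℕ → ℕ) : Prop :=
  PolyC D ctx (fun a => arr (m a) (n a) (f a)) ∧ ∀ a, D a → ∀ i < n a, f a i ≤ m a

theorem arr_congr {m n : ℕ} {f g : ℕ → ℕ} (h : ∀ i < n, f i = g i) : arr m n f = arr m n g := by
  unfold arr
  have key : ∀ k ≤ n, (List.range k).flatMap (fun i => un (f i) ++ List.replicate (m - f i) false)
      = (List.range k).flatMap (fun i => un (g i) ++ List.replicate (m - g i) false) := by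
    intro k
    induction k with
    | zero => intro _; simp
    | succ k ih =>
      intro hk
      rw [List.range_succ, List.flatMap_append, List.flatMap_append, ih (by omega)]
      simp only [List.flatMap_cons, List.flatMap_nil, List.append_nil]
      rw [h k (by omega)]
  exact key n le_rfl

theorem PolyArr.congr {m n : α → ℕ} {f g : α → ℕ → ℕ} (h : PolyArr D ctx m n f)
    (e : ∀ a, D a → ∀ i < n a, f a i = g a i) : PolyArr D ctx m n g := by
  refine ⟨PolyC.congr h.1 (fun a ha => arr_congr (e a ha)), fun a ha i hi => ?_⟩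
  rw [← e a ha i hi]
  exact h.2 a ha i hi

theorem PolyArr.mono {D' : α → Prop} {m n : α → ℕ} {f : α → ℕ → ℕ} (h : PolyArr D ctx m n f)
    (hD : ∀ a, D' a → D a) : PolyArr D' ctx m n f :=
  ⟨PolyC.mono h.1 hD, fun a ha => h.2 a (hD a ha)⟩

theorem PolyArr.up {m n k : α → ℕ} {f : α → ℕ → ℕ} (h : PolyArr D ctx m n f) :
    PolyArr (fun p : α × ℕ => D p.1 ∧ p.2 < k p.1) (PolyTime.lift ctx ++ [fun p => un p.2])
      (fun p => m p.1) (fun p => n p.1) (fun p => f p.1) :=
  ⟨Pa7c826.up h.1, fun p hp => h.2 p.1 hp.1⟩

/-- reading an entry -/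
theorem PolyArr.get {m n i : α → ℕ} {f : α → ℕ → ℕ} (h : PolyArr D ctx m n f)
    (hm : PolyN D ctx m) (hi : PolyN D ctx i) (hin : ∀ a, D a → i a < n a) :
    PolyN D ctx (fun a => f a (i a)) := by
  have A := Pa7c826.up (n := m) h.1
  have I := upN (n := m) hi
  have M := upN (n := m) hm
  have L := last (D := D) (ctx := ctx) (n := m)
  refine (PolyN.count (φ := fun p : α × ℕ =>
    (arr (m p.1) (n p.1) (f p.1)).getD (i p.1 * m p.1 + p.2) false) hm
    (PolyB.getD A ((I.mul M).add L))).congr (fun a ha => ?_)
  have h1 : (Finset.range (m a)).filter (fun x =>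
      (arr (m a) (n a) (f a)).getD (i a * m a + x) false = true) = Finset.range (f a (i a)) := by
    ext x
    simp only [Finset.mem_filter, Finset.mem_range]
    constructor
    · rintro ⟨hx, h2⟩
      rw [arr_getD (h.2 a ha) (hin a ha) hx] at h2
      simpa using h2
    · intro hx
      have h3 := h.2 a ha _ (hin a ha)
      refine ⟨by omega, ?_⟩
      rw [arr_getD (h.2 a ha) (hin a ha) (by omega)]
      simpa using hx
  rw [h1, Finset.card_range]

/-- writing an array -/
theorem PolyArr.mk {m n : α → ℕ} {f : α → ℕ → ℕ} (hm : PolyN D ctx m) (hn : PolyN D ctx n)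
    (hf : PolyN (fun p : α × ℕ => D p.1 ∧ p.2 < n p.1) (PolyTime.lift ctx ++ [fun p => un p.2])
      (fun p => f p.1 p.2)) (hb : ∀ a, D a → ∀ i < n a, f a i ≤ m a) :
    PolyArr D ctx m n f := by
  refine ⟨?_, hb⟩
  have M := upN (n := n) hm
  exact PolyC.flatMap_range (t := fun p : α × ℕ =>
    un (f p.1 p.2) ++ List.replicate (m p.1 - f p.1 p.2) false) hn
    (PolyC.append hf (PolyC.replicateFalse (PolyN.sub M hf)))

/-- Iterating a step on arrays. -/
theorem PolyArr.iterate {m n k : α → ℕ} {f : α → ℕ → ℕ} {step : α → (ℕ → ℕ) → ℕ → ℕ}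
    (hm : PolyN D ctx m) (hn : PolyN D ctx n) (hk : PolyN D ctx k) (hf : PolyArr D ctx m n f)
    (hstep : PolyArr (fun p : α × ℕ => D p.1 ∧ p.2 < k p.1)
      (PolyTime.lift ctx ++ [fun p => un p.2,
        fun p => arr (m p.1) (n p.1) ((step p.1)^[p.2] (f p.1))])
      (fun p => m p.1) (fun p => n p.1) (fun p => step p.1 ((step p.1)^[p.2] (f p.1)))) :
    PolyArr D ctx m n (fun a => (step a)^[k a] (f a)) := by
  obtain ⟨pn, hpn⟩ := PolyC.length_le (hn.mul hm)
  have hbd : ∀ a, D a → ∀ j ≤ k a, ∀ i < n a, (step a)^[j] (f a) i ≤ m a := by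
    intro a ha j hj i hi
    rcases j with _ | j
    · exact hf.2 a ha i hi
    · rw [Function.iterate_succ_apply']
      exact hstep.2 (a, j) ⟨ha, by simpa using hj⟩ i hi
  refine ⟨PolyC.natRec (fun a j => arr (m a) (n a) ((step a)^[j] (f a))) hk
    (PolyC.congr hf.1 (fun a _ => rfl)) ?_ ⟨pn, fun a ha j hj => ?_⟩,
    fun a ha => hbd a ha _ le_rfl⟩
  · refine PolyC.congr hstep.1 ?_
    rintro ⟨a, j⟩ _
    simp only [Function.iterate_succ_apply']
  · have h1 := hpn a ha
    rw [un_length] at h1
    rw [arr_length (hbd a ha j hj)]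
    exact h1

end Pool.Agent.Lib.Pa7c826t
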