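import Pool.Agent.Lib.Pa7c826t.LeafBound

/-!
The greedy cover is the vertex set of a matching.

PROOF. `Pool/Agent/Lib/Pa7c826/Leaf.lean`: `mStep_spec` says that a step of the greedy matching
either does nothing or removes the two ends `u ≠ v` of an edge of the current set. By induction on
`i` the set `(mStep n adj)^[i] S` is `S` without the vertex set of a matching `M` of pairs
(oriented so that the first entry satisfies `p`; `hbip` and `hs`), with
`|(mStep n adj)^[i] S| + 2 |M| = |S|` and all vertices of `M` outside `(mStep n adj)^[i] S`. For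
`i = n` use `rest` and `cov_union_rest`, `cov_disjoint_rest`.
-/

namespace Pool.Agent.Lib.Pa7c826t

open Finset Pool.Agent.Lib.Pa7c826

theorem CovMatchAux_step {n : ℕ} {adj : ℕ → ℕ → Bool} (hs : ∀ u v, adj u v = adj v u)
    (hl : ∀ u, adj u u = false) (p : ℕ → Prop) [DecidablePred p]
    (hbip : ∀ u v, adj u v = true → (p u ↔ ¬ p v)) {S : Finset ℕ} (hS : S ⊆ range n) (i : ℕ) :
    ∃ M : Finset (ℕ × ℕ), IsMat adj p S M ∧ ((mStep n adj)^[i] S).card + 2 * M.card = S.card ∧
      ∀ e ∈ M, e.1 ∉ (mStep n adj)^[i] S ∧ e.2 ∉ (mStep n adj)^[i] S := by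
  induction i with
  | zero =>
    refine ⟨∅, ⟨?_, ?_, ?_, ?_, ?_, ?_⟩, by simp, by simp⟩ <;> simp
  | succ i ih =>
    obtain ⟨M, hM, h1, h2⟩ := ih
    rw [Function.iterate_succ_apply']
    set R := (mStep n adj)^[i] S with hR
    have hRS : R ⊆ S := iterate_mStep_subset S i
    have hRn : R ⊆ range n := hRS.trans hS
    have key : ∀ u ∈ R, ∀ v ∈ R, u ≠ v → adj u v = true → p u →
        ∃ M : Finset (ℕ × ℕ), IsMat adj p S M ∧ ((R.erase u).erase v).card + 2 * M.card = S.card ∧
          ∀ e ∈ M, e.1 ∉ (R.erase u).erase v ∧ e.2 ∉ (R.erase u).erase v := by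
      intro u hu v hv huv hadj hp
      have hnew : (u, v) ∉ M := fun h => (h2 _ h).1 hu
      refine ⟨insert (u, v) M, ⟨?_, ?_, ?_, ?_, ?_, ?_⟩, ?_, ?_⟩
      · intro e he
        rcases mem_insert.1 he with rfl | he
        · exact hRS hu
        · exact hM.left_mem e he
      · intro e he
        rcases mem_insert.1 he with rfl | he
        · exact hp
        · exact hM.left_p e he
      · intro e he
        rcases mem_insert.1 he with rfl | he
        · exact hRS hv
        · exact hM.right_mem e he
      · intro e he
        rcases mem_insert.1 he with rfl | he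
        · exact hadj
        · exact hM.edge e he
      · intro e he f hf hef
        rcases mem_insert.1 he with rfl | he <;> rcases mem_insert.1 hf with rfl | hf
        · rfl
        · exact absurd hu (by have := (h2 f hf).1; rw [← hef] at this; exact this)
        · exact absurd hu (by have := (h2 e he).1; rw [hef] at this; exact this)
        · exact hM.inj_left e he f hf hef
      · intro e he f hf hef
        rcases mem_insert.1 he with rfl | he <;> rcases mem_insert.1 hf with rfl | hf
        · rfl
        · exact absurd hv (by have := (h2 f hf).2; rw [← hef] at this; exact this)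
        · exact absurd hv (by have := (h2 e he).2; rw [hef] at this; exact this)
        · exact hM.inj_right e he f hf hef
      · have hv' : v ∈ R.erase u := mem_erase.2 ⟨huv.symm, hv⟩
        rw [card_erase_of_mem hv', card_erase_of_mem hu, card_insert_of_notMem hnew]
        have h6 : 1 < R.card := one_lt_card.2 ⟨u, hu, v, hv, huv⟩
        omega
      · intro e he
        rcases mem_insert.1 he with rfl | he
        · exact ⟨fun h => by simp at h, fun h => by simp at h⟩
        · exact ⟨fun h => (h2 e he).1 (mem_of_mem_erase (mem_of_mem_erase h)),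
            fun h => (h2 e he).2 (mem_of_mem_erase (mem_of_mem_erase h))⟩
    rcases mStep_spec hl hRn with ⟨_, h5⟩ | ⟨u, hu, v, hv, huv, hadj, h5⟩
    · rw [h5]
      exact ⟨M, hM, h1, h2⟩
    · rw [h5]
      by_cases hp : p u
      · exact key u hu v hv huv hadj hp
      · have hp' : p v := by
          by_contra h
          exact hp ((hbip u v hadj).2 h)
        obtain ⟨M', h6, h7, h8⟩ := key v hv u hu huv.symm (by rw [hs]; exact hadj) hp'
        refine ⟨M', h6, ?_, ?_⟩
        · rw [erase_right_comm]; exact h7
        · rw [erase_right_comm]; exact h8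

theorem cov_matching {n : ℕ} {adj : ℕ → ℕ → Bool} (hs : ∀ u v, adj u v = adj v u)
    (hl : ∀ u, adj u u = false) (p : ℕ → Prop) [DecidablePred p]
    (hbip : ∀ u v, adj u v = true → (p u ↔ ¬ p v)) {S : Finset ℕ} (hS : S ⊆ range n) :
    ∃ M : Finset (ℕ × ℕ), IsMat adj p S M ∧ (cov n adj S).card = 2 * M.card := by
  obtain ⟨M, hM, h1, _⟩ := CovMatchAux_step hs hl p hbip hS n
  refine ⟨M, hM, ?_⟩
  have h2 := card_union_of_disjoint (cov_disjoint_rest (n := n) (adj := adj) S)
  rw [cov_union_rest] at h2
  unfold rest at h2
  omega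

end Pool.Agent.Lib.Pa7c826t
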