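import Pool.Agent.Lib.Pa7c826t.AuctDef

/-!
From a final state of the auction to a matching and a vertex cover of the same size.

PROOF. Call `u < n` sold if `f (n + u) ≠ 0`; then `f (n + u) = v + 1` for its buyer `v`,
`u ∈ S`, `v ∈ S`, `v < a`, `adj v u` (`edge`). `M` = the pairs `(v, u)`; buyers of different `u` are
different (`inj`), so `M` is a matching with as many pairs as sold vertices (e.g. `M` = image of the
sold vertices under `u ↦ (f (n + u) - 1, u)`).
Cover: if no `v < a` lies in `S` then there are no edges in `S` (`hbip`) and nothing is sold: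
`C = ∅`. Otherwise the set `R' = S.filter (¬ · < a)` has at most `n - 1` elements, so there is
`j ∈ {1, …, n}` with `f u ≠ j` for all `u ∈ R'` (pigeonhole). Let `T = {u ∈ R' : j < f u}` (all
sold by `pos`). Every neighbour in `S` of a left vertex `v ∈ S` lies in `T` if `v` is free (not
active, so all neighbours have price `> n ≥ j`) or if `v` is the buyer of some `u ∈ T`
(`f u' ≥ f u - 1 ≥ j` by `cs`, and `f u' ≠ j`). So
`C = T ∪ {buyers of the sold u with f u < j}` covers all edges, and it has one element for each
sold vertex: `C` is the image of the sold vertices under the injective map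
`u ↦ if j < f u then u else f (n + u) - 1` (left and right vertices are different). Neighbours `u'`
of left vertices are right vertices by `hbip`, and `u' < n` by `hS`.
-/

namespace Pool.Agent.Lib.Pa7c826t

open Finset Pool.Agent.Lib.Pa7c826

/-- A state satisfying the invariants in which no left vertex is active gives a matching and a
vertex cover, both with as many elements as there are sold vertices. -/
theorem konig_of_final {n a : ℕ} {adj : ℕ → ℕ → Bool} {S : Finset ℕ} (hS : S ⊆ range n)
    (hs : ∀ u v, adj u v = adj v u) (hbip : ∀ u v, adj u v = true → (u < a ↔ ¬ v < a))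
    {f : ℕ → ℕ} (hf : AInv n a adj S f) (hfin : ∀ v, aAct n a adj S f v = false) :
    (∃ M : Finset (ℕ × ℕ), IsMat adj (fun v => v < a) S M ∧
      M.card = ((range n).filter (fun u => (!decide (f (n + u) = 0)) = true)).card) ∧
    ∃ C ⊆ S, C.card = ((range n).filter (fun u => (!decide (f (n + u) = 0)) = true)).card ∧
      ∀ u ∈ S, ∀ v ∈ S, adj u v = true → u ∈ C ∨ v ∈ C := by
  set Q := (range n).filter (fun u => (!decide (f (n + u) = 0)) = true) with hQ
  have hQm : ∀ u, u ∈ Q ↔ u < n ∧ f (n + u) ≠ 0 := by
    intro u
    rw [hQ, mem_filter, mem_range]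
    simp
  have hQe : ∀ u ∈ Q, u < n ∧ u ∈ S ∧ f (n + u) - 1 ∈ S ∧ f (n + u) - 1 < a ∧
      adj (f (n + u) - 1) u = true ∧ ¬ u < a := by
    intro u hu
    obtain ⟨h1, h2⟩ := (hQm u).1 hu
    obtain ⟨h3, h4, h5, h6⟩ := hf.edge u h1 (f (n + u) - 1) (by omega)
    exact ⟨h1, h3, h4, h5, h6, (hbip _ _ h6).1 h5⟩
  have hinj : ∀ u ∈ Q, ∀ u' ∈ Q, f (n + u) - 1 = f (n + u') - 1 → u = u' := by
    intro u hu u' hu' h
    have h1 := (hQm u).1 hu
    have h2 := (hQm u').1 hu'
    exact hf.inj u h1.1 u' h2.1 (by omega) h1.2
  constructor
  · refine ⟨Q.image (fun u => (f (n + u) - 1, u)), ⟨?_, ?_, ?_, ?_, ?_, ?_⟩, ?_⟩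
    · intro e he
      obtain ⟨u, hu, rfl⟩ := mem_image.1 he
      exact (hQe u hu).2.2.1
    · intro e he
      obtain ⟨u, hu, rfl⟩ := mem_image.1 he
      exact (hQe u hu).2.2.2.1
    · intro e he
      obtain ⟨u, hu, rfl⟩ := mem_image.1 he
      exact (hQe u hu).2.1
    · intro e he
      obtain ⟨u, hu, rfl⟩ := mem_image.1 he
      exact (hQe u hu).2.2.2.2.1
    · intro e he e' he' h
      obtain ⟨u, hu, rfl⟩ := mem_image.1 he
      obtain ⟨u', hu', rfl⟩ := mem_image.1 he'
      have := hinj u hu u' hu' h
      rw [this]
    · intro e he e' he' h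
      obtain ⟨u, hu, rfl⟩ := mem_image.1 he
      obtain ⟨u', hu', rfl⟩ := mem_image.1 he'
      have h' : u = u' := h
      rw [h']
    · rw [card_image_of_injOn]
      intro u _ u' _ h
      exact (Prod.mk.inj h).2
  · by_cases hleft : ∃ v ∈ S, v < a
    · obtain ⟨v₀, hv₀, hv₀a⟩ := hleft
      have hR : (S.filter (fun u => ¬ u < a)).card < n := by
        have h1 : S.filter (fun u => ¬ u < a) ⊆ (range n).erase v₀ := by
          intro x hx
          rw [mem_filter] at hx
          exact mem_erase.2 ⟨fun e => hx.2 (e ▸ hv₀a), hS hx.1⟩
        have h2 := card_le_card h1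
        rw [card_erase_of_mem (hS hv₀), card_range] at h2
        have h3 := mem_range.1 (hS hv₀)
        omega
      obtain ⟨j, hj, hjf⟩ : ∃ j ∈ Icc 1 n, j ∉ (S.filter (fun u => ¬ u < a)).image f := by
        by_contra hcon
        have h1 : Icc 1 n ⊆ (S.filter (fun u => ¬ u < a)).image f := fun x hx => by
          by_contra h
          exact hcon ⟨x, hx, h⟩
        have h2 := card_le_card h1
        rw [Nat.card_Icc] at h2
        have h3 : ((S.filter (fun u => ¬ u < a)).image f).card ≤ _ := card_image_le
        omega
      rw [mem_Icc] at hj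
      have hjf' : ∀ u ∈ S, ¬ u < a → f u ≠ j := fun u hu hua e =>
        hjf (mem_image.2 ⟨u, mem_filter.2 ⟨hu, hua⟩, e⟩)
      refine ⟨Q.image (fun u => if j < f u then u else f (n + u) - 1), ?_, ?_, ?_⟩
      · intro x hx
        obtain ⟨u, hu, rfl⟩ := mem_image.1 hx
        have := hQe u hu
        split_ifs
        · exact this.2.1
        · exact this.2.2.1
      · rw [card_image_of_injOn]
        intro u hu u' hu' h
        have h1 := hQe u hu
        have h2 := hQe u' hu'
        simp only at h
        split_ifs at h with h3 h4 h4
        · exact h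
        · exact absurd (h ▸ h2.2.2.2.1) h1.2.2.2.2.2
        · exact absurd (h ▸ h1.2.2.2.1) h2.2.2.2.2.2
        · exact hinj u hu u' hu' h
      · have key : ∀ v ∈ S, ∀ u ∈ S, v < a → ¬ u < a → adj v u = true →
            u ∈ Q.image (fun u => if j < f u then u else f (n + u) - 1) ∨
            v ∈ Q.image (fun u => if j < f u then u else f (n + u) - 1) := by
          intro v hv u hu hva hua hadj
          have hun : u < n := mem_range.1 (hS hu)
          have hbig : j < f u → u ∈ Q.image (fun u => if j < f u then u else f (n + u) - 1) := by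
            intro h
            refine mem_image.2 ⟨u, (hQm u).2 ⟨hun, fun h0 => ?_⟩, if_pos h⟩
            have := (hf.pos u hun).2 h0
            omega
          by_cases hfree : ∃ u₀ < n, f (n + u₀) = v + 1
          · obtain ⟨u₀, hu₀, hfu₀⟩ := hfree
            by_cases hjj : j < f u₀
            · left
              apply hbig
              have h1 := hf.cs u₀ hu₀ v hfu₀ u hun hu hadj
              have h2 := hjf' u hu hua
              omega
            · right
              refine mem_image.2 ⟨u₀, (hQm u₀).2 ⟨hu₀, by omega⟩, ?_⟩
              rw [if_neg hjj]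
              omega
          · left
            apply hbig
            have h1 := hfin v
            by_contra h2
            have h3 : aAct n a adj S f v = true := by
              unfold aAct aFree aNb
              simp only [Bool.and_eq_true, decide_eq_true_eq, Bool.not_eq_true',
                decide_eq_false_iff_not]
              refine ⟨⟨⟨hv, hva⟩, hfree⟩, u, hun, ⟨hu, hadj⟩, by omega⟩
            rw [h1] at h3
            exact absurd h3 (by simp)
        intro x hx y hy hxy
        by_cases hxa : x < a
        · exact (key x hx y hy hxa ((hbip _ _ hxy).1 hxa) hxy).symm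
        · have hya : y < a := by
            by_contra h
            exact hxa ((hbip _ _ hxy).2 h)
          exact key y hy x hx hya hxa (by rw [hs]; exact hxy)
    · push Not at hleft
      have hQ0 : Q = ∅ := by
        rw [eq_empty_iff_forall_notMem]
        intro u hu
        have h := hQe u hu
        have := hleft _ h.2.2.1
        omega
      refine ⟨∅, empty_subset _, by rw [hQ0], ?_⟩
      intro x hx y hy hxy
      have h1 := hleft x hx
      have h2 := hleft y hy
      exact absurd ((hbip _ _ hxy).2 (by omega)) (by omega)

end Pool.Agent.Lib.Pa7c826t
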