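import Pool.Agent.Lib.Pa7c826.Leaf

/-!
The independence polynomial of an induced subgraph, and its expansion along one side of a
bipartite graph.

PROOFS. `pow_le_wind`: the subsets of `J` are independent subsets of `S`, and
`∑_{I ⊆ J} lam ^ |I| = (1 + lam) ^ |J|` (`Finset.sum_pow_mul_eq_add_pow` or
`Finset.prod_one_add`/`Finset.prod_add`). `wind_erase`: as `ind_erase` in
`Pool/Agent/Lib/Pa7c826/Branch.lean` (independent sets without `v`; independent sets with `v` are
`insert v J`, `J` independent in the second set), with `|insert v J| = |J| + 1`. `wind_eq_sum`: an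
independent set `I ⊆ S` is a pair `B = I.filter (¬ p)` and `A = I.filter p ⊆ L(B)`, the set of all
`v ∈ S` with `p v` without neighbours in `B` (no edges inside a side by `hbip`), weights multiply,
and the sum over `A ⊆ L(B)` of `lam ^ |A|` is `(1 + lam) ^ |L(B)|`.
-/

namespace Pool.Agent.Lib.Pa7c826t

open Finset Pool.Agent.Lib.Pa7c826

/-- the independence polynomial of the subgraph induced by `S` at `lam` -/
noncomputable def wind (adj : ℕ → ℕ → Bool) (lam : ℝ) (S : Finset ℕ) : ℝ :=
  ∑ I ∈ S.powerset.filter (fun I => ∀ u ∈ I, ∀ v ∈ I, adj u v = false), lam ^ I.card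

theorem wind_one (adj : ℕ → ℕ → Bool) (S : Finset ℕ) : wind adj 1 S = ind adj S := by
  simp [wind, ind]

theorem wind_nonneg (adj : ℕ → ℕ → Bool) {lam : ℝ} (hl : 0 ≤ lam) (S : Finset ℕ) :
    0 ≤ wind adj lam S := sum_nonneg fun _ _ => pow_nonneg hl _

theorem WIndAux_sum_powerset (lam : ℝ) (J : Finset ℕ) :
    ∑ I ∈ J.powerset, lam ^ I.card = (1 + lam) ^ J.card := by
  have h := Finset.sum_pow_mul_eq_add_pow lam (1 : ℝ) J
  rw [add_comm 1 lam, ← h]
  exact sum_congr rfl fun _ _ => by simp

/-- an independent subset of size `k` gives `(1 + lam) ^ k` -/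
theorem pow_le_wind {adj : ℕ → ℕ → Bool} {lam : ℝ} (hl : 0 ≤ lam) {S J : Finset ℕ} (hJ : J ⊆ S)
    (hI : ∀ u ∈ J, ∀ v ∈ J, adj u v = false) : (1 + lam) ^ J.card ≤ wind adj lam S := by
  rw [← WIndAux_sum_powerset]
  unfold wind
  refine sum_le_sum_of_subset_of_nonneg ?_ fun _ _ _ => pow_nonneg hl _
  intro I hI'
  rw [mem_powerset] at hI'
  rw [mem_filter, mem_powerset]
  exact ⟨hI'.trans hJ, fun u hu v hv => hI u (hI' hu) v (hI' hv)⟩

/-- the basic recursion -/
theorem wind_erase {adj : ℕ → ℕ → Bool} (hs : ∀ u v, adj u v = adj v u)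
    (hl : ∀ u, adj u u = false) (lam : ℝ) {S : Finset ℕ} {v : ℕ} (hv : v ∈ S) :
    wind adj lam S = wind adj lam (S.erase v) +
      lam * wind adj lam ((S.erase v).filter (fun u => adj v u = false)) := by
  unfold wind
  rw [← sum_filter_add_sum_filter_not (S.powerset.filter
    (fun I => ∀ u ∈ I, ∀ v ∈ I, adj u v = false)) (fun I => v ∉ I)]
  congr 1
  · refine sum_congr ?_ fun _ _ => rfl
    ext I
    simp only [mem_filter, mem_powerset]
    constructor
    · rintro ⟨⟨h1, h2⟩, h3⟩
      exact ⟨fun x hx => mem_erase.2 ⟨fun e => h3 (e ▸ hx), h1 hx⟩, h2⟩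
    · rintro ⟨h1, h2⟩
      exact ⟨⟨fun x hx => mem_of_mem_erase (h1 hx), h2⟩, fun h => by simpa using h1 h⟩
  · rw [mul_sum]
    refine sum_bij' (fun I _ => I.erase v) (fun J _ => insert v J) ?_ ?_ ?_ ?_ ?_
    · intro I hI
      simp only [mem_filter, mem_powerset, not_not] at hI ⊢
      obtain ⟨⟨h1, h2⟩, h3⟩ := hI
      refine ⟨fun x hx => ?_, fun x hx y hy => h2 x (mem_of_mem_erase hx) y (mem_of_mem_erase hy)⟩
      rw [mem_filter, mem_erase]
      exact ⟨⟨(mem_erase.1 hx).1, h1 (mem_of_mem_erase hx)⟩, h2 v h3 x (mem_of_mem_erase hx)⟩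
    · intro J hJ
      simp only [mem_filter, mem_powerset, not_not] at hJ ⊢
      obtain ⟨h1, h2⟩ := hJ
      have h3 : ∀ x ∈ J, adj v x = false := fun x hx => (mem_filter.1 (h1 hx)).2
      refine ⟨⟨?_, ?_⟩, mem_insert_self _ _⟩
      · intro x hx
        rcases mem_insert.1 hx with rfl | hx
        · exact hv
        · exact mem_of_mem_erase (mem_filter.1 (h1 hx)).1
      · intro x hx y hy
        rcases mem_insert.1 hx with hxv | hx' <;> rcases mem_insert.1 hy with hyv | hy'
        · rw [hxv, hyv]; exact hl _
        · rw [hxv]; exact h3 y hy'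
        · rw [hyv, hs]; exact h3 x hx'
        · exact h2 x hx' y hy'
    · intro I hI
      simp only [mem_filter, mem_powerset, not_not] at hI
      exact insert_erase hI.2
    · intro J hJ
      simp only [mem_filter, mem_powerset] at hJ
      refine erase_insert fun h => ?_
      have := (mem_filter.1 (hJ.1 h)).1
      simp at this
    · intro I hI
      simp only [mem_filter, mem_powerset, not_not] at hI
      rw [← card_erase_add_one hI.2, pow_succ, mul_comm]

/-- Expansion of the independence polynomial of a bipartite graph (sides given by `p`) along the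
side `¬ p`. -/
theorem wind_eq_sum {adj : ℕ → ℕ → Bool} (hs : ∀ u v, adj u v = adj v u) (p : ℕ → Prop)
    [DecidablePred p] (hbip : ∀ u v, adj u v = true → (p u ↔ ¬ p v)) (lam : ℝ) (S : Finset ℕ) :
    wind adj lam S = ∑ B ∈ (S.filter (fun u => ¬ p u)).powerset, lam ^ B.card *
      (1 + lam) ^ ((S.filter (fun v => p v)).filter (fun v => ∀ u ∈ B, adj v u = false)).card := by
  unfold wind
  rw [← sum_fiberwise_of_maps_to (s := S.powerset.filter
      (fun I => ∀ u ∈ I, ∀ v ∈ I, adj u v = false))
    (t := (S.filter (fun u => ¬ p u)).powerset) (g := fun I => I.filter (fun u => ¬ p u))]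
  · refine sum_congr rfl fun B hB => ?_
    rw [mem_powerset] at hB
    have hBp : ∀ u ∈ B, u ∈ S ∧ ¬ p u := fun u hu => by
      have := mem_filter.1 (hB hu); exact this
    rw [← WIndAux_sum_powerset, mul_sum]
    refine sum_bij' (fun I _ => I.filter (fun u => p u)) (fun A _ => A ∪ B) ?_ ?_ ?_ ?_ ?_
    · intro I hI
      simp only [mem_filter, mem_powerset] at hI ⊢
      obtain ⟨⟨h1, h2⟩, h3⟩ := hI
      intro x hx
      rw [mem_filter] at hx
      rw [mem_filter, mem_filter]
      refine ⟨⟨h1 hx.1, hx.2⟩, fun u hu => h2 x hx.1 u ?_⟩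
      rw [← h3] at hu
      exact (mem_filter.1 hu).1
    · intro A hA
      rw [mem_powerset] at hA
      have hAp : ∀ x ∈ A, (x ∈ S ∧ p x) ∧ ∀ u ∈ B, adj x u = false := fun x hx => by
        have := hA hx
        rw [mem_filter, mem_filter] at this
        exact this
      simp only [mem_filter, mem_powerset]
      refine ⟨⟨?_, ?_⟩, ?_⟩
      · intro x hx
        rcases mem_union.1 hx with hx | hx
        · exact (hAp x hx).1.1
        · exact (hBp x hx).1
      · intro x hx y hy
        rcases mem_union.1 hx with hx | hx <;> rcases mem_union.1 hy with hy | hy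
        · by_contra h
          rw [Bool.not_eq_false] at h
          exact ((hbip x y h).1 (hAp x hx).1.2) (hAp y hy).1.2
        · exact (hAp x hx).2 y hy
        · rw [hs]; exact (hAp y hy).2 x hx
        · by_contra h
          rw [Bool.not_eq_false] at h
          exact (hBp x hx).2 ((hbip x y h).2 (hBp y hy).2)
      · ext x
        simp only [mem_filter, mem_union]
        constructor
        · rintro ⟨h1 | h1, h2⟩
          · exact absurd (hAp x h1).1.2 h2
          · exact h1
        · intro h
          exact ⟨Or.inr h, (hBp x h).2⟩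
    · intro I hI
      simp only [mem_filter, mem_powerset] at hI
      obtain ⟨_, h3⟩ := hI
      rw [← h3]
      ext x
      simp only [mem_filter, mem_union]
      tauto
    · intro A hA
      rw [mem_powerset] at hA
      ext x
      simp only [mem_filter, mem_union]
      constructor
      · rintro ⟨h1 | h1, h2⟩
        · exact h1
        · exact absurd h2 (hBp x h1).2
      · intro h
        have := hA h
        rw [mem_filter, mem_filter] at this
        exact ⟨Or.inl h, this.1.2⟩
    · intro I hI
      simp only [mem_filter, mem_powerset] at hI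
      obtain ⟨_, h3⟩ := hI
      rw [← h3, ← pow_add]
      congr 1
      have := card_filter_add_card_filter_not (s := I) (fun u => p u)
      omega
  · intro I hI
    simp only [mem_filter, mem_powerset] at hI ⊢
    intro x hx
    rw [mem_filter] at hx ⊢
    exact ⟨hI.1 hx.1, hx.2⟩

end Pool.Agent.Lib.Pa7c826t
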