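import Pool.Agent.Lib.Pa7c826t.AuctInv
import Pool.Agent.Lib.Pa7c826t.AuctKonig
import Pool.Agent.Lib.Pa7c826t.WInd

/-!
The number `nu` computed by the auction: matching number = covering number, and the consequences
for independent sets.

PROOF. `nu_matching` and a cover `C ⊆ S` with `|C| = nu` come from `aFin_spec` and
`konig_of_final`. `nu_indep`: `J = S \ C`. `indep_nu`: `J` misses at least one end of every pair of
the matching `M`, and the pairs are disjoint: choose for every pair an end outside `J`; this gives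
`nu` different elements of `S \ J` (an injection from `M`: left ends and right ends are different
because the first satisfy `v < a` and the second do not, by `hbip`). `nu_mono`: `nu_indep` for `T`
and `indep_nu` for `S`. The last two: the subsets of `J`; `pow_le_wind` and `wind_one`.
-/

namespace Pool.Agent.Lib.Pa7c826t

open Finset Pool.Agent.Lib.Pa7c826

theorem nu_matching {n a : ℕ} {adj : ℕ → ℕ → Bool} {S : Finset ℕ} (hS : S ⊆ range n)
    (hs : ∀ u v, adj u v = adj v u) (hbip : ∀ u v, adj u v = true → (u < a ↔ ¬ v < a)) :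
    ∃ M : Finset (ℕ × ℕ), IsMat adj (fun v => v < a) S M ∧ M.card = nu n a adj S :=
  (konig_of_final hS hs hbip (aFin_spec hS hbip).1 (aFin_spec hS hbip).2).1

/-- there is an independent set with `|S| - nu S` elements -/
theorem nu_indep {n a : ℕ} {adj : ℕ → ℕ → Bool} {S : Finset ℕ} (hS : S ⊆ range n)
    (hs : ∀ u v, adj u v = adj v u) (hbip : ∀ u v, adj u v = true → (u < a ↔ ¬ v < a)) :
    ∃ J ⊆ S, J.card + nu n a adj S = S.card ∧ ∀ u ∈ J, ∀ v ∈ J, adj u v = false := by
  obtain ⟨C, hC, hcard, hcov⟩ :=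
    (konig_of_final hS hs hbip (aFin_spec hS hbip).1 (aFin_spec hS hbip).2).2
  refine ⟨S \ C, sdiff_subset, ?_, ?_⟩
  · have h1 : nu n a adj S = C.card := hcard.symm
    rw [h1]
    exact card_sdiff_add_card_eq_card hC
  · intro u hu v hv
    rw [mem_sdiff] at hu hv
    by_contra h
    rw [Bool.not_eq_false] at h
    rcases hcov u hu.1 v hv.1 h with h1 | h1
    · exact hu.2 h1
    · exact hv.2 h1

/-- every independent subset `J` of `S` has at most `|S| - nu S` elements -/
theorem indep_nu {n a : ℕ} {adj : ℕ → ℕ → Bool} {S J : Finset ℕ} (hS : S ⊆ range n)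
    (hs : ∀ u v, adj u v = adj v u) (hbip : ∀ u v, adj u v = true → (u < a ↔ ¬ v < a))
    (hJ : J ⊆ S) (hI : ∀ u ∈ J, ∀ v ∈ J, adj u v = false) :
    J.card + nu n a adj S ≤ S.card := by
  classical
  obtain ⟨M, hM, hcard⟩ := nu_matching hS hs hbip
  have hside : ∀ e ∈ M, ¬ e.2 < a := fun e he =>
    (hbip _ _ (hM.edge e he)).1 (hM.left_p e he)
  have h1 : M.card ≤ (S \ J).card := by
    refine card_le_card_of_injOn (fun e => if e.1 ∈ J then e.2 else e.1) ?_ ?_
    · intro e he
      have he' : e ∈ M := he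
      simp only [coe_sdiff, Set.mem_sdiff, mem_coe]
      by_cases h : e.1 ∈ J
      · rw [if_pos h]
        refine ⟨hM.right_mem e he', fun h2 => ?_⟩
        have h3 := hI _ h _ h2
        rw [hM.edge e he'] at h3
        exact absurd h3 (by simp)
      · rw [if_neg h]
        exact ⟨hM.left_mem e he', h⟩
    · intro e he f hf hef
      have he' : e ∈ M := he
      have hf' : f ∈ M := hf
      simp only at hef
      have a1 := hM.left_p e he'
      have a2 := hM.left_p f hf'
      have b1 := hside e he'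
      have b2 := hside f hf'
      by_cases h : e.1 ∈ J
      · by_cases h' : f.1 ∈ J
        · rw [if_pos h, if_pos h'] at hef
          exact hM.inj_right e he' f hf' hef
        · rw [if_pos h, if_neg h'] at hef
          rw [hef] at b1
          exact absurd a2 b1
      · by_cases h' : f.1 ∈ J
        · rw [if_neg h, if_pos h'] at hef
          rw [← hef] at b2
          exact absurd a1 b2
        · rw [if_neg h, if_neg h'] at hef
          exact hM.inj_left e he' f hf' hef
  have h2 := card_sdiff_add_card_eq_card hJ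
  omega

/-- `|S| - nu S` is monotone in `S` -/
theorem nu_mono {n a : ℕ} {adj : ℕ → ℕ → Bool} {S T : Finset ℕ} (hS : S ⊆ range n)
    (hs : ∀ u v, adj u v = adj v u) (hbip : ∀ u v, adj u v = true → (u < a ↔ ¬ v < a))
    (hT : T ⊆ S) : T.card + nu n a adj S ≤ S.card + nu n a adj T := by
  obtain ⟨J, hJ, hc, hI⟩ := nu_indep (hT.trans hS) hs hbip
  have h := indep_nu hS hs hbip (hJ.trans hT) hI
  omega

theorem nu_le {n a : ℕ} {adj : ℕ → ℕ → Bool} {S : Finset ℕ} (hS : S ⊆ range n)
    (hs : ∀ u v, adj u v = adj v u) (hbip : ∀ u v, adj u v = true → (u < a ↔ ¬ v < a)) :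
    nu n a adj S ≤ S.card := by
  obtain ⟨J, _, hc, _⟩ := nu_indep hS hs hbip
  omega

/-- `2 ^ (|S| - nu S) ≤ i(S)` -/
theorem two_pow_le_ind_nu {n a : ℕ} {adj : ℕ → ℕ → Bool} {S : Finset ℕ} (hS : S ⊆ range n)
    (hs : ∀ u v, adj u v = adj v u) (hbip : ∀ u v, adj u v = true → (u < a ↔ ¬ v < a)) :
    2 ^ (S.card - nu n a adj S) ≤ ind adj S := by
  obtain ⟨J, hJ, hc, hI⟩ := nu_indep hS hs hbip
  have h1 : S.card - nu n a adj S = J.card := by omega
  rw [h1, ← card_powerset]
  unfold ind
  apply card_le_card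
  intro I hIJ
  rw [mem_powerset] at hIJ
  rw [mem_filter, mem_powerset]
  exact ⟨hIJ.trans hJ, fun u hu v hv => hI u (hIJ hu) v (hIJ hv)⟩

/-- `(1 + lam) ^ (|S| - nu S) ≤ Z_S(lam)` -/
theorem pow_le_wind_nu {n a : ℕ} {adj : ℕ → ℕ → Bool} {S : Finset ℕ} (hS : S ⊆ range n)
    (hs : ∀ u v, adj u v = adj v u) (hbip : ∀ u v, adj u v = true → (u < a ↔ ¬ v < a))
    {lam : ℝ} (hl : 0 ≤ lam) :
    (1 + lam) ^ (S.card - nu n a adj S) ≤ wind adj lam S := by
  obtain ⟨J, hJ, hc, hI⟩ := nu_indep hS hs hbip
  have h1 : S.card - nu n a adj S = J.card := by omega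
  rw [h1]
  exact pow_le_wind hl hJ hI

end Pool.Agent.Lib.Pa7c826t
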