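import Pool.Agent.Lib.Pa7c826t.HostA

/-!
Alive leaves have a small greedy cover.
-/

namespace Pool.Agent.Lib.Pa7c826t

open Finset Pool.Agent.Lib.Pa7c826

/-- Alive leaves have a small cover. -/
theorem alive_leaf {n a g : ℕ} {adj : ℕ → ℕ → Bool} (hs : ∀ u v, adj u v = adj v u)
    (hl : ∀ u, adj u u = false) (p : ℕ → Prop) [DecidablePred p]
    (hp : (∀ v, p v ↔ v < a) ∨ ∀ v, p v ↔ ¬ v < a)
    (hbip : ∀ u v, adj u v = true → (u < a ↔ ¬ v < a)) {S₀ : Finset ℕ} {D q H : ℕ}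
    (hh : Host n g adj p S₀ D q H) {K : ℕ} (_hK : 1 ≤ K) {S : Finset ℕ} (hS : S ⊆ S₀)
    (hlight : ∀ v, hvy S₀.card g adj S v = false) (hal : alive n a adj S₀ K S = true) :
    2 ^ (cov n adj S).card ≤ (2 ^ H * K) ^ 24 := by
  have hbipp : ∀ u v, adj u v = true → (p u ↔ ¬ p v) := by
    intro u v h
    have h1 := hbip u v h
    rcases hp with hp | hp
    · rw [hp, hp]; exact h1
    · rw [hp, hp]; tauto
  have hSn : S ⊆ range n := hS.trans hh.sub
  obtain ⟨hα1, _, _⟩ := host_alpha hs hl p hp hbip hh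
  have hdeg : ∀ v ∈ S, 2 * dg adj S v ≤ q := by
    intro v hv
    have h1 := hlight v
    unfold hvy at h1
    simp only [Bool.and_eq_false_iff, decide_eq_false_iff_not, not_le] at h1
    have h2 : g * dg adj S v < S₀.card := h1.resolve_left (fun h => h hv)
    have h3 := hh.hg
    have h4 : g * (2 * dg adj S v) < g * q := by
      calc g * (2 * dg adj S v) = 2 * (g * dg adj S v) := by ring
        _ < 2 * S₀.card := by omega
        _ ≤ g * q := h3
    exact (lt_of_mul_lt_mul_left h4 (Nat.zero_le g)).le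
  obtain ⟨M, hM, hMc⟩ := cov_matching hs hl p hbipp hSn
  have hleaf := (leaf_bound hs p hbipp hh.hq hh.hDq hh.hrow hh.hcol hh.hH hS hdeg hM).2
  rw [← hMc] at hleaf
  have hind := two_pow_le_ind_nu hSn hs hbip
  set b := (S₀.filter (fun u => ¬ p u)).card with hb
  set c := (cov n adj S).card with hc
  set α := S.card - nu n a adj S with hα
  set e := (nu n a adj S + S₀.card) - (nu n a adj S₀ + S.card) with he
  have hK2 : 2 ^ e ≤ K := by
    unfold alive at hal
    rwa [decide_eq_true_eq, Nat.one_le_div_iff (by positivity)] at hal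
  have hbe : b ≤ α + e := by omega
  have h1 : (2 : ℝ) ^ α * (33 / 32) ^ c ≤ 2 ^ α * (2 ^ H * K) := by
    have hind' : (2 : ℝ) ^ α ≤ ind adj S := by exact_mod_cast hind
    have hK2' : (2 : ℝ) ^ e ≤ K := by exact_mod_cast hK2
    calc (2 : ℝ) ^ α * (33 / 32) ^ c ≤ ind adj S * (33 / 32) ^ c := by gcongr
      _ ≤ 2 ^ (b + H) := hleaf
      _ ≤ 2 ^ (α + e + H) := pow_le_pow_right₀ (by norm_num) (by omega)
      _ = 2 ^ α * (2 ^ H * 2 ^ e) := by rw [pow_add, pow_add]; ring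
      _ ≤ 2 ^ α * (2 ^ H * K) := by gcongr
  have h2 : ((33 : ℝ) / 32) ^ c ≤ 2 ^ H * K := le_of_mul_le_mul_left h1 (by positivity)
  have h3 : (2 : ℝ) ^ c ≤ (2 ^ H * K) ^ 24 := by
    calc (2 : ℝ) ^ c ≤ ((33 / 32) ^ 24) ^ c := pow_le_pow_left₀ (by norm_num) (by norm_num) _
      _ = ((33 / 32) ^ c) ^ 24 := by rw [← pow_mul, ← pow_mul, mul_comm]
      _ ≤ (2 ^ H * K) ^ 24 := pow_le_pow_left₀ (by positivity) h2 _
  exact_mod_cast h3

end Pool.Agent.Lib.Pa7c826t
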