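import Pool.Agent.Lib.Pa7c826t.Dead
import Pool.Agent.Lib.Pa7c826t.AliveLeaf

/-!
The approximation guarantee of the pruned branching algorithm.
-/

namespace Pool.Agent.Lib.Pa7c826t

open Finset Pool.Agent.Lib.Pa7c826

theorem alive_iff {n a : ℕ} {adj : ℕ → ℕ → Bool} {S₀ S : Finset ℕ} {K : ℕ} :
    alive n a adj S₀ K S = true ↔
      2 ^ ((nu n a adj S + S₀.card) - (nu n a adj S₀ + S.card)) ≤ K := by
  unfold alive
  rw [decide_eq_true_eq, Nat.one_le_div_iff (by positivity)]

theorem alive_up {n a : ℕ} {adj : ℕ → ℕ → Bool} (hs : ∀ u v, adj u v = adj v u)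
    (hbip : ∀ u v, adj u v = true → (u < a ↔ ¬ v < a)) {S₀ : Finset ℕ} (h0 : S₀ ⊆ range n)
    {K : ℕ} (S T : Finset ℕ) (hS : S ⊆ S₀) (hT : T ⊆ S) (h : alive n a adj S₀ K T = true) :
    alive n a adj S₀ K S = true := by
  rw [alive_iff] at h ⊢
  refine le_trans (Nat.pow_le_pow_right (by norm_num) ?_) h
  have := nu_mono (hS.trans h0) hs hbip hT
  omega

theorem alive_self {n a : ℕ} {adj : ℕ → ℕ → Bool} {S₀ : Finset ℕ} {K : ℕ} (hK : 1 ≤ K) :
    alive n a adj S₀ K S₀ = true := by
  rw [alive_iff]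
  simpa using hK

theorem sum_filter_not {α : Type*} (l : List α) (p : α → Bool) (f : α → ℕ) :
    ((l.filter p).map f).sum + ((l.filter (fun x => !p x)).map f).sum = (l.map f).sum := by
  induction l with
  | nil => rfl
  | cons x l ih =>
    rcases h : p x with _ | _
    · simp only [List.filter_cons, h, Bool.not_false, List.map_cons, List.sum_cons, if_true]
      simp only [Bool.false_eq_true, if_false]
      omega
    · simp only [List.filter_cons, h, Bool.not_true, List.map_cons, List.sum_cons, if_true]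
      simp only [Bool.false_eq_true, if_false]
      omega

theorem sum_ind_lvw {n m g : ℕ} {adj : ℕ → ℕ → Bool} (hs : ∀ u v, adj u v = adj v u)
    (hl : ∀ u, adj u u = false) {S₀ : Finset ℕ} (hS : S₀ ⊆ range n) (t : ℕ) :
    (((lvw n m g adj S₀ t).map Prod.fst).map (ind adj)).sum = ind adj S₀ := by
  have h := sum_lvw (n := n) (m := m) (g := g) hs hl hS 1 t
  rw [wind_one] at h
  have h2 : ((((lvw n m g adj S₀ t).map Prod.fst).map (ind adj)).sum : ℝ) = ind adj S₀ := by
    rw [← h, List.map_map]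
    push_cast
    rw [List.map_map]
    congr 1
    refine List.map_congr_left fun x _ => ?_
    simp [wind_one]
  exact_mod_cast h2

/-- The approximation guarantee. -/
theorem outA_spec {n a g : ℕ} {adj : ℕ → ℕ → Bool} (hs : ∀ u v, adj u v = adj v u)
    (hl : ∀ u, adj u u = false) (p : ℕ → Prop) [DecidablePred p]
    (hp : (∀ v, p v ↔ v < a) ∨ ∀ v, p v ↔ ¬ v < a)
    (hbip : ∀ u v, adj u v = true → (u < a ↔ ¬ v < a)) {S₀ : Finset ℕ} {D q H : ℕ}
    (hh : Host n g adj p S₀ D q H) {t Y K' : ℕ} (ht : 1 ≤ t)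
    (hY : t * 2 ^ (3 * H + 5 * g) ≤ Y) (hK' : (2 ^ H * Y ^ 24) ^ 24 ≤ K') :
    outA n a g adj S₀ (Y ^ 24) K' ≤ ind adj S₀ ∧
      t * ind adj S₀ ≤ t * outA n a g adj S₀ (Y ^ 24) K' + ind adj S₀ := by
  have hY1 : 1 ≤ Y := by
    refine le_trans ?_ hY
    have : 0 < t * 2 ^ (3 * H + 5 * g) := by positivity
    exact this
  have hK1 : 1 ≤ Y ^ 24 := Nat.one_le_pow _ _ hY1
  have h1 : outA n a g adj S₀ (Y ^ 24) K' =
      ((((lvw n S₀.card g adj S₀ n).map Prod.fst).filter (alive n a adj S₀ (Y ^ 24))).map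
        (ind adj)).sum := by
    unfold outA
    rw [plv_eq (fun S T hS hT h => alive_up hs hbip hh.sub S T hS hT h) (alive_self hK1)]
    congr 1
    refine List.map_congr_left fun S hS => ?_
    rw [List.mem_filter, List.mem_map] at hS
    obtain ⟨⟨x, hx, rfl⟩, hal⟩ := hS
    have hsub := lvw_sub n x hx
    refine leaf_small hs hl (hsub.trans hh.sub) ?_
    exact (alive_leaf hs hl p hp hbip hh hK1 hsub (lvw_light hh.sub x hx) hal).trans hK'
  have h2 := sum_filter_not ((lvw n S₀.card g adj S₀ n).map Prod.fst)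
    (alive n a adj S₀ (Y ^ 24)) (ind adj)
  rw [sum_ind_lvw hs hl hh.sub, ← h1] at h2
  have h3 := dead_weight hs hl p hp hbip hh hY1
  set W := 2 ^ (3 * H + 5 * g) with hW
  set X := ((((lvw n S₀.card g adj S₀ n).map Prod.fst).filter
        (fun S => !alive n a adj S₀ (Y ^ 24) S)).map (ind adj)).sum with hX
  have h4 : t * X ≤ ind adj S₀ := by
    have h5 : t * W * X ≤ Y * X := Nat.mul_le_mul_right _ hY
    have h6 : W * (t * X) ≤ W * ind adj S₀ := by
      calc W * (t * X) = t * W * X := by ring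
        _ ≤ Y * X := h5
        _ ≤ W * ind adj S₀ := h3
    exact Nat.le_of_mul_le_mul_left h6 (by positivity)
  constructor
  · omega
  · rw [← h2, Nat.mul_add]
    rw [h2]
    omega

end Pool.Agent.Lib.Pa7c826t
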