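import Pool.Agent.Lib.Pa7c826t.ClassT
import Pool.Agent.Lib.Pa7c826t.ApproxT

/-!
The deterministic approximation scheme for almost regular bipartite graphs.
-/

namespace Pool.Agent.Lib.Pa7c826t

open Pool.Agent.Lib.PolyTime Pool.Agent.Lib.Pa7c826 Finset

theorem plv_empty {n m g : ℕ} {adj : ℕ → ℕ → Bool} {al : Finset ℕ → Bool} (hal : al ∅ = true)
    (t : ℕ) : plv n m g adj al ∅ t = [∅] := by
  induction t with
  | zero => rfl
  | succ t ih =>
    have h1 : anyH n m g adj ∅ = false := by
      unfold anyH hvy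
      simp
    rw [plv, ih]
    simp [kids, h1, hal]

theorem alive_empty {n a : ℕ} {adj : ℕ → ℕ → Bool} {K : ℕ} (hK : 1 ≤ K) :
    alive n a adj ∅ K ∅ = true := by
  unfold alive
  simp only [card_empty, Nat.sub_self, pow_zero, Nat.div_one, decide_eq_true_eq]
  exact hK

theorem outA_empty {n a g : ℕ} {adj : ℕ → ℕ → Bool} (hs : ∀ u v, adj u v = adj v u)
    (hl : ∀ u, adj u u = false) {K K' : ℕ} (hK : 1 ≤ K) (hK' : 1 ≤ K') :
    outA n a g adj ∅ K K' = 1 := by
  unfold outA
  rw [plv_empty (alive_empty hK)]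
  have h1 : leaf n adj K' ∅ = 1 := by
    rw [leaf_small hs hl (by simp) (by
      have h2 : cov n adj ∅ = ∅ := by
        unfold cov
        simp
      rw [h2]
      simpa using hK'), ind_empty]
  simp [h1]

theorem two_pow_log_le (C n : ℕ) (hn : n ≠ 0) (e : ℕ) :
    2 ^ (e * (C * Nat.log 2 n)) ≤ (n + 1) ^ (e * C) := by
  rw [show e * (C * Nat.log 2 n) = Nat.log 2 n * (e * C) by ring, pow_mul]
  exact Nat.pow_le_pow_left ((Nat.pow_log_le_self 2 hn).trans (Nat.le_succ _)) _

theorem Yw_pos {C : ℕ} (G : BGraph) {t : ℕ} (ht : 1 ≤ t) : 1 ≤ Yw C (inCode G t) := by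
  unfold Yw
  rw [tOf_inCode]
  have : 0 < t * (nOf (inCode G t) + 1) ^ (13 * C) := by positivity
  exact this

theorem algT_spec {C : ℕ} (G : BGraph) {t : ℕ} (ht : 1 ≤ t) (hG : AlmostRegular C G) :
    algT C (inCode G t) ≤ numIndep G.graph ∧
      t * numIndep G.graph ≤ t * algT C (inCode G t) + numIndep G.graph := by
  have hY1 := Yw_pos (C := C) G ht
  have hK1 : 1 ≤ Kw C (inCode G t) := by
    unfold Kw
    exact Nat.one_le_pow _ _ (Nat.mul_pos (by positivity) (by positivity))
  have hb : ∀ u v, adjOf (inCode G t) u v = true → (u < G.a ↔ ¬ v < G.a) := by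
    intro u v h
    have h2 := adjOf_bip h
    rw [aOf_inCode, bOf_inCode] at h2
    omega
  have key : outA (G.a + G.b) G.a (gw C (inCode G t)) (adjOf (inCode G t)) (nonIso (inCode G t))
      (Yw C (inCode G t) ^ 24) (Kw C (inCode G t)) ≤
        ind (adjOf (inCode G t)) (nonIso (inCode G t)) ∧
      t * ind (adjOf (inCode G t)) (nonIso (inCode G t)) ≤
        t * outA (G.a + G.b) G.a (gw C (inCode G t)) (adjOf (inCode G t)) (nonIso (inCode G t))
          (Yw C (inCode G t) ^ 24) (Kw C (inCode G t)) +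
        ind (adjOf (inCode G t)) (nonIso (inCode G t)) := by
    rcases Nat.eq_zero_or_pos (nonIso (inCode G t)).card with h0 | h0
    · rw [card_eq_zero] at h0
      rw [h0, outA_empty (adjOf_symm _) (adjOf_self _) (Nat.one_le_pow _ _ hY1) hK1, ind_empty]
      omega
    · have hn : G.a + G.b ≠ 0 := by
        intro h
        obtain ⟨v, hv⟩ := card_pos.1 h0
        unfold nonIso at hv
        rw [mem_filter, mem_range, nOf_inCode, h] at hv
        omega
      have hY : t * 2 ^ (3 * (C * Nat.log 2 (G.a + G.b)) + 5 * gw C (inCode G t)) ≤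
          Yw C (inCode G t) := by
        unfold Yw gw
        rw [tOf_inCode, nOf_inCode]
        refine Nat.mul_le_mul_left _ ?_
        rw [show 3 * (C * Nat.log 2 (G.a + G.b)) + 5 * (2 * C * Nat.log 2 (G.a + G.b)) =
          13 * (C * Nat.log 2 (G.a + G.b)) by ring]
        exact two_pow_log_le _ _ hn _
      have hK' : (2 ^ (C * Nat.log 2 (G.a + G.b)) * Yw C (inCode G t) ^ 24) ^ 24 ≤
          Kw C (inCode G t) := by
        unfold Kw
        rw [nOf_inCode]
        refine Nat.pow_le_pow_left (Nat.mul_le_mul_right _ ?_) _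
        have := two_pow_log_le C _ hn 1
        rwa [one_mul, one_mul] at this
      obtain ⟨D, q, hH | hH⟩ := host_of_class G t hG h0
      · exact outA_spec (adjOf_symm _) (adjOf_self _) (fun v => v < G.a)
          (Or.inl fun v => Iff.rfl) hb hH ht hY hK'
      · exact outA_spec (adjOf_symm _) (adjOf_self _) (fun v => ¬ v < G.a)
          (Or.inr fun v => Iff.rfl) hb hH ht hY hK'
  obtain ⟨h1, h2⟩ := key
  have e : numIndep G.graph = 2 ^ (G.a + G.b - (nonIso (inCode G t)).card) *
      ind (adjOf (inCode G t)) (nonIso (inCode G t)) := by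
    rw [← ind_eq_numIndep G t, ind_nonIso]
  unfold algT
  rw [nOf_inCode, aOf_inCode, e]
  refine ⟨Nat.mul_le_mul_left _ h1, ?_⟩
  have h3 := Nat.mul_le_mul_left (2 ^ (G.a + G.b - (nonIso (inCode G t)).card)) h2
  nlinarith [h3]

theorem plv_length_class {C : ℕ} (G : BGraph) {t : ℕ} (ht : 1 ≤ t) (hG : AlmostRegular C G)
    (j : ℕ) :
    (plv (nOf (inCode G t)) (nonIso (inCode G t)).card (gw C (inCode G t))
      (adjOf (inCode G t)) (alive (nOf (inCode G t)) (aOf (inCode G t)) (adjOf (inCode G t))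
        (nonIso (inCode G t)) (Yw C (inCode G t) ^ 24))
      (nonIso (inCode G t)) j).length ≤
      (nOf (inCode G t) + 1) ^ C * Yw C (inCode G t) ^ 24 := by
  have hY1 := Yw_pos (C := C) G ht
  have hY24 : 1 ≤ Yw C (inCode G t) ^ 24 := Nat.one_le_pow _ _ hY1
  have hb : ∀ u v, adjOf (inCode G t) u v = true → (u < G.a ↔ ¬ v < G.a) := by
    intro u v h
    have h2 := adjOf_bip h
    rw [aOf_inCode, bOf_inCode] at h2
    omega
  rcases Nat.eq_zero_or_pos (nonIso (inCode G t)).card with h0 | h0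
  · rw [card_eq_zero] at h0
    rw [h0, plv_empty (alive_empty hY24)]
    have h1 : 0 < (nOf (inCode G t) + 1) ^ C * Yw C (inCode G t) ^ 24 :=
      Nat.mul_pos (by positivity) hY24
    rw [List.length_singleton]
    exact h1
  · have hn : G.a + G.b ≠ 0 := by
      intro h
      obtain ⟨v, hv⟩ := card_pos.1 h0
      unfold nonIso at hv
      rw [mem_filter, mem_range, nOf_inCode, h] at hv
      omega
    have hH : 2 ^ (C * Nat.log 2 (G.a + G.b)) ≤ (nOf (inCode G t) + 1) ^ C := by
      rw [nOf_inCode]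
      have := two_pow_log_le C _ hn 1
      rwa [one_mul, one_mul] at this
    rw [aOf_inCode]
    obtain ⟨D, q, hH' | hH'⟩ := host_of_class G t hG h0
    · refine le_trans ?_ (Nat.mul_le_mul_right _ hH)
      rw [nOf_inCode]
      exact plv_length (adjOf_symm _) (adjOf_self _) (fun v => v < G.a)
        (Or.inl fun v => Iff.rfl) hb hH' hY24 j
    · refine le_trans ?_ (Nat.mul_le_mul_right _ hH)
      rw [nOf_inCode]
      exact plv_length (adjOf_symm _) (adjOf_self _) (fun v => ¬ v < G.a)
        (Or.inr fun v => Iff.rfl) hb hH' hY24 j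

theorem easy (C : ℕ) : HasFPTAS (AlmostRegular C) := by
  let D : BGraph × ℕ → Prop := fun x => AlmostRegular C x.1 ∧ 1 ≤ x.2
  let enc : BGraph × ℕ → List Bool := fun x => inCode x.1 x.2
  have hw : PolyC D [enc] enc := PolyC.var (by simp)
  have hB : PolyN D [enc] (fun x => (nOf (enc x) + 1) ^ C * Yw C (enc x) ^ 24) :=
    (PolyN.pow (poly_nOf hw).succ C).mul (PolyN.pow (upoly_Yw C hw) 24)
  obtain ⟨u, hu, hval⟩ := algT_poly C hw hB (fun x hx j _ => plv_length_class x.1 hx.2 hx.1 j)
  have hout : PolyC D [enc] (fun x => false :: u x) := PolyC.cons false hu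
  refine ⟨fun x => false :: u x.1, PolyC.toTM2 enc (fun x => false :: u x) id hout, ?_⟩
  rintro ⟨⟨G, t⟩, hG, ht⟩
  have hG' : AlmostRegular C G := hG
  have ht' : 1 ≤ t := ht
  have h1 := algT_spec G ht' hG'
  have h2 : binVal (u (G, t)) = algT C (inCode G t) := by
    rw [binVal_eq_bval]
    exact hval (G, t) ⟨hG, ht⟩
  unfold Good
  simp only [outVal, h2]
  have htq : (0 : ℚ) < t := by exact_mod_cast ht'
  have h3 : (algT C (inCode G t) : ℚ) ≤ numIndep G.graph := by exact_mod_cast h1.1
  have h4 : (t : ℚ) * numIndep G.graph ≤ t * algT C (inCode G t) + numIndep G.graph := by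
    exact_mod_cast h1.2
  rw [abs_sub_comm, abs_of_nonneg (by linarith), le_div_iff₀ htq]
  linarith

end Pool.Agent.Lib.Pa7c826t
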