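import Pool.Agent.Lib.Pa7c826t.EDef

/-!
The reduction is computable in polynomial time.
-/

namespace Pool.Agent.Lib.Pa7c826t

open Pool.Agent.Lib.PolyTime Pool.Agent.Lib.Pa7c826

section

variable {α : Type} {D : α → Prop} {ctx : List (α → List Bool)}

theorem PolyN.divz {f g : α → ℕ} (hf : PolyN D ctx f) (hg : PolyN D ctx g) :
    PolyN D ctx (fun a => f a / g a) := by
  have hφ : PolyB D ctx (fun a => decide (0 < g a)) := PolyB.lt (PolyN.const 0) hg
  have h1 : PolyN (fun a => D a ∧ decide (0 < g a) = true) ctx (fun a => f a / g a) :=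
    PolyN.div (PolyC.mono hf fun _ h => h.1) (PolyC.mono hg fun _ h => h.1)
      (fun a ha => by simpa using ha.2)
  have h2 : PolyN (fun a => D a ∧ decide (0 < g a) = false) ctx (fun _ => 0) := PolyN.const 0
  refine PolyC.congr (PolyC.ite hφ h1 h2) (fun a _ => ?_)
  by_cases h : 0 < g a
  · simp [h]
  · have h0 : g a = 0 := by omega
    simp [h0]

theorem PolyN.modz {f g : α → ℕ} (hf : PolyN D ctx f) (hg : PolyN D ctx g) :
    PolyN D ctx (fun a => f a % g a) :=
  (PolyN.sub hf (hg.mul (PolyN.divz hf hg))).congr (fun a _ => by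
    have := Nat.div_add_mod (f a) (g a)
    omega)

variable {G : α → BGraph} {s : α → ℕ} {k e : α → ℕ}

theorem poly_eCnt (hw : PolyC D ctx (fun x => inCode (G x) (s x))) (hk : PolyN D ctx k) :
    PolyN D ctx (fun x => eCnt (G x) (k x)) := by
  have W := up (n := k) hw
  have L := last (D := D) (ctx := ctx) (n := k)
  exact PolyN.count (φ := fun p : α × ℕ => (G p.1).F (p.2 / (G p.1).b) (p.2 % (G p.1).b)) hk
    (poly_F W (PolyN.divz L (poly_b W)) (PolyN.modz L (poly_b W)))

theorem poly_ecount (hw : PolyC D ctx (fun x => inCode (G x) (s x))) :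
    PolyN D ctx (fun x => ecount (G x)) :=
  (poly_eCnt hw ((poly_a hw).mul (poly_b hw))).congr (fun _ _ => rfl)

theorem poly_pairI (hw : PolyC D ctx (fun x => inCode (G x) (s x))) (he : PolyN D ctx e) :
    PolyN D ctx (fun x => pairI (G x) (e x)) := by
  have W := up (n := fun x => (G x).a * (G x).b) hw
  have E := upN (n := fun x => (G x).a * (G x).b) he
  have L := last (D := D) (ctx := ctx) (n := fun x => (G x).a * (G x).b)
  exact PolyN.count (φ := fun p : α × ℕ => decide (eCnt (G p.1) (p.2 + 1) ≤ e p.1))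
    ((poly_a hw).mul (poly_b hw)) (PolyB.le (poly_eCnt W L.succ) E)

theorem poly_xI (hw : PolyC D ctx (fun x => inCode (G x) (s x))) (he : PolyN D ctx e) :
    PolyN D ctx (fun x => xI (G x) (e x)) := PolyN.divz (poly_pairI hw he) (poly_b hw)

theorem poly_yI (hw : PolyC D ctx (fun x => inCode (G x) (s x))) (he : PolyN D ctx e) :
    PolyN D ctx (fun x => yI (G x) (e x)) := PolyN.modz (poly_pairI hw he) (poly_b hw)

theorem poly_repI {z : BGraph → ℕ → ℕ}
    (hz : ∀ {β : Type} {D' : β → Prop} {ctx' : List (β → List Bool)} {G' : β → BGraph}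
      {s' : β → ℕ} {e' : β → ℕ}, PolyC D' ctx' (fun x => inCode (G' x) (s' x)) →
      PolyN D' ctx' e' → PolyN D' ctx' (fun x => z (G' x) (e' x)))
    (hw : PolyC D ctx (fun x => inCode (G x) (s x))) (he : PolyN D ctx e) :
    PolyN D ctx (fun x => repI (ecount (G x)) (z (G x)) (e x)) := by
  have W := up (n := fun x => ecount (G x)) hw
  have E := upN (n := fun x => ecount (G x)) he
  have L := last (D := D) (ctx := ctx) (n := fun x => ecount (G x))
  have W2 := up (n := fun p : α × ℕ => p.2 + 1) W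
  have E2 := upN (n := fun p : α × ℕ => p.2 + 1) E
  have L2 := last (D := fun p : α × ℕ => D p.1 ∧ p.2 < ecount (G p.1))
    (ctx := PolyTime.lift ctx ++ [fun p : α × ℕ => un p.2]) (n := fun p : α × ℕ => p.2 + 1)
  have hB : PolyB (fun p : α × ℕ => D p.1 ∧ p.2 < ecount (G p.1))
      (PolyTime.lift ctx ++ [fun p : α × ℕ => un p.2])
      (fun p : α × ℕ => decide (∃ i' < p.2 + 1, decide (z (G p.1) i' = z (G p.1) (e p.1)) = true)) :=
    PolyB.exists_lt (φ := fun q : (α × ℕ) × ℕ =>
      decide (z (G q.1.1) q.2 = z (G q.1.1) (e q.1.1))) L.succ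
      (PolyB.natEq (hz W2 L2) (hz W2 E2))
  exact PolyN.count (φ := fun p : α × ℕ =>
    !decide (∃ i' < p.2 + 1, decide (z (G p.1) i' = z (G p.1) (e p.1)) = true)) (poly_ecount hw)
    hB.not

end

section

variable {α : Type} {D : α → Prop} {ctx : List (α → List Bool)} {G : α → BGraph} {s : α → ℕ}

theorem poly_repX {e : α → ℕ} (hw : PolyC D ctx (fun x => inCode (G x) (s x)))
    (he : PolyN D ctx e) :
    PolyN D ctx (fun x => repI (ecount (G x)) (xI (G x)) (e x)) :=
  poly_repI (z := xI) (fun h1 h2 => poly_xI h1 h2) hw he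

theorem poly_repY {e : α → ℕ} (hw : PolyC D ctx (fun x => inCode (G x) (s x)))
    (he : PolyN D ctx e) :
    PolyN D ctx (fun x => repI (ecount (G x)) (yI (G x)) (e x)) :=
  poly_repI (z := yI) (fun h1 h2 => poly_yI h1 h2) hw he

theorem poly_srcE {g : α → ℕ} (hw : PolyC D ctx (fun x => inCode (G x) (s x)))
    (hg : PolyN D ctx g) :
    PolyN D ctx (fun x => srcE (repI (ecount (G x)) (xI (G x))) (g x)) := by
  have c5 : PolyN D ctx (fun _ => 5) := PolyN.const 5
  have m5 := PolyN.mod hg c5 (fun _ _ => by norm_num)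
  have d5 := PolyN.div hg c5 (fun _ _ => by norm_num)
  have base := (PolyN.const 6).mul d5
  exact PolyN.ite (PolyB.lt m5 (PolyN.const 2)) ((PolyN.const 6).mul (poly_repX hw d5))
    (PolyN.ite (PolyB.natEq m5 (PolyN.const 2)) (base.add (PolyN.const 2))
      (PolyN.ite (PolyB.natEq m5 (PolyN.const 3)) (base.add (PolyN.const 4))
        (base.add (PolyN.const 5))))

theorem poly_tgtE {g : α → ℕ} (hw : PolyC D ctx (fun x => inCode (G x) (s x)))
    (hg : PolyN D ctx g) :
    PolyN D ctx (fun x => tgtE (repI (ecount (G x)) (yI (G x))) (g x)) := by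
  have c5 : PolyN D ctx (fun _ => 5) := PolyN.const 5
  have m5 := PolyN.mod hg c5 (fun _ _ => by norm_num)
  have d5 := PolyN.div hg c5 (fun _ _ => by norm_num)
  have base := (PolyN.const 6).mul d5
  have rr := ((PolyN.const 6).mul (poly_repY hw d5)).add (PolyN.const 1)
  exact PolyN.ite (PolyB.natEq m5 (PolyN.const 0)) rr
    (PolyN.ite (PolyB.natEq m5 (PolyN.const 1)) (base.add (PolyN.const 2))
      (PolyN.ite (PolyB.natEq m5 (PolyN.const 2)) (base.add (PolyN.const 3))
        (PolyN.ite (PolyB.natEq m5 (PolyN.const 3)) rr (base.add (PolyN.const 4)))))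

theorem poly_F3g {c1 U S V T : α → ℕ} (hw : PolyC D ctx (fun x => inCode (G x) (s x)))
    (hc : PolyN D ctx c1) (hU : PolyN D ctx U) (hS : PolyN D ctx S) (hV : PolyN D ctx V)
    (hT : PolyN D ctx T) :
    PolyB D ctx (fun x => F3g (c1 x) (repI (ecount (G x)) (xI (G x)))
      (repI (ecount (G x)) (yI (G x))) (U x) (S x) (V x) (T x)) := by
  have hg := PolyN.divz hT hc
  have hs := poly_srcE hw hg
  have ht := poly_tgtE hw hg
  have hUV := PolyB.natEq hU hV
  have hVs := PolyB.natEq hV hs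
  have hVt := PolyB.natEq hV ht
  have h0 := PolyB.natEq hS (hc.mul hg)
  exact ((hVs.and ((hUV.and (PolyB.natEq hS hT).not).or ((PolyB.natEq hU ht).and h0))).or
    ((hVt.and ((hUV.and h0.not).or ((PolyB.natEq hU hs).and (PolyB.natEq hS hT)))).or
    ((hVs.or hVt).not.and hUV)))

theorem poly_F3 {c1 f u v : α → ℕ} (hw : PolyC D ctx (fun x => inCode (G x) (s x)))
    (hc : PolyN D ctx c1) (hf : PolyN D ctx f) (hu : PolyN D ctx u) (hv : PolyN D ctx v) :
    PolyB D ctx (fun x => F3 (ecount (G x)) (c1 x) (f x) (repI (ecount (G x)) (xI (G x)))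
      (repI (ecount (G x)) (yI (G x))) (u x) (v x)) := by
  have hs : PolyN D ctx (fun x => ecount (G x) * 5 * c1 x) :=
    ((poly_ecount hw).mul (PolyN.const 5)).mul hc
  have hd := hs.add hf
  have hU := PolyN.divz hu hd
  have hS := PolyN.modz hu hd
  have hV := PolyN.divz hv hd
  have hT := PolyN.modz hv hd
  have hlt := PolyB.lt hT hs
  have h1 := poly_F3g hw hc hU hS hV hT
  have h2 := PolyB.natEq hU hV
  exact PolyB.ite hlt (PolyC.mono h1 fun _ h => h.1) (PolyC.mono h2 fun _ h => h.1)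

theorem poly_ce {a b m t : α → ℕ} (ha : PolyN D ctx a) (hb : PolyN D ctx b)
    (hm : PolyN D ctx m) (ht : PolyN D ctx t) :
    PolyN D ctx (fun x => ce (a x) (b x) (m x) (t x)) :=
  (PolyN.const 3).mul ((((ha.add hb).add hm).add ((PolyN.const 2).mul ht)).add (PolyN.const 8))

theorem poly_slE {a b m t : α → ℕ} (ha : PolyN D ctx a) (hb : PolyN D ctx b)
    (hm : PolyN D ctx m) (ht : PolyN D ctx t) :
    PolyN D ctx (fun x => m x * 5 * (ce (a x) (b x) (m x) (t x) + 1)) :=
  (hm.mul (PolyN.const 5)).mul ((poly_ce ha hb hm ht).add (PolyN.const 1))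

theorem poly_fE {a b m t : α → ℕ} (ha : PolyN D ctx a) (hb : PolyN D ctx b)
    (hm : PolyN D ctx m) (ht : PolyN D ctx t) :
    PolyN D ctx (fun x => fE (a x) (b x) (m x) (t x)) :=
  (((poly_slE ha hb hm ht).add ((hm.add (PolyN.const 1)).mul (PolyN.const 6))).add
    (((PolyN.const 2).mul ht).add (PolyN.const 2))).add (ha.add hb)

theorem poly_dE {a b m t : α → ℕ} (ha : PolyN D ctx a) (hb : PolyN D ctx b)
    (hm : PolyN D ctx m) (ht : PolyN D ctx t) :
    PolyN D ctx (fun x => dE (a x) (b x) (m x) (t x)) :=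
  (poly_slE ha hb hm ht).add (poly_fE ha hb hm ht)

theorem poly_nE (hw : PolyC D ctx (fun x => inCode (G x) (s x))) :
    PolyN D ctx (fun x => (ecount (G x) + 1) * 6 * dE (G x).a (G x).b (ecount (G x)) (s x)) :=
  (((poly_ecount hw).add (PolyN.const 1)).mul (PolyN.const 6)).mul
    (poly_dE (poly_a hw) (poly_b hw) (poly_ecount hw) (poly_s hw))

end

theorem poly_redE (D : BGraph × ℕ → Prop) :
    PolyC D [fun x => inCode x.1 x.2] (fun x => inCode (redE x.1 x.2) (2 * x.2)) := by
  have hw : PolyC D [fun x => inCode x.1 x.2] (fun x => inCode x.1 x.2) := PolyC.var (by simp)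
  have hn := poly_nE hw
  refine poly_inCode hn hn ((PolyN.const 2).mul (poly_s hw)) ?_
  have W2 := up (n := fun p : (BGraph × ℕ) × ℕ =>
    (ecount p.1.1 + 1) * 6 * dE p.1.1.a p.1.1.b (ecount p.1.1) p.1.2)
    (up (n := fun x : BGraph × ℕ =>
    (ecount x.1 + 1) * 6 * dE x.1.a x.1.b (ecount x.1) x.2) hw)
  have I2 := upN (n := fun p : (BGraph × ℕ) × ℕ =>
    (ecount p.1.1 + 1) * 6 * dE p.1.1.a p.1.1.b (ecount p.1.1) p.1.2) (last (D := D)
      (ctx := [fun x => inCode x.1 x.2]) (n := fun x : BGraph × ℕ =>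
    (ecount x.1 + 1) * 6 * dE x.1.a x.1.b (ecount x.1) x.2))
  have J2 := last (D := fun p : (BGraph × ℕ) × ℕ => D p.1 ∧ p.2 <
    (ecount p.1.1 + 1) * 6 * dE p.1.1.a p.1.1.b (ecount p.1.1) p.1.2)
    (ctx := PolyTime.lift [fun x : BGraph × ℕ => inCode x.1 x.2] ++
      [fun p : (BGraph × ℕ) × ℕ => un p.2]) (n := fun p : (BGraph × ℕ) × ℕ =>
    (ecount p.1.1 + 1) * 6 * dE p.1.1.a p.1.1.b (ecount p.1.1) p.1.2)
  have a2 := poly_a W2
  have b2 := poly_b W2
  have m2 := poly_ecount W2
  have t2 := poly_s W2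
  exact poly_F3 W2 ((poly_ce a2 b2 m2 t2).add (PolyN.const 1)) (poly_fE a2 b2 m2 t2) I2 J2

theorem poly_KE (D : BGraph × ℕ → Prop) :
    PolyN D [fun x => inCode x.1 x.2] (fun x => KE x.1 x.2) := by
  have hw : PolyC D [fun x => inCode x.1 x.2] (fun x => inCode x.1 x.2) := PolyC.var (by simp)
  exact PolyN.sub ((poly_nE hw).add ((PolyN.const 6).add ((PolyN.const 3).mul (poly_ecount hw))))
    ((poly_a hw).add (poly_b hw))

end Pool.Agent.Lib.Pa7c826t
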