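import Pool.Agent.Lib.Pa7c826.Fptas

/-!
Monotonicity of `HasFPTAS`.
-/

namespace Pool.Agent.Lib.Pa7c826t

open Pool.Agent.Lib.Pa7c826

theorem HasFPTAS.mono {C C' : BGraph → Prop} (h : ∀ G, C G → C' G) (hC : HasFPTAS C') :
    HasFPTAS C := by
  obtain ⟨f, ⟨M⟩, hf⟩ := hC
  let ι : {x : BGraph × ℕ // C x.1 ∧ 1 ≤ x.2} → {x : BGraph × ℕ // C' x.1 ∧ 1 ≤ x.2} :=
    fun x => ⟨x.1, h _ x.2.1, x.2.2⟩
  refine ⟨fun x => f (ι x), ⟨?_⟩, fun x => hf (ι x)⟩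
  exact
    { tm := M.tm
      inputAlphabet := M.inputAlphabet
      outputAlphabet := M.outputAlphabet
      time := M.time
      outputsFun := fun x => M.outputsFun (ι x) }

end Pool.Agent.Lib.Pa7c826t
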