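import Pool.Agent.Lib.Pa7c826t.HardT
import Pool.Agent.Lib.Pa7c826t.FMono
import Pool.Agent.Lib.Pa7c826.RegExp

/-!
Transfer of deterministic approximation schemes along approximation-preserving reductions.
-/

namespace Pool.Agent.Lib.Pa7c826t

open Pool.Agent.Lib.PolyTime Pool.Agent.Lib.Pa7c826

/-- **Transfer**, deterministic version. -/
theorem HasFPTAS.transfer2 {C C' : BGraph → Prop} (red : BGraph → ℕ → BGraph)
    (K : BGraph → ℕ → ℕ)
    (hred : PolyC (fun x : BGraph × ℕ => C x.1 ∧ 1 ≤ x.2) [fun x => inCode x.1 x.2]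
      (fun x => inCode (red x.1 x.2) (2 * x.2)))
    (hK : PolyN (fun x : BGraph × ℕ => C x.1 ∧ 1 ≤ x.2) [fun x => inCode x.1 x.2]
      (fun x => K x.1 x.2))
    (hC : ∀ G t, C G → 1 ≤ t → C' (red G t))
    (h12 : ∀ G t, C G → 1 ≤ t → |(numIndep (red G t).graph : ℚ) / 2 ^ K G t -
      numIndep G.graph| ≤ numIndep G.graph / (2 * t + 1))
    (h : HasFPTAS C') : HasFPTAS C := by
  classical
  obtain ⟨f', hf', hgood⟩ := h
  let F : BGraph × ℕ → List Bool := fun x =>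
    if hx : C' (red x.1 x.2) ∧ 1 ≤ 2 * x.2 then f' ⟨(red x.1 x.2, 2 * x.2), hx⟩ else []
  let D : BGraph × ℕ → Prop := fun x => C x.1 ∧ 1 ≤ x.2
  let enc : BGraph × ℕ → List Bool := fun x => inCode x.1 x.2
  have hx : ∀ G t, C G → 1 ≤ t → C' (red G t) ∧ 1 ≤ 2 * t := fun G t hG ht =>
    ⟨hC G t hG ht, by omega⟩
  have hF : ∀ G t (hG : C G) (ht : 1 ≤ t), F (G, t) = f' ⟨(red G t, 2 * t), hx G t hG ht⟩ :=
    fun G t hG ht => dif_pos (hx G t hG ht)
  have hcall : PolyC D [enc] F := by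
    refine PolyC.applyTM2 hf' _ _ hred ?_
    rintro ⟨G, t⟩ ⟨hG, ht⟩
    exact ⟨⟨(red G t, 2 * t), hx G t hG ht⟩, rfl, (hF G t hG ht).symm⟩
  have hout : PolyC D [enc] (fun x => List.replicate (K x.1 x.2) true ++ F x) :=
    PolyC.append hK hcall
  refine ⟨fun x => List.replicate (K x.1.1 x.1.2) true ++ F x.1,
    PolyC.toTM2 enc (fun x => List.replicate (K x.1 x.2) true ++ F x) id hout, ?_⟩
  rintro ⟨⟨G, t⟩, hG, ht⟩
  have h1 := hgood ⟨(red G t, 2 * t), hx G t hG ht⟩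
  show Good G t (List.replicate (K G t) true ++ F (G, t))
  rw [hF G t hG ht]
  exact Good.transfer2 ht h1 (h12 G t hG ht)

theorem hardD {g : ℕ → ℕ} (hg : Monotone g) (h : HasFPTAS (RegularLe g)) :
    HasFPTAS (fun G => 12 * (ecount G + 1) ≤ g (G.a + G.b)) :=
  HasFPTAS.transfer2 redE KE (poly_redE _) (poly_KE _)
    (fun G t hG _ => redE_class hg G t hG) (fun G t _ _ => redE_estimate G t) h

theorem regularExp_iffD {p q : ℕ} (hp : 0 < p) (hpq : p < q) :
    HasFPTAS (RegularExp p q) ↔ HasFPTAS (fun _ => True) := by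
  constructor
  · intro h
    exact HasFPTAS.transfer2 (red3 p q) (K3 p q) (poly_red3 hp _) (poly_K3 p q _)
      (fun G t _ _ => red3_class hp hpq G t) (fun G t _ _ => red3_estimate hp hpq G t) h
  · exact HasFPTAS.mono (fun _ _ => trivial)

end Pool.Agent.Lib.Pa7c826t
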