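import Pool.Agent.Lib.Pa7c826t.LeafHolder

/-!
The leaf bound.

PROOF. Put `l = |S.filter p|`, `r = |S.filter (¬ p)|`, `b = |S₀.filter (¬ p)|`,
`e = ∑_{u ∈ S, ¬ p u} dg adj S u` (the number of edges of `S`), `κ = 33/32`, `ν = |M|`, `s = q - D`.
(1) `D l ≤ e + q (b - r)`: sum `D ≤ dg adj S₀ v = dg adj S v + dg adj (S₀ \ S) v` over
`v ∈ S, p v`, double counting (`Finset.sum_card_bipartiteAbove_eq_sum_card_bipartiteBelow`) and
`dg adj S₀ u ≤ q` for the `b - r` vertices `u ∈ S₀ \ S` with `¬ p u`. So the integer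
`y = q (l + r - b) - e` satisfies `y ≤ s l`.
(2) `∑_{u ∈ S, ¬ p u} (q - dg adj S u) = q r - e`, so by `leaf_holder`
`i ^ q ≤ 2 ^ ((q + 1) l + q r - e) (3/4) ^ (ν (q/2))`.
(3) `(3/4) ^ (ν (q/2)) κ ^ (2 q ν) ≤ 1`: for `q = 1` there are no edges in `S` (`2 dg ≤ 1`), so
`ν = 0`; for `q ≥ 2` we have `q ≤ 3 (q/2)` and `κ ^ 6 * (3/4) ≤ 1` (norm_num).
(4) Second claim: `(i κ ^ (2ν)) ^ q ≤ 2 ^ (q b + l + y) ≤ 2 ^ (q b + l (1 + s)) ≤ 2 ^ (q (b + H))`
since `l ≤ |S₀.filter p|`; take `q`-th roots (`pow_le_pow_left₀`, `lt_of_pow_lt_pow_left₀`).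
(5) First claim, `q`-th power: by (3) it suffices that
`2 ^ ((q+1) l + q r - e) κ ^ (2 q b) ≤ 2 ^ (q (b + H)) κ ^ (2 q (l + r))`. The exponent of `2` on the
left minus the one on the right is `l + y - q H ≤ y - s l ≤ min(0, y)`. If `l + r ≥ b` use `κ ≥ 1`;
if `l + r < b` then `y ≤ q (l + r - b) < 0` and `κ ^ 2 ≤ 2` gives
`2 ^ (q (b - l - r)) ≥ κ ^ (2 q (b - l - r))`.
-/

namespace Pool.Agent.Lib.Pa7c826t

open Finset Pool.Agent.Lib.Pa7c826

/-- double counting of the edges between the sides -/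
lemma leafBound_dc {adj : ℕ → ℕ → Bool} (hs : ∀ u v, adj u v = adj v u) (p : ℕ → Prop)
    [DecidablePred p] (hbip : ∀ u v, adj u v = true → (p u ↔ ¬ p v)) (A B : Finset ℕ) :
    ∑ v ∈ A.filter (fun v => p v), dg adj B v = ∑ u ∈ B.filter (fun u => ¬ p u), dg adj A u := by
  have h1 : ∀ v ∈ A.filter (fun v => p v), dg adj B v =
      ∑ u ∈ B.filter (fun u => ¬ p u), if adj v u = true then 1 else 0 := by
    intro v hv
    rw [Finset.mem_filter] at hv
    unfold dg
    rw [Finset.card_filter, Finset.sum_filter]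
    apply Finset.sum_congr rfl
    intro u _
    by_cases ha : adj v u = true
    · have hpu : ¬ p u := (hbip v u ha).1 hv.2
      simp [ha, hpu]
    · simp [ha]
  have h2 : ∀ u ∈ B.filter (fun u => ¬ p u), dg adj A u =
      ∑ v ∈ A.filter (fun v => p v), if adj v u = true then 1 else 0 := by
    intro u hu
    rw [Finset.mem_filter] at hu
    unfold dg
    rw [Finset.card_filter, Finset.sum_filter]
    apply Finset.sum_congr rfl
    intro v _
    rw [hs u v]
    by_cases ha : adj v u = true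
    · have hpv : p v := (hbip v u ha).2 hu.2
      simp [ha, hpv]
    · simp [ha]
  rw [Finset.sum_congr rfl h1, Finset.sum_congr rfl h2, Finset.sum_comm]

lemma leafBound_edges {adj : ℕ → ℕ → Bool} (hs : ∀ u v, adj u v = adj v u) (p : ℕ → Prop)
    [DecidablePred p] (hbip : ∀ u v, adj u v = true → (p u ↔ ¬ p v)) {S₀ S : Finset ℕ}
    {D q : ℕ} (hrow : ∀ v ∈ S₀, p v → D ≤ dg adj S₀ v)
    (hcol : ∀ u ∈ S₀, ¬ p u → dg adj S₀ u ≤ q) (hS : S ⊆ S₀) :
    D * (S.filter (fun v => p v)).card + q * (S.filter (fun u => ¬ p u)).card ≤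
      ∑ u ∈ S.filter (fun u => ¬ p u), dg adj S u + q * (S₀.filter (fun u => ¬ p u)).card := by
  have h1 : D * (S.filter (fun v => p v)).card ≤
      ∑ v ∈ S.filter (fun v => p v), (dg adj S v + dg adj (S₀ \ S) v) := by
    rw [mul_comm, ← smul_eq_mul]
    apply Finset.card_nsmul_le_sum
    intro v hv
    rw [Finset.mem_filter] at hv
    refine (hrow v (hS hv.1) hv.2).trans (le_of_eq ?_)
    unfold dg
    rw [← Finset.card_union_of_disjoint, ← Finset.filter_union, Finset.union_sdiff_of_subset hS]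
    exact Finset.disjoint_filter_filter Finset.disjoint_sdiff
  rw [Finset.sum_add_distrib, leafBound_dc hs p hbip, leafBound_dc hs p hbip] at h1
  have h2 : ∑ u ∈ (S₀ \ S).filter (fun u => ¬ p u), dg adj S u ≤
      ((S₀ \ S).filter (fun u => ¬ p u)).card * q := by
    rw [← smul_eq_mul]
    apply Finset.sum_le_card_nsmul
    intro u hu
    rw [Finset.mem_filter, Finset.mem_sdiff] at hu
    refine le_trans ?_ (hcol u hu.1.1 hu.2)
    unfold dg
    exact Finset.card_le_card (Finset.filter_subset_filter _ hS)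
  have h3 : ((S₀ \ S).filter (fun u => ¬ p u)).card + (S.filter (fun u => ¬ p u)).card =
      (S₀.filter (fun u => ¬ p u)).card := by
    rw [← Finset.card_union_of_disjoint, ← Finset.filter_union, Finset.sdiff_union_of_subset hS]
    exact Finset.disjoint_filter_filter Finset.sdiff_disjoint
  rw [← h3]
  nlinarith [h1, h2]

lemma leafBound_mat {adj : ℕ → ℕ → Bool} {p : ℕ → Prop} {S : Finset ℕ} {q : ℕ} (hq : 1 ≤ q)
    (hdeg : ∀ v ∈ S, 2 * dg adj S v ≤ q) {M : Finset (ℕ × ℕ)} (hM : IsMat adj p S M) :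
    ((3 : ℝ) / 4) ^ (M.card * (q / 2)) * (33 / 32) ^ (2 * q * M.card) ≤ 1 := by
  rcases Nat.lt_or_ge q 2 with h | h
  · have hq1 : q = 1 := by omega
    have hM0 : M = ∅ := by
      rw [Finset.eq_empty_iff_forall_notMem]
      intro e he
      have h1 := hdeg _ (hM.left_mem e he)
      have h2 : 0 < dg adj S e.1 := by
        unfold dg
        rw [Finset.card_pos]
        exact ⟨e.2, Finset.mem_filter.2 ⟨hM.right_mem e he, hM.edge e he⟩⟩
      omega
    rw [hM0]
    simp
  · have h3 : 2 * q * M.card ≤ 6 * (M.card * (q / 2)) := by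
      have : q ≤ 3 * (q / 2) := by omega
      calc 2 * q * M.card ≤ 2 * (3 * (q / 2)) * M.card := by gcongr
        _ = 6 * (M.card * (q / 2)) := by ring
    calc ((3 : ℝ) / 4) ^ (M.card * (q / 2)) * (33 / 32) ^ (2 * q * M.card) ≤
        (3 / 4) ^ (M.card * (q / 2)) * (33 / 32) ^ (6 * (M.card * (q / 2))) := by
          gcongr
          norm_num
      _ = ((3 / 4) * (33 / 32) ^ 6) ^ (M.card * (q / 2)) := by
          rw [mul_pow, ← pow_mul]
      _ ≤ 1 := pow_le_one₀ (by norm_num) (by norm_num)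

/-- The leaf bound. `S₀` is the host graph, with degrees at least `D` on the side `p` and at most
`q` on the other side, and `b` vertices on that side; `S ⊆ S₀` induces a graph of maximum degree
at most `q / 2` with the matching `M`. Writing `κ = 33 / 32` we get
`i(S) κ ^ (2 (b + ν)) ≤ 2 ^ (b + H) κ ^ (2 |S|)` and `i(S) κ ^ (2 ν) ≤ 2 ^ (b + H)`. -/
theorem leaf_bound {adj : ℕ → ℕ → Bool} (hs : ∀ u v, adj u v = adj v u) (p : ℕ → Prop)
    [DecidablePred p] (hbip : ∀ u v, adj u v = true → (p u ↔ ¬ p v)) {S₀ S : Finset ℕ}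
    {D q H : ℕ} (hq : 1 ≤ q) (hDq : D ≤ q) (hrow : ∀ v ∈ S₀, p v → D ≤ dg adj S₀ v)
    (hcol : ∀ u ∈ S₀, ¬ p u → dg adj S₀ u ≤ q)
    (hH : (S₀.filter (fun v => p v)).card * (1 + (q - D)) ≤ q * H) (hS : S ⊆ S₀)
    (hdeg : ∀ v ∈ S, 2 * dg adj S v ≤ q) {M : Finset (ℕ × ℕ)} (hM : IsMat adj p S M) :
    (ind adj S : ℝ) * (33 / 32) ^ (2 * ((S₀.filter (fun u => ¬ p u)).card + M.card)) ≤
        2 ^ ((S₀.filter (fun u => ¬ p u)).card + H) * (33 / 32) ^ (2 * S.card) ∧
      (ind adj S : ℝ) * (33 / 32) ^ (2 * M.card) ≤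
        2 ^ ((S₀.filter (fun u => ¬ p u)).card + H) := by
  set l := (S.filter (fun v => p v)).card with hl
  set r := (S.filter (fun u => ¬ p u)).card with hr
  set b := (S₀.filter (fun u => ¬ p u)).card with hb
  set e := ∑ u ∈ S.filter (fun u => ¬ p u), dg adj S u with he
  set E2 := ∑ u ∈ S.filter (fun u => ¬ p u), (q - dg adj S u) with hE2
  have hcard : S.card = l + r := (Finset.card_filter_add_card_filter_not (s := S) (fun v => p v)).symm
  have hedge : D * l + q * r ≤ e + q * b := leafBound_edges hs p hbip hrow hcol hS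
  have hsum : E2 + e = q * r := by
    rw [hE2, he, ← Finset.sum_add_distrib, hr, mul_comm, ← smul_eq_mul, ← Finset.sum_const]
    apply Finset.sum_congr rfl
    intro u hu
    rw [Finset.mem_filter] at hu
    have := hdeg u hu.1
    omega
  have hl0 : l ≤ (S₀.filter (fun v => p v)).card :=
    Finset.card_le_card (Finset.filter_subset_filter _ hS)
  have hlH : l * (1 + (q - D)) ≤ q * H := (Nat.mul_le_mul_right _ hl0).trans hH
  have hEx : (q + 1) * l + E2 ≤ q * (b + H) := by
    obtain ⟨s, rfl⟩ := Nat.exists_eq_add_of_le hDq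
    have h1 : D + s - D = s := by omega
    rw [h1] at hlH
    nlinarith [hlH, hedge, hsum]
  have hhol := leaf_holder hs p hbip hq hdeg hM
  rw [← hl, ← hE2] at hhol
  have hmat := leafBound_mat hq hdeg hM
  set i : ℝ := (ind adj S : ℝ) with hi
  have hi0 : 0 ≤ i := Nat.cast_nonneg _
  set ν := M.card with hν
  have hkey : i ^ q * (33 / 32) ^ (2 * q * ν) ≤ 2 ^ ((q + 1) * l + E2) := by
    calc i ^ q * (33 / 32) ^ (2 * q * ν) ≤
        (2 ^ ((q + 1) * l + E2) * (3 / 4) ^ (ν * (q / 2))) * (33 / 32) ^ (2 * q * ν) := by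
          gcongr
      _ = 2 ^ ((q + 1) * l + E2) * ((3 / 4) ^ (ν * (q / 2)) * (33 / 32) ^ (2 * q * ν)) := by ring
      _ ≤ 2 ^ ((q + 1) * l + E2) * 1 := by gcongr
      _ = _ := mul_one _
  have hq0 : q ≠ 0 := by omega
  constructor
  · apply le_of_pow_le_pow_left₀ hq0 (by positivity)
    have hfin : (2 : ℝ) ^ ((q + 1) * l + E2) * (33 / 32) ^ (2 * q * b) ≤
        2 ^ (q * (b + H)) * (33 / 32) ^ (2 * q * (l + r)) := by
      rcases Nat.le_total b (l + r) with h | h
      · apply mul_le_mul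
        · exact pow_le_pow_right₀ (by norm_num) hEx
        · exact pow_le_pow_right₀ (by norm_num) (by gcongr)
        · positivity
        · positivity
      · obtain ⟨c, hc⟩ := Nat.exists_eq_add_of_le h
        have hlq : l ≤ q * H := by
          refine le_trans ?_ hlH
          exact Nat.le_mul_of_pos_right _ (by omega)
        have h1 : (q + 1) * l + E2 + q * c ≤ q * (b + H) := by
          rw [hc]
          nlinarith [hsum, hlq]
        have h2 : ((33 : ℝ) / 32) ^ (2 * q * c) ≤ 2 ^ (q * c) := by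
          rw [mul_assoc, pow_mul]
          exact pow_le_pow_left₀ (by norm_num) (by norm_num) _
        calc (2 : ℝ) ^ ((q + 1) * l + E2) * (33 / 32) ^ (2 * q * b)
            = 2 ^ ((q + 1) * l + E2) * (33 / 32) ^ (2 * q * c) * (33 / 32) ^ (2 * q * (l + r)) := by
              rw [mul_assoc (2 ^ ((q + 1) * l + E2)), ← pow_add, hc]
              congr 2
              ring
          _ ≤ 2 ^ ((q + 1) * l + E2) * 2 ^ (q * c) * (33 / 32) ^ (2 * q * (l + r)) := by
              gcongr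
          _ = 2 ^ ((q + 1) * l + E2 + q * c) * (33 / 32) ^ (2 * q * (l + r)) := by
              rw [← pow_add]
          _ ≤ 2 ^ (q * (b + H)) * (33 / 32) ^ (2 * q * (l + r)) := by
              gcongr
              norm_num
    calc (i * (33 / 32) ^ (2 * (b + ν))) ^ q
        = (i ^ q * (33 / 32) ^ (2 * q * ν)) * (33 / 32) ^ (2 * q * b) := by
          rw [mul_pow, ← pow_mul, mul_assoc (i ^ q), ← pow_add]
          congr 2
          ring
      _ ≤ 2 ^ ((q + 1) * l + E2) * (33 / 32) ^ (2 * q * b) := by gcongr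
      _ ≤ 2 ^ (q * (b + H)) * (33 / 32) ^ (2 * q * (l + r)) := hfin
      _ = (2 ^ (b + H) * (33 / 32) ^ (2 * S.card)) ^ q := by
          rw [mul_pow, ← pow_mul, ← pow_mul, hcard]
          congr 2 <;> ring
  · apply le_of_pow_le_pow_left₀ hq0 (by positivity)
    calc (i * (33 / 32) ^ (2 * ν)) ^ q = i ^ q * (33 / 32) ^ (2 * q * ν) := by
          rw [mul_pow, ← pow_mul]
          congr 2
          ring
      _ ≤ 2 ^ ((q + 1) * l + E2) := hkey
      _ ≤ 2 ^ (q * (b + H)) := pow_le_pow_right₀ (by norm_num) hEx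
      _ = (2 ^ (b + H)) ^ q := by
          rw [← pow_mul]
          congr 1
          ring

end Pool.Agent.Lib.Pa7c826t
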