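import Pool.Agent.Lib.Pa7c826t.Finner
import Pool.Agent.Lib.Pa7c826t.WInd

/-!
Upper bound for the independence polynomial of a bipartite graph in which all degrees on the side
`p` are at least `D` and all degrees on the other side are at most `q`.

PROOF. Let `L = S.filter p`, `R = S.filter (¬ p)`, `N v = R.filter (adj v ·)` for `v ∈ L`
(`|N v| = dg adj S v`), `a = |L|`, `b = |R|`. By `wind_eq_sum`
`Z = ∑_{B ⊆ R} lam ^ |B| (1 + lam) ^ #{v ∈ L : N v ∩ B = ∅}`. Apply `finner` with exponent `q` to the
index set `L` together with `q - dg adj S u` extra indices `(u, k)`, `u ∈ R`, `k < q - dg adj S u`,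
sets `N v` and `{u}`, functions
`Φ v B = lam ^ |B ∩ N v| * (if B ∩ N v = ∅ then (1 + lam) ^ q else 1)` and
`Φ (u,k) B = if u ∈ B then lam else 1`. The product of the `q`-th roots is the summand of `Z`, and
`∑_{B ⊆ N v} Φ v B ≤ 2 (1 + lam) ^ (dg v + (q - D))`, `∑ Φ (u,k) = 1 + lam`. Hence
`Z ^ q ≤ 2 ^ a (1 + lam) ^ (a (q - D) + q b) ≤ (2 ^ H (1 + lam) ^ b) ^ q`.
-/

namespace Pool.Agent.Lib.Pa7c826t

open Finset Pool.Agent.Lib.Pa7c826

namespace RootB

/-- the index set -/
def V (L R : Finset ℕ) (m : ℕ → ℕ) : Finset (ℕ ⊕ (Σ _ : ℕ, ℕ)) :=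
  L.disjSum (R.sigma fun u => range (m u))

/-- the sets of coordinates -/
def N (adj : ℕ → ℕ → Bool) (R : Finset ℕ) : ℕ ⊕ (Σ _ : ℕ, ℕ) → Finset ℕ :=
  Sum.elim (fun v => R.filter (fun u => adj v u = true)) (fun x => {x.1})

/-- the functions -/
noncomputable def Φ (adj : ℕ → ℕ → Bool) (R : Finset ℕ) (q : ℕ) (lam : ℝ) :
    ℕ ⊕ (Σ _ : ℕ, ℕ) → Finset ℕ → ℝ :=
  Sum.elim (fun v B => lam ^ (B ∩ R.filter (fun u => adj v u = true)).card *
      (if B ∩ R.filter (fun u => adj v u = true) = ∅ then (1 + lam) ^ q else 1))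
    (fun x B => if x.1 ∈ B then lam else 1)

lemma root_pow {lam : ℝ} (h0 : 0 ≤ lam) (q k : ℕ) :
    (lam ^ k) ^ ((1 : ℝ) / q) = (lam ^ ((1 : ℝ) / q)) ^ k := by
  rw [← Real.rpow_natCast, ← Real.rpow_mul h0, mul_comm, Real.rpow_mul h0, Real.rpow_natCast]

lemma prod_V {M : Type*} [CommMonoid M] (L R : Finset ℕ) (m : ℕ → ℕ) (f : ℕ ⊕ (Σ _ : ℕ, ℕ) → M) :
    ∏ v ∈ V L R m, f v = (∏ v ∈ L, f (Sum.inl v)) * ∏ u ∈ R, ∏ k ∈ range (m u), f (Sum.inr ⟨u, k⟩) := by
  unfold V
  rw [prod_disjSum, prod_sigma]

lemma sum_V {M : Type*} [AddCommMonoid M] (L R : Finset ℕ) (m : ℕ → ℕ)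
    (f : ℕ ⊕ (Σ _ : ℕ, ℕ) → M) :
    ∑ v ∈ V L R m, f v = (∑ v ∈ L, f (Sum.inl v)) + ∑ u ∈ R, ∑ k ∈ range (m u), f (Sum.inr ⟨u, k⟩) := by
  unfold V
  rw [sum_disjSum, sum_sigma]

lemma sum_powerset_pow (lam : ℝ) (T : Finset ℕ) :
    ∑ B ∈ T.powerset, lam ^ B.card = (1 + lam) ^ T.card := by
  have h := Finset.sum_pow_mul_eq_add_pow lam 1 T
  rw [add_comm 1 lam, ← h]
  refine sum_congr rfl fun B _ => ?_
  rw [one_pow, mul_one]

end RootB

open RootB in
theorem root_bound {adj : ℕ → ℕ → Bool} (hs : ∀ u v, adj u v = adj v u) (p : ℕ → Prop)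
    [DecidablePred p] (hbip : ∀ u v, adj u v = true → (p u ↔ ¬ p v)) {S : Finset ℕ} {D q H : ℕ}
    (hq : 1 ≤ q) (hDq : D ≤ q) (hrow : ∀ v ∈ S, p v → D ≤ dg adj S v)
    (hcol : ∀ u ∈ S, ¬ p u → dg adj S u ≤ q)
    (hH : (S.filter (fun v => p v)).card * (1 + (q - D)) ≤ q * H) {lam : ℝ} (h0 : 0 ≤ lam)
    (h1 : lam ≤ 1) :
    wind adj lam S ≤ 2 ^ H * (1 + lam) ^ (S.filter (fun u => ¬ p u)).card := by
  set L := S.filter (fun v => p v) with hL
  set R := S.filter (fun u => ¬ p u) with hR
  have hq0 : (q : ℝ) ≠ 0 := by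
    have : q ≠ 0 := by omega
    exact_mod_cast this
  -- degrees
  have hNv : ∀ v ∈ L, (R.filter (fun u => adj v u = true)).card = dg adj S v := by
    intro v hv
    unfold dg
    congr 1
    ext u
    rw [hL, mem_filter] at hv
    simp only [hR, mem_filter]
    constructor
    · rintro ⟨⟨h2, -⟩, h3⟩
      exact ⟨h2, h3⟩
    · rintro ⟨h2, h3⟩
      exact ⟨⟨h2, (hbip v u h3).mp hv.2⟩, h3⟩
  have hNu : ∀ u ∈ R, (L.filter (fun v => u ∈ R.filter (fun u' => adj v u' = true))).card =
      dg adj S u := by
    intro u hu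
    unfold dg
    congr 1
    ext v
    have hu' := hu
    rw [hR, mem_filter] at hu'
    constructor
    · intro h
      obtain ⟨h2, h3⟩ := mem_filter.mp h
      exact mem_filter.mpr ⟨(mem_filter.mp h2).1, by rw [hs u v]; exact (mem_filter.mp h3).2⟩
    · intro h
      obtain ⟨h2, h3⟩ := mem_filter.mp h
      refine mem_filter.mpr ⟨mem_filter.mpr ⟨h2, ?_⟩, mem_filter.mpr ⟨hu, by rw [hs v u]; exact h3⟩⟩
      by_contra h4
      exact hu'.2 ((hbip u v h3).mpr h4)
  -- double counting
  have hdc : ∀ B, B ⊆ R → ∑ v ∈ L, (B ∩ R.filter (fun u => adj v u = true)).card =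
      ∑ u ∈ B, dg adj S u := by
    intro B hB
    have e1 : ∀ v ∈ L, (B ∩ R.filter (fun u => adj v u = true)).card =
        ∑ u ∈ B, if u ∈ R.filter (fun u' => adj v u' = true) then 1 else 0 := by
      intro v _
      rw [← Finset.filter_mem_eq_inter, card_filter]
    rw [sum_congr rfl e1, sum_comm]
    refine sum_congr rfl fun u hu => ?_
    rw [← hNu u (hB hu), card_filter]
  -- Finner
  have hfin := finner (p := q) hq (V L R fun u => q - dg adj S u) R (N adj R) (Φ adj R q lam)
    ?_ ?_ ?_ ?_
  · -- the left side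
    have hleft : wind adj lam S = ∑ B ∈ R.powerset,
        ∏ v ∈ V L R fun u => q - dg adj S u, Φ adj R q lam v B ^ ((1 : ℝ) / q) := by
      rw [wind_eq_sum hs p hbip lam S]
      refine sum_congr rfl fun B hB => ?_
      rw [mem_powerset] at hB
      set x : ℝ := lam ^ ((1 : ℝ) / q) with hx
      have hxq : x ^ q = lam := by
        rw [hx, one_div, Real.rpow_inv_natCast_pow h0 (by omega)]
      rw [prod_V]
      have e1 : ∏ v ∈ L, Φ adj R q lam (Sum.inl v) B ^ ((1 : ℝ) / q) =
          x ^ (∑ u ∈ B, dg adj S u) *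
            (1 + lam) ^ (L.filter (fun v => ∀ u ∈ B, adj v u = false)).card := by
        have e2 : ∀ v ∈ L, Φ adj R q lam (Sum.inl v) B ^ ((1 : ℝ) / q) =
            x ^ (B ∩ R.filter (fun u => adj v u = true)).card *
              (if ∀ u ∈ B, adj v u = false then (1 + lam) else 1) := by
          intro v _
          have hiff : B ∩ R.filter (fun u => adj v u = true) = ∅ ↔ ∀ u ∈ B, adj v u = false := by
            rw [Finset.eq_empty_iff_forall_notMem]
            constructor
            · intro h u hu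
              have h2 := h u
              rw [mem_inter, mem_filter] at h2
              by_contra h3
              exact h2 ⟨hu, hB hu, by simpa using h3⟩
            · intro h u hu
              rw [mem_inter, mem_filter] at hu
              have h2 := h u hu.1
              rw [hu.2.2] at h2
              exact absurd h2 (by simp)
          change (lam ^ (B ∩ R.filter (fun u => adj v u = true)).card *
            (if B ∩ R.filter (fun u => adj v u = true) = ∅ then (1 + lam) ^ q else 1)) ^
              ((1 : ℝ) / q) = _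
          have h2 : 0 ≤ (if B ∩ R.filter (fun u => adj v u = true) = ∅ then (1 + lam) ^ q
              else (1 : ℝ)) := by
            split_ifs
            · positivity
            · exact zero_le_one
          rw [Real.mul_rpow (by positivity) h2, root_pow h0]
          congr 1
          by_cases h3 : ∀ u ∈ B, adj v u = false
          · rw [if_pos (hiff.mpr h3), if_pos h3, one_div,
              Real.pow_rpow_inv_natCast (by linarith) (by omega)]
          · rw [if_neg (fun h4 => h3 (hiff.mp h4)), if_neg h3, Real.one_rpow]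
        rw [prod_congr rfl e2, prod_mul_distrib, prod_pow_eq_pow_sum, hdc B hB, prod_ite]
        simp
      have e3 : ∏ u ∈ R, ∏ k ∈ range (q - dg adj S u),
          Φ adj R q lam (Sum.inr ⟨u, k⟩) B ^ ((1 : ℝ) / q) = x ^ (∑ u ∈ B, (q - dg adj S u)) := by
        have e4 : ∀ u ∈ R, ∏ k ∈ range (q - dg adj S u),
            Φ adj R q lam (Sum.inr ⟨u, k⟩) B ^ ((1 : ℝ) / q) =
              if u ∈ B then x ^ (q - dg adj S u) else 1 := by
          intro u _
          change ∏ _k ∈ range (q - dg adj S u), ((if u ∈ B then lam else 1) : ℝ) ^ ((1 : ℝ) / q) = _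
          rw [prod_const, card_range]
          split_ifs
          · rfl
          · rw [Real.one_rpow, one_pow]
        rw [prod_congr rfl e4, ← prod_filter, Finset.filter_mem_eq_inter,
          Finset.inter_eq_right.mpr hB, prod_pow_eq_pow_sum]
      rw [e1, e3]
      have e5 : ∑ u ∈ B, dg adj S u + ∑ u ∈ B, (q - dg adj S u) = q * B.card := by
        rw [← sum_add_distrib, sum_congr rfl (g := fun _ => q), sum_const, smul_eq_mul, mul_comm]
        intro u hu
        have hu' := hB hu
        rw [hR, mem_filter] at hu'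
        have := hcol u hu'.1 hu'.2
        omega
      calc lam ^ B.card * (1 + lam) ^ (L.filter (fun v => ∀ u ∈ B, adj v u = false)).card
          = x ^ (∑ u ∈ B, dg adj S u + ∑ u ∈ B, (q - dg adj S u)) *
            (1 + lam) ^ (L.filter (fun v => ∀ u ∈ B, adj v u = false)).card := by
            rw [e5, pow_mul, hxq]
        _ = _ := by
            rw [pow_add]
            ring
    rw [hleft]
    refine hfin.trans ?_
    -- the right side
    have hsumL : ∀ v ∈ L, ∑ B ∈ (N adj R (Sum.inl v)).powerset, Φ adj R q lam (Sum.inl v) B ≤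
        2 * (1 + lam) ^ (dg adj S v + (q - D)) := by
      intro v hv
      change ∑ B ∈ (R.filter (fun u => adj v u = true)).powerset,
        lam ^ (B ∩ R.filter (fun u => adj v u = true)).card *
          (if B ∩ R.filter (fun u => adj v u = true) = ∅ then (1 + lam) ^ q else 1) ≤ _
      have e1 : ∀ B ∈ (R.filter (fun u => adj v u = true)).powerset,
          lam ^ (B ∩ R.filter (fun u => adj v u = true)).card *
          (if B ∩ R.filter (fun u => adj v u = true) = ∅ then (1 + lam) ^ q else 1) ≤
          lam ^ B.card + (if B = ∅ then (1 + lam) ^ q else 0) := by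
        intro B hB
        rw [mem_powerset] at hB
        rw [Finset.inter_eq_left.mpr hB]
        by_cases h2 : B = ∅
        · rw [if_pos h2, if_pos h2, h2, card_empty, pow_zero]
          linarith
        · rw [if_neg h2, if_neg h2, mul_one, add_zero]
      refine (sum_le_sum e1).trans ?_
      rw [sum_add_distrib, sum_powerset_pow, hNv v hv, sum_ite_eq', if_pos (empty_mem_powerset _)]
      have hv' := hv
      rw [hL, mem_filter] at hv'
      have h3 := hrow v hv'.1 hv'.2
      have h4 : (1 + lam) ^ dg adj S v ≤ (1 + lam) ^ (dg adj S v + (q - D)) :=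
        pow_le_pow_right₀ (by linarith) (by omega)
      have h5 : (1 + lam) ^ q ≤ (1 + lam) ^ (dg adj S v + (q - D)) :=
        pow_le_pow_right₀ (by linarith) (by omega)
      linarith
    have hsumR : ∀ u k, ∑ B ∈ (N adj R (Sum.inr ⟨u, k⟩)).powerset,
        Φ adj R q lam (Sum.inr ⟨u, k⟩) B = 1 + lam := by
      intro u k
      change ∑ B ∈ ({u} : Finset ℕ).powerset, ((if u ∈ B then lam else 1) : ℝ) = _
      rw [← insert_empty_eq u, sum_powerset_insert (notMem_empty u)]
      simp
    have hnn : ∀ v ∈ V L R (fun u => q - dg adj S u),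
        0 ≤ ∑ B ∈ (N adj R v).powerset, Φ adj R q lam v B := by
      intro v _
      refine sum_nonneg fun B _ => ?_
      rcases v with v | x
      · change 0 ≤ lam ^ (B ∩ R.filter (fun u => adj v u = true)).card *
          (if B ∩ R.filter (fun u => adj v u = true) = ∅ then (1 + lam) ^ q else 1)
        refine mul_nonneg (by positivity) ?_
        split_ifs
        · positivity
        · exact zero_le_one
      · change (0 : ℝ) ≤ (if x.1 ∈ B then lam else 1)
        split_ifs
        · exact h0
        · exact zero_le_one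
    have hdegs : ∑ v ∈ L, dg adj S v = ∑ u ∈ R, dg adj S u := by
      rw [← hdc R (Finset.Subset.refl _)]
      refine sum_congr rfl fun v hv => ?_
      rw [Finset.inter_eq_right.mpr (filter_subset _ _), hNv v hv]
    refine le_of_pow_le_pow_left₀ (n := q) (by omega) (by positivity) ?_
    rw [← prod_pow]
    have e6 : ∀ v ∈ V L R (fun u => q - dg adj S u),
        ((∑ B ∈ (N adj R v).powerset, Φ adj R q lam v B) ^ ((1 : ℝ) / q)) ^ q =
          ∑ B ∈ (N adj R v).powerset, Φ adj R q lam v B := by
      intro v hv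
      rw [one_div, Real.rpow_inv_natCast_pow (hnn v hv) (by omega)]
    rw [prod_congr rfl e6, prod_V]
    have hl1 : (1 : ℝ) ≤ 1 + lam := by linarith
    have hb1 : ∏ v ∈ L, ∑ B ∈ (N adj R (Sum.inl v)).powerset, Φ adj R q lam (Sum.inl v) B ≤
        2 ^ L.card * (1 + lam) ^ (∑ v ∈ L, dg adj S v + L.card * (q - D)) := by
      refine (prod_le_prod (fun v hv => hnn (Sum.inl v) ?_) hsumL).trans (le_of_eq ?_)
      · unfold V
        simpa using hv
      · rw [prod_mul_distrib, prod_const, prod_pow_eq_pow_sum, sum_add_distrib, sum_const,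
          smul_eq_mul]
    have hb2 : ∏ u ∈ R, ∏ k ∈ range (q - dg adj S u),
        ∑ B ∈ (N adj R (Sum.inr ⟨u, k⟩)).powerset, Φ adj R q lam (Sum.inr ⟨u, k⟩) B =
        (1 + lam) ^ (∑ u ∈ R, (q - dg adj S u)) := by
      rw [← prod_pow_eq_pow_sum]
      refine prod_congr rfl fun u _ => ?_
      rw [prod_congr rfl (fun k _ => hsumR u k), prod_const, card_range]
    rw [hb2]
    have e7 : ∑ u ∈ R, dg adj S u + ∑ u ∈ R, (q - dg adj S u) = q * R.card := by
      rw [← sum_add_distrib, sum_congr rfl (g := fun _ => q), sum_const, smul_eq_mul, mul_comm]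
      intro u hu
      have hu' := hu
      rw [hR, mem_filter] at hu'
      have := hcol u hu'.1 hu'.2
      omega
    calc (∏ v ∈ L, ∑ B ∈ (N adj R (Sum.inl v)).powerset, Φ adj R q lam (Sum.inl v) B) *
          (1 + lam) ^ (∑ u ∈ R, (q - dg adj S u))
        ≤ 2 ^ L.card * (1 + lam) ^ (∑ v ∈ L, dg adj S v + L.card * (q - D)) *
          (1 + lam) ^ (∑ u ∈ R, (q - dg adj S u)) :=
          mul_le_mul_of_nonneg_right hb1 (by positivity)
      _ = 2 ^ L.card * (1 + lam) ^ (L.card * (q - D)) * (1 + lam) ^ (q * R.card) := by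
          rw [← e7, hdegs, pow_add, pow_add]
          ring
      _ ≤ 2 ^ L.card * 2 ^ (L.card * (q - D)) * (1 + lam) ^ (q * R.card) := by
          have : (1 + lam) ^ (L.card * (q - D)) ≤ 2 ^ (L.card * (q - D)) :=
            pow_le_pow_left₀ (by linarith) (by linarith) _
          gcongr
      _ = 2 ^ (L.card * (1 + (q - D))) * (1 + lam) ^ (q * R.card) := by
          rw [← pow_add]
          congr 2
          ring
      _ ≤ 2 ^ (q * H) * (1 + lam) ^ (q * R.card) := by
          have : (2 : ℝ) ^ (L.card * (1 + (q - D))) ≤ 2 ^ (q * H) :=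
            pow_le_pow_right₀ (by norm_num) hH
          gcongr
      _ = (2 ^ H * (1 + lam) ^ R.card) ^ q := by
          rw [mul_pow, ← pow_mul, ← pow_mul, mul_comm H q, mul_comm R.card q]
  · -- the sets
    intro v hv
    rcases v with v | x
    · exact filter_subset _ _
    · change ({x.1} : Finset ℕ) ⊆ R
      unfold V at hv
      rw [inr_mem_disjSum, mem_sigma] at hv
      exact singleton_subset_iff.mpr hv.1
  · intro v _ B _
    rcases v with v | x
    · change 0 ≤ lam ^ (B ∩ R.filter (fun u => adj v u = true)).card *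
        (if B ∩ R.filter (fun u => adj v u = true) = ∅ then (1 + lam) ^ q else 1)
      refine mul_nonneg (by positivity) ?_
      split_ifs
      · positivity
      · exact zero_le_one
    · change (0 : ℝ) ≤ (if x.1 ∈ B then lam else 1)
      split_ifs
      · exact h0
      · exact zero_le_one
  · intro v _ B _
    rcases v with v | x
    · change lam ^ (B ∩ R.filter (fun u => adj v u = true)).card *
        (if B ∩ R.filter (fun u => adj v u = true) = ∅ then (1 + lam) ^ q else 1) =
        lam ^ ((B ∩ R.filter (fun u => adj v u = true)) ∩ R.filter (fun u => adj v u = true)).card *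
        (if (B ∩ R.filter (fun u => adj v u = true)) ∩ R.filter (fun u => adj v u = true) = ∅
          then (1 + lam) ^ q else 1)
      rw [Finset.inter_assoc, Finset.inter_self]
    · change ((if x.1 ∈ B then lam else 1) : ℝ) = (if x.1 ∈ B ∩ {x.1} then lam else 1)
      simp
  · intro u hu
    rw [card_filter, sum_V]
    have e8 : ∑ v ∈ L, (if u ∈ N adj R (Sum.inl v) then 1 else 0) = dg adj S u := by
      rw [← hNu u hu, card_filter]
      rfl
    have e9 : ∑ u' ∈ R, ∑ k ∈ range (q - dg adj S u'),
        (if u ∈ N adj R (Sum.inr ⟨u', k⟩) then 1 else 0) = q - dg adj S u := by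
      have e10 : ∀ u' ∈ R, ∑ k ∈ range (q - dg adj S u'),
          (if u ∈ N adj R (Sum.inr ⟨u', k⟩) then 1 else 0) =
            if u = u' then q - dg adj S u' else 0 := by
        intro u' _
        change ∑ _k ∈ range (q - dg adj S u'), (if u ∈ ({u'} : Finset ℕ) then 1 else 0) = _
        rw [sum_const, card_range, smul_eq_mul]
        by_cases h2 : u = u'
        · simp [h2]
        · simp [h2]
      rw [sum_congr rfl e10, sum_ite_eq, if_pos hu]
    rw [e8, e9]
    have hu' := hu
    rw [hR, mem_filter] at hu'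
    have := hcol u hu'.1 hu'.2
    omega

end Pool.Agent.Lib.Pa7c826t
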