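import Pool.Agent.Lib.Pa7c826t.Tree
import Pool.Agent.Lib.Pa7c826t.Nu
import Pool.Agent.Lib.Pa7c826t.RootBound
import Pool.Agent.Lib.Pa7c826t.LeafBound
import Pool.Agent.Lib.Pa7c826t.CovMatch

/-!
Alive nodes, the output of the algorithm and the conditions on the host graph.
-/

namespace Pool.Agent.Lib.Pa7c826t

open Finset Pool.Agent.Lib.Pa7c826

/-- `S` is alive: `2 ^ (α(S₀) - α(S)) ≤ K` for the independence numbers `α(S) = |S| - nu S` -/
def alive (n a : ℕ) (adj : ℕ → ℕ → Bool) (S₀ : Finset ℕ) (K : ℕ) (S : Finset ℕ) : Bool :=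
  decide (1 ≤ K / 2 ^ ((nu n a adj S + S₀.card) - (nu n a adj S₀ + S.card)))

/-- the output of the algorithm -/
def outA (n a g : ℕ) (adj : ℕ → ℕ → Bool) (S₀ : Finset ℕ) (K K' : ℕ) : ℕ :=
  ((plv n S₀.card g adj (alive n a adj S₀ K) S₀ n).map (leaf n adj K')).sum

/-- The host graph: all degrees on the side `p` are at least `D`, all degrees on the other side
at most `q`, and `g ≥ 2 |S₀| / q`, `H ≥ |p-side| (1 + q - D) / q`. -/
structure Host (n g : ℕ) (adj : ℕ → ℕ → Bool) (p : ℕ → Prop) [DecidablePred p] (S₀ : Finset ℕ)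
    (D q H : ℕ) : Prop where
  sub : S₀ ⊆ range n
  pos : 0 < S₀.card
  hq : 1 ≤ q
  hDq : D ≤ q
  hrow : ∀ v ∈ S₀, p v → D ≤ dg adj S₀ v
  hcol : ∀ u ∈ S₀, ¬ p u → dg adj S₀ u ≤ q
  hH : (S₀.filter (fun v => p v)).card * (1 + (q - D)) ≤ q * H
  hg : 2 * S₀.card ≤ g * q

end Pool.Agent.Lib.Pa7c826t
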