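import Pool.Agent.Lib.Pa7c826t.CodeL

/-!
Sums over coded lists of finsets.
-/

namespace Pool.Agent.Lib.Pa7c826t

open Pool.Agent.Lib.PolyTime Pool.Agent.Lib.Pa7c826 Finset

theorem nodeAt_subset (n : ℕ) (c : List Bool) (i : ℕ) : nodeAt n c i ⊆ range n :=
  filter_subset _ _

/-- reading a node is polynomial time -/
theorem poly_nodeAtN {α : Type*} {D : α → Prop} {ctx : List (α → List Bool)} {n i : α → ℕ}
    {c : α → List Bool} (hn : PolyN D ctx n) (hc : PolyC D ctx c) (hi : PolyN D ctx i) :
    PolyS D ctx n (fun x => nodeAt (n x) (c x) (i x)) := by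
  have C := up (n := n) hc
  have N := upN (n := n) hn
  have I := upN (n := n) hi
  have L := last (D := D) (ctx := ctx) (n := n)
  exact PolyS.filter (φ := fun p : α × ℕ =>
    (c p.1).getD (i p.1 * (n p.1 + 1) + (p.2 + 1)) false) hn (PolyS.range hn)
    (PolyB.getD C ((I.mul N.succ).add L.succ))

theorem sum_map_eq_sum_range {β : Type*} (l : List β) (f : β → ℕ) (g : ℕ → ℕ)
    (h : ∀ i (hi : i < l.length), g i = f l[i]) :
    (l.map f).sum = ∑ i ∈ range l.length, g i := by
  induction l generalizing g with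
  | nil => simp
  | cons a l ih =>
    rw [List.map_cons, List.sum_cons, List.length_cons, Finset.sum_range_succ',
      ih (fun i => g (i + 1)) (fun i hi => by
        rw [h (i + 1) (by simpa using hi)]
        simp)]
    rw [h 0 (by simp)]
    simp [add_comm]

/-- Sums over coded lists of finsets. -/
theorem poly_sum_codeL {F : List Bool → Finset ℕ → ℕ} (hF : UPolyF F) {α : Type} {D : α → Prop}
    {ctx : List (α → List Bool)} {w : α → List Bool} (hw : PolyC D ctx w)
    {l : α → List (Finset ℕ)} (hl : PolyC D ctx (fun x => codeL (nOf (w x)) (l x)))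
    (hsub : ∀ x, D x → ∀ S ∈ l x, S ⊆ range (nOf (w x))) :
    PolyBin D ctx (fun x => ((l x).map (F (w x))).sum) := by
  have hlen := PolyN.length hl
  have W := up (n := fun x => (codeL (nOf (w x)) (l x)).length) hw
  have C := up (n := fun x => (codeL (nOf (w x)) (l x)).length) hl
  have L := last (D := D) (ctx := ctx) (n := fun x => (codeL (nOf (w x)) (l x)).length)
  have N := poly_nOf W
  have hS := poly_nodeAtN N C L
  have hG : PolyB (fun p : α × ℕ => D p.1 ∧ p.2 < (codeL (nOf (w p.1)) (l p.1)).length)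
      (PolyTime.lift ctx ++ [fun p => un p.2])
      (fun p : α × ℕ => (codeL (nOf (w p.1)) (l p.1)).getD (p.2 * (nOf (w p.1) + 1)) false) :=
    PolyB.getD C (L.mul N.succ)
  have hT := hF W hS
  have key := PolyBin.sum_range (f := fun p : α × ℕ =>
    if (codeL (nOf (w p.1)) (l p.1)).getD (p.2 * (nOf (w p.1) + 1)) false then
      F (w p.1) (nodeAt (nOf (w p.1)) (codeL (nOf (w p.1)) (l p.1)) p.2) else 0) hlen
    (PolyBin.ite hG (hT.mono fun _ h => h.1) PolyBin.zero)
  refine key.congr (fun x hx => ?_)
  simp only [guard_codeL, decide_eq_true_eq]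
  have hle : (l x).length ≤ (codeL (nOf (w x)) (l x)).length := by
    rw [length_codeL]
    exact Nat.le_mul_of_pos_right _ (by omega)
  rw [← Finset.sum_subset (Finset.range_mono hle)]
  · refine (sum_map_eq_sum_range (l x) (F (w x)) _ (fun i hi => ?_)).symm
    rw [if_pos hi, nodeAt_codeL (hsub x hx) hi]
  · intro i _ hi
    rw [mem_range, not_lt] at hi
    rw [if_neg (by omega)]

end Pool.Agent.Lib.Pa7c826t
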