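import Pool.Agent.Lib.Pa7c826t.CodeL

/-!
The pruned tree is computable in polynomial time if its levels have polynomial size.

PROOF. `PolyC.natRec` (PolyTime/Comb.lean) with state `codeL n (plv … j)`. Length bound:
`length_codeL` and `hlen` (polynomials bounding `B` and `n` from `PolyC.length_le`). Step: for a code
`c` of the list `l`, the code of `(l.flatMap kids).filter al` is the `flatMap` over
`i < c.length` (`PolyC.flatMap_range`) of: `[]` if `c.getD (i * (n + 1)) false` is false
(`guard_codeL`), otherwise, with `S = nodeAt n c i` (computable as a mask: `PolyC.map_range` or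
`PolyS`-style), `codeL n ((kids S).filter al)`, where `kids S = [outT S, inT S]` or `[S]`
according to `anyH` (`PolyC.ite`, `PolyC.cons`, `PolyC.append`). First prove the closure lemmas
`PolyB`/`PolyS` for `hvy`, `chs`, `anyH`, `outT`, `inT` exactly as `poly_heavy`, `poly_chosen`,
`poly_anyHeavy`, `poly_outS`, `poly_inS` in `Pool/Agent/Lib/Pa7c826/AlgoPoly.lean` (there the
numerator is `n` and `g` is constant; here `m`, `g` are `PolyN`). The index `i` runs over
`i < c.length`, `l.length ≤ c.length`, and the extra indices give `[]`.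
-/

namespace Pool.Agent.Lib.Pa7c826t

open Pool.Agent.Lib.PolyTime Pool.Agent.Lib.Pa7c826 Finset

section

variable {α : Type*} {D : α → Prop} {ctx : List (α → List Bool)} {w : α → List Bool}
  {S : α → Finset ℕ} {v m g : α → ℕ}

theorem poly_hvy (hm : PolyN D ctx m) (hg : PolyN D ctx g) (hw : PolyC D ctx w)
    (hS : PolyS D ctx (fun a => nOf (w a)) S) (hv : PolyN D ctx v) :
    PolyB D ctx (fun a => hvy (m a) (g a) (adjOf (w a)) (S a) (v a)) :=
  (hS.mem hv).and (PolyB.le hm (hg.mul (poly_dg hw hS hv)))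

theorem poly_chs (hm : PolyN D ctx m) (hg : PolyN D ctx g) (hw : PolyC D ctx w)
    (hS : PolyS D ctx (fun a => nOf (w a)) S) (hv : PolyN D ctx v) :
    PolyB D ctx (fun a => chs (m a) (g a) (adjOf (w a)) (S a) (v a)) := by
  have W := up (n := v) hw
  have M := upN (n := v) hm
  have G := upN (n := v) hg
  have SS := hS.up (m := v)
  have L := last (D := D) (ctx := ctx) (n := v)
  exact (poly_hvy hm hg hw hS hv).and (PolyB.exists_lt
    (φ := fun p : α × ℕ => hvy (m p.1) (g p.1) (adjOf (w p.1)) (S p.1) p.2) hv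
    (poly_hvy M G W SS L)).not

theorem poly_anyH (hm : PolyN D ctx m) (hg : PolyN D ctx g) (hw : PolyC D ctx w)
    (hS : PolyS D ctx (fun a => nOf (w a)) S) :
    PolyB D ctx (fun a => anyH (nOf (w a)) (m a) (g a) (adjOf (w a)) (S a)) := by
  have W := up (n := fun a => nOf (w a)) hw
  have M := upN (n := fun a => nOf (w a)) hm
  have G := upN (n := fun a => nOf (w a)) hg
  have SS := hS.up (m := fun a => nOf (w a))
  have L := last (D := D) (ctx := ctx) (n := fun a => nOf (w a))
  exact PolyB.exists_lt (φ := fun p : α × ℕ => hvy (m p.1) (g p.1) (adjOf (w p.1)) (S p.1) p.2)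
    (poly_nOf hw) (poly_hvy M G W SS L)

theorem poly_outT (hm : PolyN D ctx m) (hg : PolyN D ctx g) (hw : PolyC D ctx w)
    (hS : PolyS D ctx (fun a => nOf (w a)) S) :
    PolyS D ctx (fun a => nOf (w a)) (fun a => outT (m a) (g a) (adjOf (w a)) (S a)) := by
  have W := up (n := fun a => nOf (w a)) hw
  have M := upN (n := fun a => nOf (w a)) hm
  have G := upN (n := fun a => nOf (w a)) hg
  have SS := hS.up (m := fun a => nOf (w a))
  have L := last (D := D) (ctx := ctx) (n := fun a => nOf (w a))
  have C := poly_chs M G W SS L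
  exact PolyS.filter (φ := fun p : α × ℕ =>
    !chs (m p.1) (g p.1) (adjOf (w p.1)) (S p.1) p.2) (poly_nOf hw) hS C.not

theorem poly_inT (hm : PolyN D ctx m) (hg : PolyN D ctx g) (hw : PolyC D ctx w)
    (hS : PolyS D ctx (fun a => nOf (w a)) S) :
    PolyS D ctx (fun a => nOf (w a))
      (fun a => inT (nOf (w a)) (m a) (g a) (adjOf (w a)) (S a)) := by
  have W := up (n := fun a => nOf (w a)) hw
  have M := upN (n := fun a => nOf (w a)) hm
  have G := upN (n := fun a => nOf (w a)) hg
  have SS := hS.up (m := fun a => nOf (w a))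
  have L := last (D := D) (ctx := ctx) (n := fun a => nOf (w a))
  have W2 := up (n := fun p : α × ℕ => nOf (w p.1)) W
  have M2 := upN (n := fun p : α × ℕ => nOf (w p.1)) M
  have G2 := upN (n := fun p : α × ℕ => nOf (w p.1)) G
  have SS2 := SS.up (m := fun p : α × ℕ => nOf (w p.1))
  have L1 := upN (n := fun p : α × ℕ => nOf (w p.1)) L
  have L2 := last (D := fun p : α × ℕ => D p.1 ∧ p.2 < nOf (w p.1))
    (ctx := PolyTime.lift ctx ++ [fun p : α × ℕ => un p.2])
    (n := fun p : α × ℕ => nOf (w p.1))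
  have C := poly_chs M G W SS L
  have C2 := poly_chs M2 G2 W2 SS2 L2
  have A2 := poly_adj W2 L2 L1
  refine PolyS.filter (φ := fun p : α × ℕ =>
    (!chs (m p.1) (g p.1) (adjOf (w p.1)) (S p.1) p.2 &&
    !decide (∃ v < nOf (w p.1), (chs (m p.1) (g p.1) (adjOf (w p.1)) (S p.1) v &&
      adjOf (w p.1) v p.2) = true))) (poly_nOf hw) hS ?_
  refine C.not.and (PolyB.not ?_)
  exact PolyB.exists_lt (φ := fun q : (α × ℕ) × ℕ =>
    (chs (m q.1.1) (g q.1.1) (adjOf (w q.1.1)) (S q.1.1) q.2 && adjOf (w q.1.1) q.2 q.1.2))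
    (poly_nOf W) (C2.and A2)

/-- a node read off a code -/
theorem poly_nodeAt {c : α → List Bool} {i : α → ℕ} (hw : PolyC D ctx w)
    (hc : PolyC D ctx c) (hi : PolyN D ctx i) :
    PolyS D ctx (fun a => nOf (w a)) (fun a => nodeAt (nOf (w a)) (c a) (i a)) := by
  have W := up (n := fun a => nOf (w a)) hw
  have C := up (n := fun a => nOf (w a)) hc
  have I := upN (n := fun a => nOf (w a)) hi
  have L := last (D := D) (ctx := ctx) (n := fun a => nOf (w a))
  exact PolyS.filter (φ := fun p : α × ℕ =>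
    (c p.1).getD (i p.1 * (nOf (w p.1) + 1) + (p.2 + 1)) false)
    (poly_nOf hw) (PolyS.range (poly_nOf hw))
    (PolyB.getD C ((I.mul (poly_nOf W).succ).add L.succ))

end

/-- the code of a node that is kept -/
def one (n : ℕ) (al : Finset ℕ → Bool) (T : Finset ℕ) : List Bool :=
  if al T then true :: msk n T else []

theorem codeL_kids (n m g : ℕ) (adj : ℕ → ℕ → Bool) (al : Finset ℕ → Bool) (S : Finset ℕ) :
    codeL n ((kids n m g adj S).filter al) =
      if anyH n m g adj S then one n al (outT m g adj S) ++ one n al (inT n m g adj S)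
      else one n al S := by
  unfold kids one codeL
  by_cases h : anyH n m g adj S = true
  · rw [if_pos h, if_pos h]
    by_cases h1 : al (outT m g adj S) = true <;> by_cases h2 : al (inT n m g adj S) = true <;>
      simp [h1, h2]
  · rw [if_neg h, if_neg h]
    by_cases h1 : al S = true <;> simp [h1]

section

variable {α : Type} {D : α → Prop} {ctx : List (α → List Bool)} {w : α → List Bool}

theorem poly_one {al : List Bool → Finset ℕ → Bool} (hal : UPolyA al) (hw : PolyC D ctx w)
    {T : α → Finset ℕ} (hT : PolyS D ctx (fun a => nOf (w a)) T) :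
    PolyC D ctx (fun a => one (nOf (w a)) (al (w a)) (T a)) :=
  PolyC.ite (φ := fun a => al (w a) (T a)) (t := fun a => true :: msk (nOf (w a)) (T a))
    (u := fun _ => []) (hal hw hT) ((PolyC.cons true hT.1).mono fun _ h => h.1) PolyC.nil

theorem poly_codeKids {m g : List Bool → ℕ} {al : List Bool → Finset ℕ → Bool}
    (hm : UPoly m) (hg : UPoly g) (hal : UPolyA al) (hw : PolyC D ctx w)
    {S : α → Finset ℕ} (hS : PolyS D ctx (fun a => nOf (w a)) S) :
    PolyC D ctx (fun a => codeL (nOf (w a))
      ((kids (nOf (w a)) (m (w a)) (g (w a)) (adjOf (w a)) (S a)).filter (al (w a)))) := by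
  have M := hm hw
  have G := hg hw
  have h1 := poly_anyH M G hw hS
  have h2 := (poly_one hal hw (poly_outT M G hw hS)).append
    (poly_one hal hw (poly_inT M G hw hS))
  have h3 := poly_one hal hw hS
  exact (PolyC.ite h1 (h2.mono fun _ h => h.1) (h3.mono fun _ h => h.1)).congr
    (fun a _ => (codeL_kids _ _ _ _ _ _).symm)

theorem poly_block {m g : List Bool → ℕ} {al : List Bool → Finset ℕ → Bool}
    (hm : UPoly m) (hg : UPoly g) (hal : UPolyA al) (hw : PolyC D ctx w)
    {c : α → List Bool} {i : α → ℕ} (hc : PolyC D ctx c) (hi : PolyN D ctx i) :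
    PolyC D ctx (fun a => if (c a).getD (i a * (nOf (w a) + 1)) false then
      codeL (nOf (w a)) ((kids (nOf (w a)) (m (w a)) (g (w a)) (adjOf (w a))
        (nodeAt (nOf (w a)) (c a) (i a))).filter (al (w a))) else []) :=
  PolyC.ite (φ := fun a => (c a).getD (i a * (nOf (w a) + 1)) false)
    (PolyB.getD hc (hi.mul (poly_nOf hw).succ))
    ((poly_codeKids hm hg hal hw (poly_nodeAt hw hc hi)).mono fun _ h => h.1) PolyC.nil

end

theorem flatMap_range_take {β : Type*} (l : List β) (G : β → List Bool) (H : ℕ → List Bool)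
    (h1 : ∀ i (hi : i < l.length), H i = G l[i]) (h2 : ∀ i, l.length ≤ i → H i = []) (N : ℕ) :
    (List.range N).flatMap H = (l.take N).flatMap G := by
  induction N with
  | zero => simp
  | succ N ih =>
    rw [List.range_succ, List.flatMap_append, ih, List.take_add_one, List.flatMap_append]
    congr 1
    rcases lt_or_ge N l.length with h | h
    · simp [h1 N h, List.getElem?_eq_getElem h]
    · simp [h2 N h, List.getElem?_eq_none h]

theorem codeL_step {n m g : ℕ} {adj : ℕ → ℕ → Bool} {al : Finset ℕ → Bool}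
    {l : List (Finset ℕ)} (hl : ∀ S ∈ l, S ⊆ range n) :
    (List.range (codeL n l).length).flatMap (fun i =>
      if (codeL n l).getD (i * (n + 1)) false then
        codeL n ((kids n m g adj (nodeAt n (codeL n l) i)).filter al) else []) =
      codeL n ((l.flatMap (kids n m g adj)).filter al) := by
  rw [flatMap_range_take l (fun S => codeL n ((kids n m g adj S).filter al))]
  · rw [List.take_of_length_le (by
      rw [length_codeL]; exact Nat.le_mul_of_pos_right _ (Nat.succ_pos n))]
    unfold codeL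
    rw [List.filter_flatMap, List.flatMap_assoc]
  · intro i hi
    rw [guard_codeL, nodeAt_codeL hl hi]
    simp [hi]
  · intro i hi
    rw [guard_codeL]
    simp [Nat.not_lt.2 hi]

theorem plv_subset {n m g : ℕ} {adj : ℕ → ℕ → Bool} {al : Finset ℕ → Bool} {S₀ : Finset ℕ}
    (j : ℕ) : ∀ T ∈ plv n m g adj al S₀ j, T ⊆ S₀ := by
  induction j with
  | zero =>
    intro T hT
    simp only [plv, List.mem_cons, List.not_mem_nil, or_false] at hT
    rw [hT]
  | succ j ih =>
    intro T hT
    simp only [plv, List.mem_filter, List.mem_flatMap] at hT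
    obtain ⟨⟨S, hS, hTS⟩, -⟩ := hT
    exact (kids_subset hTS).trans (ih S hS)

/-- The levels of the pruned tree. -/
theorem poly_plv {m g : List Bool → ℕ} {al : List Bool → Finset ℕ → Bool}
    {S₀ : List Bool → Finset ℕ} (hm : UPoly m) (hg : UPoly g) (hal : UPolyA al)
    (hS : UPolyS S₀) {α : Type} {D : α → Prop} {ctx : List (α → List Bool)}
    {w : α → List Bool} (hw : PolyC D ctx w) {k B : α → ℕ} (hk : PolyN D ctx k)
    (hB : PolyN D ctx B) (hlen : ∀ x, D x → ∀ j, j ≤ k x →
      (plv (nOf (w x)) (m (w x)) (g (w x)) (adjOf (w x)) (al (w x)) (S₀ (w x)) j).length ≤ B x) :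
    PolyC D ctx (fun x => codeL (nOf (w x))
      (plv (nOf (w x)) (m (w x)) (g (w x)) (adjOf (w x)) (al (w x)) (S₀ (w x)) (k x))) := by
  obtain ⟨pB, hpB⟩ := PolyC.length_le hB
  obtain ⟨pn, hpn⟩ := PolyC.length_le (poly_nOf hw)
  refine PolyC.natRec (fun x j => codeL (nOf (w x))
      (plv (nOf (w x)) (m (w x)) (g (w x)) (adjOf (w x)) (al (w x)) (S₀ (w x)) j)) hk ?_ ?_
    ⟨pB * (pn + 1), fun x hx j hj => ?_⟩
  · exact (PolyC.cons true (hS hw).1).congr (fun x _ => by simp [codeL, plv])
  · have W := up2 (n := k) (u := fun p : α × ℕ => codeL (nOf (w p.1))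
      (plv (nOf (w p.1)) (m (w p.1)) (g (w p.1)) (adjOf (w p.1)) (al (w p.1)) (S₀ (w p.1))
        p.2)) hw
    have C : PolyC (fun p : α × ℕ => D p.1 ∧ p.2 < k p.1)
        (PolyTime.lift ctx ++ [fun p => un p.2, fun p => codeL (nOf (w p.1))
          (plv (nOf (w p.1)) (m (w p.1)) (g (w p.1)) (adjOf (w p.1)) (al (w p.1))
            (S₀ (w p.1)) p.2)])
        (fun p => codeL (nOf (w p.1))
          (plv (nOf (w p.1)) (m (w p.1)) (g (w p.1)) (adjOf (w p.1)) (al (w p.1))
            (S₀ (w p.1)) p.2)) := PolyC.var (by simp)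
    have N := PolyN.length C
    have W' := up (n := fun p : α × ℕ => (codeL (nOf (w p.1))
      (plv (nOf (w p.1)) (m (w p.1)) (g (w p.1)) (adjOf (w p.1)) (al (w p.1)) (S₀ (w p.1))
        p.2)).length) W
    have C' := up (n := fun p : α × ℕ => (codeL (nOf (w p.1))
      (plv (nOf (w p.1)) (m (w p.1)) (g (w p.1)) (adjOf (w p.1)) (al (w p.1)) (S₀ (w p.1))
        p.2)).length) C
    refine (PolyC.flatMap_range N (poly_block (i := fun q : (α × ℕ) × ℕ => q.2) hm hg hal
      W' C' (PolyC.var (by simp)))).congr ?_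
    rintro ⟨x, j⟩ ⟨hx, -⟩
    have hl : ∀ T ∈ plv (nOf (w x)) (m (w x)) (g (w x)) (adjOf (w x)) (al (w x)) (S₀ (w x)) j,
        T ⊆ range (nOf (w x)) := fun T hT => (plv_subset j T hT).trans ((hS hw).2 x hx)
    exact codeL_step (n := nOf (w x)) (m := m (w x)) (g := g (w x)) (adj := adjOf (w x))
      (al := al (w x)) hl
  · have h1 := hpB x hx
    have h2 := hpn x hx
    rw [un_length] at h1 h2
    rw [length_codeL]
    simp only [Polynomial.eval_mul, Polynomial.eval_add, Polynomial.eval_one]
    exact Nat.mul_le_mul ((hlen x hx j hj).trans h1) (Nat.succ_le_succ h2)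

end Pool.Agent.Lib.Pa7c826t
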