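import Pool.Agent.Lib.Pa7c826t.AuctPoly
import Pool.Agent.Lib.Pa7c826t.TreePoly
import Pool.Agent.Lib.Pa7c826t.SumPoly
import Pool.Agent.Lib.Pa7c826t.ApproxDef
import Pool.Agent.Lib.Pa7c826.Fptas

/-!
The algorithm as a function of the input string, and its running time.
-/

namespace Pool.Agent.Lib.Pa7c826t

open Pool.Agent.Lib.PolyTime Pool.Agent.Lib.Pa7c826 Finset

/-- the non-isolated vertices -/
def nonIso (w : List Bool) : Finset ℕ :=
  (range (nOf w)).filter (fun v => decide (∃ u < nOf w, adjOf w v u = true) = true)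

/-- the branching threshold is `|S₀| / gw` -/
def gw (C : ℕ) (w : List Bool) : ℕ := 2 * C * Nat.log 2 (nOf w)

/-- precision -/
def Yw (C : ℕ) (w : List Bool) : ℕ := tOf w * (nOf w + 1) ^ (13 * C)

/-- leaf threshold -/
def Kw (C : ℕ) (w : List Bool) : ℕ := ((nOf w + 1) ^ C * Yw C w ^ 24) ^ 24

/-- the output of the algorithm -/
def algT (C : ℕ) (w : List Bool) : ℕ :=
  2 ^ (nOf w - (nonIso w).card) *
    outA (nOf w) (aOf w) (gw C w) (adjOf w) (nonIso w) (Yw C w ^ 24) (Kw C w)

theorem log_eq_card (n : ℕ) :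
    ((range n).filter (fun i => decide (1 ≤ n / 2 ^ (i + 1)) = true)).card = Nat.log 2 n := by
  rcases Nat.eq_zero_or_pos n with rfl | hn
  · simp
  have h1 : (range n).filter (fun i => decide (1 ≤ n / 2 ^ (i + 1)) = true) =
      range (Nat.log 2 n) := by
    ext i
    simp only [mem_filter, mem_range, decide_eq_true_eq]
    rw [Nat.one_le_div_iff (by positivity)]
    constructor
    · rintro ⟨_, h⟩
      have := (Nat.le_log_iff_pow_le (by norm_num) (by omega)).2 h
      omega
    · intro h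
      have h2 : 2 ^ (i + 1) ≤ n := (Nat.le_log_iff_pow_le (by norm_num) (by omega)).1 (by omega)
      have h3 : i + 1 < 2 ^ (i + 1) := Nat.lt_two_pow_self
      exact ⟨by omega, h2⟩
  rw [h1, card_range]

theorem upoly_log : UPoly (fun w => Nat.log 2 (nOf w)) := by
  intro β D' ctx' w' hw
  have W := up (n := fun b => nOf (w' b)) hw
  have L := last (D := D') (ctx := ctx') (n := fun b => nOf (w' b))
  refine (PolyN.count (φ := fun p : β × ℕ => decide (1 ≤ nOf (w' p.1) / 2 ^ (p.2 + 1)))
    (poly_nOf hw) (PolyB.le (PolyN.const 1) (PolyN.divPow (poly_nOf W) L.succ))).congr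
    (fun b _ => log_eq_card _)

theorem upoly_gw (C : ℕ) : UPoly (gw C) := by
  intro β D' ctx' w' hw
  exact (PolyN.const (2 * C)).mul (upoly_log hw)

theorem upoly_Yw (C : ℕ) : UPoly (Yw C) := by
  intro β D' ctx' w' hw
  exact (poly_tOf hw).mul (PolyN.pow (poly_nOf hw).succ _)

theorem upoly_Kw (C : ℕ) : UPoly (Kw C) := by
  intro β D' ctx' w' hw
  exact PolyN.pow ((PolyN.pow (poly_nOf hw).succ _).mul (PolyN.pow (upoly_Yw C hw) 24)) 24

theorem upolyS_nonIso : UPolyS nonIso := by
  intro β D' ctx' w' hw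
  have W := up (n := fun b => nOf (w' b)) hw
  have L := last (D := D') (ctx := ctx') (n := fun b => nOf (w' b))
  have W2 := up (n := fun p : β × ℕ => nOf (w' p.1)) W
  have L1 := upN (n := fun p : β × ℕ => nOf (w' p.1)) L
  have L2 := last (D := fun p : β × ℕ => D' p.1 ∧ p.2 < nOf (w' p.1))
    (ctx := PolyTime.lift ctx' ++ [fun p : β × ℕ => un p.2])
    (n := fun p : β × ℕ => nOf (w' p.1))
  refine PolyS.filter (φ := fun p : β × ℕ =>
    decide (∃ u < nOf (w' p.1), adjOf (w' p.1) p.2 u = true)) (poly_nOf hw)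
    (PolyS.range (poly_nOf hw)) ?_
  exact PolyB.exists_lt (φ := fun q : (β × ℕ) × ℕ => adjOf (w' q.1.1) q.1.2 q.2) (poly_nOf W)
    (poly_adj W2 L1 L2)

theorem upoly_cardNonIso : UPoly (fun w => (nonIso w).card) := by
  intro β D' ctx' w' hw
  exact PolyS.card (poly_nOf hw) (upolyS_nonIso hw)

theorem upolyA_alive (C : ℕ) :
    UPolyA (fun w => alive (nOf w) (aOf w) (adjOf w) (nonIso w) (Yw C w ^ 24)) := by
  intro β D' ctx' w' S hw hS
  have hn := poly_nOf hw
  have hS0 := upolyS_nonIso hw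
  have e1 := (poly_nu hw hS).add (PolyS.card hn hS0)
  have e2 := (poly_nu hw hS0).add (PolyS.card hn hS)
  exact PolyB.le (PolyN.const 1)
    (PolyN.divPow (PolyN.pow (upoly_Yw C hw) 24) (PolyN.sub e1 e2))

theorem upolyF_leaf (C : ℕ) :
    UPolyF (fun w S => leaf (nOf w) (adjOf w) (Kw C w) S) := by
  intro β D' ctx' w' S hw hS
  exact poly_leaf (upoly_Kw C) hw hS

/-- multiplication by a power of two -/
theorem PolyBin.mulPow2 {α : Type*} {D : α → Prop} {ctx : List (α → List Bool)} {f k : α → ℕ}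
    (hf : PolyBin D ctx f) (hk : PolyN D ctx k) : PolyBin D ctx (fun a => 2 ^ k a * f a) := by
  obtain ⟨t, h1, h2⟩ := hf
  refine ⟨fun a => List.replicate (k a) false ++ t a, (PolyC.replicateFalse hk).append h1,
    fun a ha => ?_⟩
  rw [bval_append, bval_replicate_false, List.length_replicate, h2 a ha, Nat.zero_add]

/-- The algorithm runs in polynomial time on all inputs on which the levels of the tree are
polynomially bounded. -/
theorem algT_poly (C : ℕ) {α : Type} {D : α → Prop} {ctx : List (α → List Bool)}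
    {w : α → List Bool} (hw : PolyC D ctx w) {B : α → ℕ} (hB : PolyN D ctx B)
    (hlen : ∀ x, D x → ∀ j, j ≤ nOf (w x) → (plv (nOf (w x)) (nonIso (w x)).card (gw C (w x))
      (adjOf (w x)) (alive (nOf (w x)) (aOf (w x)) (adjOf (w x)) (nonIso (w x)) (Yw C (w x) ^ 24))
      (nonIso (w x)) j).length ≤ B x) :
    PolyBin D ctx (fun x => algT C (w x)) := by
  have h1 := poly_plv (m := fun w => (nonIso w).card) (g := gw C)
    (al := fun w => alive (nOf w) (aOf w) (adjOf w) (nonIso w) (Yw C w ^ 24)) (S₀ := nonIso)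
    upoly_cardNonIso (upoly_gw C) (upolyA_alive C) upolyS_nonIso hw (poly_nOf hw) hB hlen
  have h2 := poly_sum_codeL (F := fun w S => leaf (nOf w) (adjOf w) (Kw C w) S)
    (upolyF_leaf C) hw h1 (fun x hx S hS =>
    (plv_subset _ S hS).trans (filter_subset _ _))
  exact PolyBin.mulPow2 h2 (PolyN.sub (poly_nOf hw) (upoly_cardNonIso hw))

end Pool.Agent.Lib.Pa7c826t
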