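import Pool.Agent.Lib.Pa7c826t.AlgT

/-!
Almost regular bipartite graphs with isolated vertices satisfy the host conditions.
-/

namespace Pool.Agent.Lib.Pa7c826t

open Pool.Agent.Lib.PolyTime Pool.Agent.Lib.Pa7c826 Finset

/-- number of non-isolated vertices -/
def numNonIso (G : BGraph) : ℕ :=
  (Finset.univ.filter fun i => 0 < G.rowDeg i).card +
    (Finset.univ.filter fun j => 0 < G.colDeg j).card

/-- Bipartite graphs `G` for which there are `D` and `s` such that all nonzero degrees on one side
are at least `D`, all degrees on the other side are at most `D + s`, and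
`n (1 + s) ≤ C D log₂ N`, where `n` is the number of non-isolated vertices and `N` the number of
all vertices. -/
def AlmostRegular (C : ℕ) (G : BGraph) : Prop :=
  ∃ D s : ℕ, numNonIso G * (1 + s) ≤ C * D * Nat.log 2 (G.a + G.b) ∧
    (((∀ i, G.rowDeg i = 0 ∨ D ≤ G.rowDeg i) ∧ ∀ j, G.colDeg j ≤ D + s) ∨
      ((∀ j, G.colDeg j = 0 ∨ D ≤ G.colDeg j) ∧ ∀ i, G.rowDeg i ≤ D + s))

theorem mem_nonIso {G : BGraph} {t v : ℕ} :
    v ∈ nonIso (inCode G t) ↔ v < G.a + G.b ∧ ∃ u < G.a + G.b, adjOf (inCode G t) v u = true := by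
  unfold nonIso
  rw [mem_filter, mem_range, nOf_inCode, decide_eq_true_eq]

theorem lt_of_adjOf {G : BGraph} {t u v : ℕ} (h : adjOf (inCode G t) u v = true) :
    u < G.a + G.b ∧ v < G.a + G.b := by
  have h2 := adjOf_bip h
  rw [aOf_inCode, bOf_inCode] at h2
  omega

theorem mem_nonIso_of_adj {G : BGraph} {t u v : ℕ} (h : adjOf (inCode G t) u v = true) :
    u ∈ nonIso (inCode G t) :=
  mem_nonIso.2 ⟨(lt_of_adjOf h).1, v, (lt_of_adjOf h).2, h⟩

/-- all neighbours are non-isolated -/
theorem dg_nonIso (G : BGraph) (t v : ℕ) :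
    dg (adjOf (inCode G t)) (nonIso (inCode G t)) v =
      dg (adjOf (inCode G t)) (range (G.a + G.b)) v := by
  unfold dg
  congr 1
  ext u
  rw [mem_filter, mem_filter, mem_range]
  constructor
  · rintro ⟨_, h⟩
    exact ⟨(lt_of_adjOf h).2, h⟩
  · rintro ⟨_, h⟩
    exact ⟨mem_nonIso_of_adj (by rw [adjOf_symm]; exact h), h⟩

theorem mem_nonIso_dg {G : BGraph} {t v : ℕ} :
    v ∈ nonIso (inCode G t) ↔ 0 < dg (adjOf (inCode G t)) (range (G.a + G.b)) v := by
  unfold dg
  rw [card_pos]
  constructor
  · intro h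
    obtain ⟨_, u, hu, h2⟩ := mem_nonIso.1 h
    exact ⟨u, mem_filter.2 ⟨mem_range.2 hu, h2⟩⟩
  · rintro ⟨u, hu⟩
    exact mem_nonIso_of_adj (mem_filter.1 hu).2

theorem card_nonIso (G : BGraph) (t : ℕ) : (nonIso (inCode G t)).card = numNonIso G := by
  have e : nonIso (inCode G t) =
      ((Finset.univ.filter fun i => 0 < G.rowDeg i).image (fun i : Fin G.a => (i : ℕ))) ∪
      ((Finset.univ.filter fun j => 0 < G.colDeg j).image (fun j : Fin G.b => G.a + (j : ℕ))) := by
    ext v
    simp only [mem_union, mem_image, mem_filter, mem_univ, true_and]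
    constructor
    · intro h
      have h1 := (mem_nonIso.1 h).1
      have h2 := mem_nonIso_dg.1 h
      rcases lt_or_ge v G.a with h3 | h3
      · left
        refine ⟨⟨v, h3⟩, ?_, rfl⟩
        rw [← dg_row G t]
        exact h2
      · right
        refine ⟨⟨v - G.a, by omega⟩, ?_, by simp only; omega⟩
        rw [← dg_col G t]
        simp only
        rw [show G.a + (v - G.a) = v by omega]
        exact h2
    · rintro (⟨i, hi, rfl⟩ | ⟨j, hj, rfl⟩)
      · rw [mem_nonIso_dg, dg_row]
        exact hi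
      · rw [mem_nonIso_dg, dg_col]
        exact hj
  rw [e, card_union_of_disjoint, card_image_of_injective, card_image_of_injective]
  · rfl
  · intro j j' h
    exact Fin.ext (by simpa using h)
  · intro i i' h
    exact Fin.ext h
  · rw [disjoint_left]
    intro v h1 h2
    obtain ⟨i, _, rfl⟩ := mem_image.1 h1
    obtain ⟨j, _, h⟩ := mem_image.1 h2
    have := i.2
    omega

theorem ind_union_isolated {adj : ℕ → ℕ → Bool} (hs : ∀ u v, adj u v = adj v u)
    (hl : ∀ u, adj u u = false) (S : Finset ℕ) (R : Finset ℕ) :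
    (∀ v ∈ R, ∀ u, adj v u = false) → Disjoint R S →
      ind adj (R ∪ S) = 2 ^ R.card * ind adj S := by
  induction R using Finset.induction_on with
  | empty => simp
  | insert v R hv ih =>
    intro h1 h2
    have h3 : v ∉ R ∪ S := by
      rw [mem_union, not_or]
      exact ⟨hv, disjoint_left.1 h2 (mem_insert_self _ _)⟩
    have h4 := wind_erase hs hl 1 (S := insert v R ∪ S) (v := v)
      (mem_union_left _ (mem_insert_self _ _))
    have h5 : (insert v R ∪ S).erase v = R ∪ S := by
      rw [insert_union, erase_insert h3]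
    have h6 : (R ∪ S).filter (fun u => adj v u = false) = R ∪ S := by
      rw [filter_true_of_mem]
      intro u _
      exact h1 v (mem_insert_self _ _) u
    rw [h5, h6, wind_one, wind_one] at h4
    have h7 : ind adj (insert v R ∪ S) = 2 * ind adj (R ∪ S) := by
      have h8 : (ind adj (insert v R ∪ S) : ℝ) = ((2 * ind adj (R ∪ S) : ℕ) : ℝ) := by
        push_cast
        linarith
      exact_mod_cast h8
    rw [h7, ih (fun w hw => h1 w (mem_insert_of_mem hw))
      (disjoint_of_subset_left (subset_insert _ _) h2), card_insert_of_notMem hv, pow_succ]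
    ring

/-- removing the isolated vertices -/
theorem ind_nonIso (G : BGraph) (t : ℕ) :
    ind (adjOf (inCode G t)) (range (G.a + G.b)) =
      2 ^ (G.a + G.b - (nonIso (inCode G t)).card) *
        ind (adjOf (inCode G t)) (nonIso (inCode G t)) := by
  have hsub : nonIso (inCode G t) ⊆ range (G.a + G.b) :=
    fun v hv => mem_range.2 (mem_nonIso.1 hv).1
  have h := ind_union_isolated (adjOf_symm (inCode G t)) (adjOf_self (inCode G t))
    (nonIso (inCode G t)) (range (G.a + G.b) \ nonIso (inCode G t)) (by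
      intro v hv u
      by_contra h
      rw [Bool.not_eq_false] at h
      exact (mem_sdiff.1 hv).2 (mem_nonIso_of_adj h)) sdiff_disjoint
  rw [sdiff_union_of_subset hsub, card_sdiff_of_subset hsub, card_range] at h
  exact h

/-- The host conditions. -/
theorem host_of_class {C : ℕ} (G : BGraph) (t : ℕ) (hG : AlmostRegular C G)
    (hpos : 0 < (nonIso (inCode G t)).card) :
    ∃ D q, Host (G.a + G.b) (gw C (inCode G t)) (adjOf (inCode G t)) (fun v => v < G.a)
        (nonIso (inCode G t)) D q (C * Nat.log 2 (G.a + G.b)) ∨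
      Host (G.a + G.b) (gw C (inCode G t)) (adjOf (inCode G t)) (fun v => ¬ v < G.a)
        (nonIso (inCode G t)) D q (C * Nat.log 2 (G.a + G.b)) := by
  obtain ⟨D, s, h1, h2⟩ := hG
  refine ⟨D, D + s, ?_⟩
  have hsub : nonIso (inCode G t) ⊆ range (G.a + G.b) :=
    fun v hv => mem_range.2 (mem_nonIso.1 hv).1
  have hn := card_nonIso G t
  have hq : 1 ≤ D + s := by
    by_contra h
    have hD : D = 0 := by omega
    have hs : s = 0 := by omega
    rw [hD, hs, ← hn] at h1
    simp only [Nat.mul_zero, Nat.zero_mul, Nat.add_zero, Nat.mul_one] at h1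
    omega
  have key : numNonIso G * (1 + s) ≤ (D + s) * (C * Nat.log 2 (G.a + G.b)) := by
    refine h1.trans ?_
    rw [show C * D * Nat.log 2 (G.a + G.b) = D * (C * Nat.log 2 (G.a + G.b)) by ring]
    exact Nat.mul_le_mul_right _ (by omega)
  have hg : 2 * (nonIso (inCode G t)).card ≤ gw C (inCode G t) * (D + s) := by
    unfold gw
    rw [nOf_inCode, hn]
    have h3 : numNonIso G ≤ numNonIso G * (1 + s) := Nat.le_mul_of_pos_right _ (by omega)
    have h4 := h3.trans key
    rw [show 2 * C * Nat.log 2 (G.a + G.b) * (D + s) =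
      2 * ((D + s) * (C * Nat.log 2 (G.a + G.b))) by ring]
    omega
  have hH : ∀ (p : ℕ → Prop) [DecidablePred p],
      ((nonIso (inCode G t)).filter (fun v => p v)).card * (1 + (D + s - D)) ≤
        (D + s) * (C * Nat.log 2 (G.a + G.b)) := by
    intro p _
    rw [Nat.add_sub_cancel_left]
    refine (Nat.mul_le_mul_right _ (card_le_card (filter_subset _ _))).trans ?_
    rw [hn]
    exact key
  have hrow : ∀ v ∈ nonIso (inCode G t), v < G.a →
      ∃ i, dg (adjOf (inCode G t)) (nonIso (inCode G t)) v = G.rowDeg i ∧ 0 < G.rowDeg i := by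
    intro v hv hva
    refine ⟨⟨v, hva⟩, ?_, ?_⟩
    · rw [dg_nonIso]
      exact dg_row G t ⟨v, hva⟩
    · rw [← dg_row G t ⟨v, hva⟩]
      exact mem_nonIso_dg.1 hv
  have hcol : ∀ v ∈ nonIso (inCode G t), ¬ v < G.a →
      ∃ j, dg (adjOf (inCode G t)) (nonIso (inCode G t)) v = G.colDeg j ∧ 0 < G.colDeg j := by
    intro v hv hva
    have hv2 := (mem_nonIso.1 hv).1
    have e := dg_col G t ⟨v - G.a, by omega⟩
    simp only at e
    rw [show G.a + (v - G.a) = v by omega] at e
    refine ⟨⟨v - G.a, by omega⟩, ?_, ?_⟩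
    · rw [dg_nonIso]
      exact e
    · rw [← e]
      exact mem_nonIso_dg.1 hv
  rcases h2 with ⟨h3, h4⟩ | ⟨h3, h4⟩
  · left
    refine ⟨hsub, hpos, hq, by omega, ?_, ?_, hH _, hg⟩
    · intro v hv hp
      obtain ⟨i, hi, hi0⟩ := hrow v hv hp
      rw [hi]
      rcases h3 i with h | h
      · omega
      · exact h
    · intro v hv hp
      obtain ⟨j, hj, _⟩ := hcol v hv hp
      rw [hj]
      exact h4 j
  · right
    refine ⟨hsub, hpos, hq, by omega, ?_, ?_, hH _, hg⟩
    · intro v hv hp
      obtain ⟨j, hj, hj0⟩ := hcol v hv hp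
      rw [hj]
      rcases h3 j with h | h
      · omega
      · exact h
    · intro v hv hp
      obtain ⟨i, hi, _⟩ := hrow v hv (not_not.1 hp)
      rw [hi]
      exact h4 i

end Pool.Agent.Lib.Pa7c826t
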