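import Pool.Agent.Lib.Pa7c826t.HostA

/-!
Dead leaves carry little weight (the `lam`-trick).

PROOF. Put `κ = 33/32`, `lam = 1/32`, `b = |S₀.filter (¬ p)|`, `α(S) = |S| - nu S` (`nu_le`). Let
`(S, s)` be a node of level `n` of the full tree which is not alive. It is light (`lvw_light`), so
`2 dg adj S v ≤ q` for `v ∈ S` (`g dg < |S₀|`, `2 |S₀| ≤ g q`). Not alive means `Y ^ 24 < 2 ^ e` with
`e = α(S₀) - α(S)` (`α(S) ≤ α(S₀)` by `nu_mono`). As `κ ^ 24 ≥ 2`, `Y < κ ^ e` (otherwise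
`2 ^ e ≤ κ ^ (24 e) ≤ Y ^ 24`). `leaf_bound` with the maximum matching (`nu_matching`, swapped if
`p` is the right side) gives `i(S) κ ^ (2 b) ≤ 2 ^ (b + H) κ ^ (2 α(S))`, so, using
`α(S₀) ≤ b + H` (`host_alpha`),
`Y i(S) κ ^ (2 b) ≤ 2 ^ (b + H) κ ^ (α(S) + e) κ ^ α(S) ≤ 2 ^ (b + H) κ ^ (b + H) κ ^ α(S)`.
Moreover `κ ^ α(S) = (1 + lam) ^ α(S) ≤ Z_S(lam)` (`pow_le_wind_nu`) and
`1 ≤ 32 ^ g lam ^ s` (`lvw_le`: `s ≤ g`). Sum over all nodes of level `n` (`sum_lvw`) and use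
`root_bound`: `Z_{S₀}(lam) ≤ 2 ^ H κ ^ b`. Total:
`Y κ ^ (2 b) ∑ i(S) ≤ 2 ^ (b + H) κ ^ (b + H) 32 ^ g 2 ^ H κ ^ b`, i.e.
`Y ∑ i(S) ≤ 2 ^ (b + 2 H) κ ^ H 32 ^ g ≤ 2 ^ b 2 ^ (3 H + 5 g)`, and `2 ^ b ≤ ind adj S₀`
(subsets of `S₀.filter (¬ p)`).
-/

namespace Pool.Agent.Lib.Pa7c826t

open Finset Pool.Agent.Lib.Pa7c826

lemma dead_list (L : List (Finset ℕ × ℕ)) (dead : Finset ℕ → Bool) (f : Finset ℕ → ℕ)
    (w : Finset ℕ × ℕ → ℝ) {c K : ℝ} (hK : 0 ≤ K) (hw : ∀ x ∈ L, 0 ≤ w x)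
    (h : ∀ x ∈ L, dead x.1 = true → c * (f x.1 : ℝ) ≤ K * w x) :
    c * (((((L.map Prod.fst).filter dead).map f).sum : ℕ) : ℝ) ≤ K * (L.map w).sum := by
  induction L with
  | nil => simp
  | cons x L ih =>
    have ih' := ih (fun y hy => hw y (List.mem_cons_of_mem _ hy))
      (fun y hy => h y (List.mem_cons_of_mem _ hy))
    rw [List.map_cons, List.map_cons, List.sum_cons, mul_add]
    by_cases hd : dead x.1 = true
    · rw [List.filter_cons_of_pos hd, List.map_cons, List.sum_cons, Nat.cast_add, mul_add]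
      exact add_le_add (h x List.mem_cons_self hd) ih'
    · rw [List.filter_cons_of_neg hd]
      have := mul_nonneg hK (hw x List.mem_cons_self)
      linarith

lemma dead_two_pow {adj : ℕ → ℕ → Bool} (p : ℕ → Prop) [DecidablePred p]
    (hbip : ∀ u v, adj u v = true → (p u ↔ ¬ p v)) (S₀ : Finset ℕ) :
    2 ^ (S₀.filter (fun u => ¬ p u)).card ≤ ind adj S₀ := by
  unfold ind
  rw [← Finset.card_powerset]
  apply Finset.card_le_card
  intro B hB
  rw [Finset.mem_powerset] at hB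
  rw [Finset.mem_filter, Finset.mem_powerset]
  refine ⟨hB.trans (Finset.filter_subset _ _), ?_⟩
  intro u hu v hv
  have hu' := (Finset.mem_filter.1 (hB hu)).2
  have hv' := (Finset.mem_filter.1 (hB hv)).2
  by_contra hc
  rw [Bool.not_eq_false] at hc
  exact hu' ((hbip u v hc).2 hv')

lemma dead_mat {n a : ℕ} {adj : ℕ → ℕ → Bool} (hs : ∀ u v, adj u v = adj v u) (p : ℕ → Prop)
    (hp : (∀ v, p v ↔ v < a) ∨ ∀ v, p v ↔ ¬ v < a)
    (hbip : ∀ u v, adj u v = true → (u < a ↔ ¬ v < a)) {S : Finset ℕ} (hS : S ⊆ range n) :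
    ∃ M : Finset (ℕ × ℕ), IsMat adj p S M ∧ M.card = nu n a adj S := by
  obtain ⟨M, hM, hc⟩ := nu_matching hS hs hbip
  rcases hp with hp | hp
  · refine ⟨M, ?_, hc⟩
    have : p = fun v => v < a := by
      funext v
      exact propext (hp v)
    rw [this]
    exact hM
  · classical
    refine ⟨M.image Prod.swap, ?_, ?_⟩
    · constructor
      · intro e he
        obtain ⟨f, hf, rfl⟩ := Finset.mem_image.1 he
        exact hM.right_mem f hf
      · intro e he
        obtain ⟨f, hf, rfl⟩ := Finset.mem_image.1 he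
        rw [hp]
        exact (hbip _ _ (hM.edge f hf)).1 (hM.left_p f hf)
      · intro e he
        obtain ⟨f, hf, rfl⟩ := Finset.mem_image.1 he
        exact hM.left_mem f hf
      · intro e he
        obtain ⟨f, hf, rfl⟩ := Finset.mem_image.1 he
        rw [Prod.fst_swap, Prod.snd_swap, hs]
        exact hM.edge f hf
      · intro e he e' he' heq
        obtain ⟨f, hf, rfl⟩ := Finset.mem_image.1 he
        obtain ⟨f', hf', rfl⟩ := Finset.mem_image.1 he'
        rw [hM.inj_right f hf f' hf' heq]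
      · intro e he e' he' heq
        obtain ⟨f, hf, rfl⟩ := Finset.mem_image.1 he
        obtain ⟨f', hf', rfl⟩ := Finset.mem_image.1 he'
        rw [hM.inj_left f hf f' hf' heq]
    · rw [Finset.card_image_of_injective _ Prod.swap_injective, hc]

/-- Dead leaves carry little weight. -/
theorem dead_weight {n a g : ℕ} {adj : ℕ → ℕ → Bool} (hs : ∀ u v, adj u v = adj v u)
    (hl : ∀ u, adj u u = false) (p : ℕ → Prop) [DecidablePred p]
    (hp : (∀ v, p v ↔ v < a) ∨ ∀ v, p v ↔ ¬ v < a)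
    (hbip : ∀ u v, adj u v = true → (u < a ↔ ¬ v < a)) {S₀ : Finset ℕ} {D q H : ℕ}
    (hh : Host n g adj p S₀ D q H) {Y : ℕ} (hY : 1 ≤ Y) :
    Y * (((lvw n S₀.card g adj S₀ n).map Prod.fst).filter
        (fun S => !alive n a adj S₀ (Y ^ 24) S)|>.map (ind adj)).sum ≤
      2 ^ (3 * H + 5 * g) * ind adj S₀ := by
  have hbipp : ∀ u v, adj u v = true → (p u ↔ ¬ p v) := by
    intro u v h
    have h1 := hbip u v h
    rcases hp with hp | hp
    · rw [hp, hp]; exact h1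
    · rw [hp, hp]; tauto
  set b := (S₀.filter (fun u => ¬ p u)).card with hb
  obtain ⟨hα1, hα2, _⟩ := host_alpha hs hl p hp hbip hh
  rw [← hb] at hα1 hα2
  have hroot := root_bound hs p hbipp hh.hq hh.hDq hh.hrow hh.hcol hh.hH
    (lam := 1 / 32) (by norm_num) (by norm_num)
  rw [← hb] at hroot
  have hsum := sum_lvw (m := S₀.card) (g := g) hs hl hh.sub (1 / 32 : ℝ) n
  set L := lvw n S₀.card g adj S₀ n with hL
  have hnode : ∀ x ∈ L, (!alive n a adj S₀ (Y ^ 24) x.1) = true →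
      ((Y : ℝ) * (33 / 32) ^ (2 * b)) * (ind adj x.1 : ℝ) ≤
        (2 ^ (b + H) * (33 / 32) ^ (b + H) * 32 ^ g) * ((1 / 32 : ℝ) ^ x.2 * wind adj (1 / 32) x.1) := by
    intro x hx hdead
    have hsub : x.1 ⊆ S₀ := (lvw_props hh.sub n x hx).1
    have hsubn : x.1 ⊆ range n := hsub.trans hh.sub
    have hle : x.2 ≤ g := lvw_le hh.sub rfl hh.pos n x hx
    have hlight := lvw_light hh.sub x hx
    have hdeg : ∀ v ∈ x.1, 2 * dg adj x.1 v ≤ q := by
      intro v hv
      have h1 := hlight v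
      unfold hvy at h1
      simp only [Bool.and_eq_false_iff, decide_eq_false_iff_not, not_le] at h1
      have h2 : g * dg adj x.1 v < S₀.card := h1.resolve_left (fun h => h hv)
      have h3 := hh.hg
      have h4 : g * (2 * dg adj x.1 v) < g * q := by
        calc g * (2 * dg adj x.1 v) = 2 * (g * dg adj x.1 v) := by ring
          _ < 2 * S₀.card := by omega
          _ ≤ g * q := h3
      exact (lt_of_mul_lt_mul_left h4 (Nat.zero_le g)).le
    obtain ⟨M, hM, hMc⟩ := dead_mat (n := n) hs p hp hbip hsubn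
    have hleaf := (leaf_bound hs p hbipp hh.hq hh.hDq hh.hrow hh.hcol hh.hH hsub hdeg hM).1
    rw [← hb, hMc] at hleaf
    have hmono := nu_mono hh.sub hs hbip hsub
    have hnle := nu_le hsubn hs hbip
    have hnle0 := nu_le hh.sub hs hbip
    have hwind := pow_le_wind_nu hsubn hs hbip (lam := (1 / 32 : ℝ)) (by norm_num)
    set ν := nu n a adj x.1 with hν
    set ν0 := nu n a adj S₀ with hν0
    obtain ⟨α, hα⟩ := Nat.exists_eq_add_of_le hnle
    have hαe : x.1.card - ν = α := by omega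
    rw [hαe] at hwind
    set e := (ν + S₀.card) - (ν0 + x.1.card) with he
    have he1 : α + e ≤ b + H := by omega
    have hYe : (Y : ℝ) ≤ (33 / 32) ^ e := by
      have hd : ¬ (1 ≤ Y ^ 24 / 2 ^ e) := by
        have h1 : alive n a adj S₀ (Y ^ 24) x.1 = false := by simpa using hdead
        unfold alive at h1
        rw [decide_eq_false_iff_not] at h1
        exact h1
      rw [Nat.one_le_div_iff (by positivity), not_le] at hd
      by_contra hcon
      rw [not_le] at hcon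
      have h2 : ((2 : ℝ)) ^ e ≤ (Y : ℝ) ^ 24 := by
        calc (2 : ℝ) ^ e ≤ ((33 / 32) ^ 24) ^ e := pow_le_pow_left₀ (by norm_num) (by norm_num) _
          _ = ((33 / 32) ^ e) ^ 24 := by rw [← pow_mul, ← pow_mul, mul_comm]
          _ ≤ (Y : ℝ) ^ 24 := pow_le_pow_left₀ (by positivity) hcon.le _
      have h3 : (2 : ℕ) ^ e ≤ Y ^ 24 := by exact_mod_cast h2
      omega
    have hi0 : (0 : ℝ) ≤ ind adj x.1 := Nat.cast_nonneg _
    have hleaf' : (ind adj x.1 : ℝ) * (33 / 32) ^ (2 * b) ≤ 2 ^ (b + H) * (33 / 32) ^ (2 * α) := by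
      have h1 : (ind adj x.1 : ℝ) * (33 / 32) ^ (2 * b) * (33 / 32) ^ (2 * ν) ≤
          2 ^ (b + H) * (33 / 32) ^ (2 * α) * (33 / 32) ^ (2 * ν) := by
        calc (ind adj x.1 : ℝ) * (33 / 32) ^ (2 * b) * (33 / 32) ^ (2 * ν)
            = (ind adj x.1 : ℝ) * (33 / 32) ^ (2 * (b + ν)) := by
              rw [mul_assoc, ← pow_add, ← mul_add]
          _ ≤ 2 ^ (b + H) * (33 / 32) ^ (2 * x.1.card) := hleaf
          _ = 2 ^ (b + H) * (33 / 32) ^ (2 * α) * (33 / 32) ^ (2 * ν) := by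
              rw [mul_assoc, ← pow_add, ← mul_add, hα, add_comm ν α]
      exact le_of_mul_le_mul_right h1 (by positivity)
    have hg1 : (1 : ℝ) ≤ 32 ^ g * (1 / 32) ^ x.2 := by
      obtain ⟨c, hc⟩ := Nat.exists_eq_add_of_le hle
      rw [hc, pow_add, one_div, inv_pow, mul_right_comm, mul_inv_cancel₀ (by positivity), one_mul]
      exact one_le_pow₀ (by norm_num)
    have hw0 : 0 ≤ wind adj (1 / 32) x.1 := wind_nonneg adj (by norm_num) _
    have hwind' : ((33 : ℝ) / 32) ^ α ≤ wind adj (1 / 32) x.1 := by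
      have h1 : (1 : ℝ) + 1 / 32 = 33 / 32 := by norm_num
      rw [h1] at hwind
      exact hwind
    calc ((Y : ℝ) * (33 / 32) ^ (2 * b)) * (ind adj x.1 : ℝ)
        = Y * ((ind adj x.1 : ℝ) * (33 / 32) ^ (2 * b)) := by ring
      _ ≤ (33 / 32) ^ e * (2 ^ (b + H) * (33 / 32) ^ (2 * α)) := by
          apply mul_le_mul hYe hleaf' (by positivity) (by positivity)
      _ = 2 ^ (b + H) * (33 / 32) ^ (α + e) * (33 / 32) ^ α := by
          rw [pow_add, two_mul, pow_add]; ring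
      _ ≤ 2 ^ (b + H) * (33 / 32) ^ (b + H) * wind adj (1 / 32) x.1 := by
          apply mul_le_mul _ hwind' (by positivity) (by positivity)
          apply mul_le_mul_of_nonneg_left _ (by positivity)
          exact pow_le_pow_right₀ (by norm_num) he1
      _ = 2 ^ (b + H) * (33 / 32) ^ (b + H) * (1 * wind adj (1 / 32) x.1) := by rw [one_mul]
      _ ≤ 2 ^ (b + H) * (33 / 32) ^ (b + H) * ((32 ^ g * (1 / 32) ^ x.2) * wind adj (1 / 32) x.1) := by
          gcongr
      _ = _ := by ring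
  have hmain := dead_list L (fun S => !alive n a adj S₀ (Y ^ 24) S) (ind adj)
    (fun x => (1 / 32 : ℝ) ^ x.2 * wind adj (1 / 32) x.1)
    (c := (Y : ℝ) * (33 / 32) ^ (2 * b)) (K := 2 ^ (b + H) * (33 / 32) ^ (b + H) * 32 ^ g)
    (by positivity) (fun x _ => mul_nonneg (by positivity) (wind_nonneg adj (by norm_num) _)) hnode
  rw [hsum] at hmain
  set T : ℕ := (((L.map Prod.fst).filter (fun S => !alive n a adj S₀ (Y ^ 24) S)).map (ind adj)).sum
    with hT
  have h2b : 2 ^ b ≤ ind adj S₀ := dead_two_pow p hbipp S₀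
  have hfin : (Y : ℝ) * T ≤ 2 ^ (3 * H + 5 * g) * 2 ^ b := by
    have h1 : ((Y : ℝ) * T) * (33 / 32) ^ (2 * b) ≤ (2 ^ (3 * H + 5 * g) * 2 ^ b) * (33 / 32) ^ (2 * b) := by
      calc ((Y : ℝ) * T) * (33 / 32) ^ (2 * b) = (Y : ℝ) * (33 / 32) ^ (2 * b) * T := by ring
        _ ≤ 2 ^ (b + H) * (33 / 32) ^ (b + H) * 32 ^ g * wind adj (1 / 32) S₀ := hmain
        _ ≤ 2 ^ (b + H) * (33 / 32) ^ (b + H) * 32 ^ g * (2 ^ H * (1 + 1 / 32) ^ b) := by
            gcongr
        _ = 2 ^ (b + 2 * H) * (33 / 32) ^ H * 2 ^ (5 * g) * (33 / 32) ^ (2 * b) := by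
            have e1 : (1 : ℝ) + 1 / 32 = 33 / 32 := by norm_num
            have e2 : (32 : ℝ) ^ g = 2 ^ (5 * g) := by rw [pow_mul]; norm_num
            rw [e1, e2]
            ring
        _ ≤ 2 ^ (b + 2 * H) * 2 ^ H * 2 ^ (5 * g) * (33 / 32) ^ (2 * b) := by
            gcongr
            norm_num
        _ = _ := by ring
    exact le_of_mul_le_mul_right h1 (by positivity)
  have hfin' : Y * T ≤ 2 ^ (3 * H + 5 * g) * 2 ^ b := by exact_mod_cast hfin
  exact hfin'.trans (Nat.mul_le_mul_left _ h2b)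

end Pool.Agent.Lib.Pa7c826t
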