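import Pool.Agent.Lib.Pa7c826t.EDef

/-!
Estimates for the normalised sum.
-/

namespace Pool.Agent.Lib.Pa7c826t

open Pool.Agent.Lib.Pa7c826

theorem mem_goodσ {a b : ℕ} (E : Fin a → Fin b → Prop) (p : (Fin a → Bool) × (Fin b → Bool)) :
    p ∈ goodσ E ↔ ∀ e : Fin a × Fin b, ¬ (E e.1 e.2 ∧ p.1 e.1 = true ∧ p.2 e.2 = false) := by
  classical
  unfold goodσ
  rw [Finset.mem_filter]
  exact ⟨fun h => h.2, fun h => ⟨Finset.mem_univ _, h⟩⟩

theorem mem_goodσ_iff {a b m : ℕ} (x : Fin m → Fin a) (y : Fin m → Fin b)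
    (p : (Fin a → Bool) × (Fin b → Bool)) :
    p ∈ goodσ (fun i j => ∃ e, x e = i ∧ y e = j) ↔
      ∀ e : Fin m, ¬ (p.1 (x e) = true ∧ p.2 (y e) = false) := by
  rw [mem_goodσ]
  constructor
  · intro h e he
    exact h (x e, y e) ⟨⟨e, rfl, rfl⟩, he⟩
  · rintro h ⟨i, j⟩ ⟨⟨e, rfl, rfl⟩, h1⟩
    exact h e h1

theorem nsumE_lower {a b m : ℕ} (c : ℕ) (x : Fin m → Fin a) (y : Fin m → Fin b) :
    (cnt (fun i j => ∃ e, x e = i ∧ y e = j) : ℚ) ≤ nsumE c x y := by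
  classical
  rw [← card_goodσ]
  set Gd := goodσ (fun i j => ∃ e, x e = i ∧ y e = j) with hG
  unfold nsumE
  calc (Gd.card : ℚ) = ∑ p ∈ Gd, (1 : ℚ) := by simp
    _ ≤ ∑ p ∈ Gd, ∏ e : Fin m, rw' c True (p.1 (x e)) (p.2 (y e)) := by
        refine Finset.sum_le_sum fun p hp => ?_
        rw [hG, mem_goodσ_iff] at hp
        exact Finset.one_le_prod fun e _ => (rw_good (fun h => hp e h.2)).1
    _ ≤ _ := Finset.sum_le_sum_of_subset_of_nonneg (Finset.subset_univ _)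
        (fun p _ _ => Finset.prod_nonneg fun e _ => rw_le.1)

theorem nsumE_upper0 {a b m : ℕ} (c : ℕ) (x : Fin m → Fin a) (y : Fin m → Fin b) :
    nsumE c x y ≤ (1 + 7 * hh c) ^ m *
      (cnt (fun i j => ∃ e, x e = i ∧ y e = j) + 2 ^ (a + b) * (8 * hh c)) := by
  classical
  have h0 := hh_pos c
  rw [← card_goodσ]
  set Gd := goodσ (fun i j => ∃ e, x e = i ∧ y e = j) with hG
  unfold nsumE
  have h1 : ∀ p ∈ Gd, ∏ e : Fin m, rw' c True (p.1 (x e)) (p.2 (y e)) ≤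
      (1 + 7 * hh c) ^ m := by
    intro p _
    calc _ ≤ ∏ e : Fin m, (1 + 7 * hh c) :=
          Finset.prod_le_prod (fun e _ => rw_le.1) (fun e _ => rw_le.2)
      _ = _ := by simp
  have h2 : ∀ p ∈ Gdᶜ, ∏ e : Fin m, rw' c True (p.1 (x e)) (p.2 (y e)) ≤
      (1 + 7 * hh c) ^ m * (8 * hh c) := by
    intro p hp
    rw [Finset.mem_compl, hG, mem_goodσ_iff] at hp
    rw [not_forall] at hp
    obtain ⟨e, he⟩ := hp
    rw [not_not] at he
    rw [← Finset.mul_prod_erase _ _ (Finset.mem_univ e), mul_comm]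
    have hb := rw_bad (c := c) (A := True) (s := p.1 (x e)) (t := p.2 (y e)) ⟨trivial, he⟩
    refine mul_le_mul ?_ hb.2 hb.1 (by positivity)
    calc _ ≤ ∏ e ∈ Finset.univ.erase e, (1 + 7 * hh c) :=
          Finset.prod_le_prod (fun e _ => rw_le.1) (fun e _ => rw_le.2)
      _ = (1 + 7 * hh c) ^ (m - 1) := by
          rw [Finset.prod_const, Finset.card_erase_of_mem (Finset.mem_univ _)]
          simp
      _ ≤ _ := pow_le_pow_right₀ (by linarith) (Nat.sub_le _ _)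
  rw [← Finset.sum_add_sum_compl Gd]
  have h3 := Finset.sum_le_sum h1
  have h4 := Finset.sum_le_sum h2
  rw [Finset.sum_const, nsmul_eq_mul] at h3 h4
  have h5 : ((Gdᶜ.card : ℕ) : ℚ) ≤ 2 ^ (a + b) := by
    have : Gdᶜ.card ≤ 2 ^ (a + b) := by
      refine (Finset.card_le_univ _).trans (le_of_eq ?_)
      simp [pow_add]
    exact_mod_cast this
  have h6 : ((Gdᶜ.card : ℕ) : ℚ) * ((1 + 7 * hh c) ^ m * (8 * hh c)) ≤
      2 ^ (a + b) * ((1 + 7 * hh c) ^ m * (8 * hh c)) :=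
    mul_le_mul_of_nonneg_right h5 (by positivity)
  calc _ ≤ (Gd.card : ℚ) * (1 + 7 * hh c) ^ m +
        2 ^ (a + b) * ((1 + 7 * hh c) ^ m * (8 * hh c)) :=
        add_le_add h3 (h4.trans h6)
    _ = _ := by ring

theorem nsumE_upper {a b m t : ℕ} (x : Fin m → Fin a) (y : Fin m → Fin b)
    (hE : 1 ≤ cnt (fun i j => ∃ e, x e = i ∧ y e = j)) :
    nsumE (ce a b m t) x y ≤
      cnt (fun i j => ∃ e, x e = i ∧ y e = j) * (1 + 1 / (4 * (2 * t + 1))) := by
  have r3 := nsumE_upper0 (ce a b m t) x y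
  set E : ℕ := cnt (fun i j => ∃ e, x e = i ∧ y e = j) with hEdef
  unfold ce at *
  set M := a + b + m + 2 * t + 8 with hm
  set h := hh (3 * M) with hh'
  have h0 : 0 < h := hh_pos _
  have h1 : h * 2 ^ M ≤ 1 := hh_small M
  have hE' : (1 : ℚ) ≤ E := by exact_mod_cast hE
  have ht : (2 * t + 1 : ℚ) ≤ 2 ^ (2 * t) := by
    have : 2 * t + 1 ≤ 2 ^ (2 * t) := Nat.lt_two_pow_self
    exact_mod_cast this
  -- powers of two
  have e1 : (2 : ℚ) ^ M = 2 ^ (a + b) * 2 ^ m * 2 ^ (2 * t) * 256 := by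
    rw [hm, pow_add, pow_add, pow_add]; norm_num
  have p1 : (1 : ℚ) ≤ 2 ^ (a + b) := one_le_pow₀ (by norm_num)
  have p2 : (1 : ℚ) ≤ 2 ^ m := one_le_pow₀ (by norm_num)
  have p3 : (1 : ℚ) ≤ 2 ^ (2 * t) := one_le_pow₀ (by norm_num)
  have q0 : (0 : ℚ) < 2 * t + 1 := by positivity
  -- first term
  have k1 : 14 * (m : ℚ) * h * (2 * t + 1) ≤ 1 / 16 := by
    have := nat_le_two_pow m
    have s1 : (m : ℚ) * (2 * t + 1) ≤ 2 ^ m * 2 ^ (2 * t) :=
      mul_le_mul this ht (by positivity) (by positivity)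
    have s2 : 2 ^ m * 2 ^ (2 * t) * (256 * h) ≤ 1 := by
      calc (2 : ℚ) ^ m * 2 ^ (2 * t) * (256 * h)
          ≤ 2 ^ (a + b) * (2 ^ m * 2 ^ (2 * t) * (256 * h)) := by
            refine le_mul_of_one_le_left (by positivity) p1
        _ = h * 2 ^ M := by rw [e1]; ring
        _ ≤ 1 := h1
    have s3 : (m : ℚ) * (2 * t + 1) * (256 * h) ≤ 1 :=
      (mul_le_mul_of_nonneg_right s1 (by positivity)).trans s2
    linarith
  have k2 : 2 ^ (a + b) * (8 * h) * (2 * t + 1) ≤ 1 / 16 := by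
    have s1 : (2 : ℚ) ^ (a + b) * (2 * t + 1) * (256 * h) ≤ 1 := by
      calc (2 : ℚ) ^ (a + b) * (2 * t + 1) * (256 * h)
          ≤ 2 ^ (a + b) * 2 ^ (2 * t) * (256 * h) := by
            refine mul_le_mul_of_nonneg_right ?_ (by positivity)
            exact mul_le_mul_of_nonneg_left ht (by positivity)
        _ ≤ 2 ^ m * (2 ^ (a + b) * 2 ^ (2 * t) * (256 * h)) := by
            refine le_mul_of_one_le_left (by positivity) p2
        _ = h * 2 ^ M := by rw [e1]; ring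
        _ ≤ 1 := h1
    linarith
  set ε : ℚ := 1 / (2 * t + 1) with hε
  have hε0 : 0 < ε := by positivity
  have hε1 : ε ≤ 1 := by
    rw [hε, div_le_one q0]
    have : (0 : ℚ) ≤ t := by positivity
    linarith
  have hεt : ε * (2 * t + 1) = 1 := by rw [hε]; field_simp
  have k1' : 14 * (m : ℚ) * h ≤ ε / 16 := by
    have : 14 * (m : ℚ) * h * (2 * t + 1) ≤ ε / 16 * (2 * t + 1) := by
      rw [div_mul_eq_mul_div, hεt]; exact k1
    exact le_of_mul_le_mul_right this q0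
  have k2' : 2 ^ (a + b) * (8 * h) ≤ ε / 16 := by
    have : 2 ^ (a + b) * (8 * h) * (2 * t + 1) ≤ ε / 16 * (2 * t + 1) := by
      rw [div_mul_eq_mul_div, hεt]; exact k2
    exact le_of_mul_le_mul_right this q0
  have r1 : (1 + 7 * h) ^ m ≤ 1 + ε / 16 := by
    have e2 : 2 * (m : ℚ) * (7 * h) = 14 * (m : ℚ) * h := by ring
    have := one_add_pow_le (x := 7 * h) m (by positivity) (by rw [e2]; linarith)
    rw [e2] at this
    linarith
  have r2 : (E : ℚ) + 2 ^ (a + b) * (8 * h) ≤ E * (1 + ε / 16) := by nlinarith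
  refine r3.trans ?_
  have r4 : (1 + 7 * h) ^ m * (E + 2 ^ (a + b) * (8 * h)) ≤
      (1 + ε / 16) * (E * (1 + ε / 16)) :=
    mul_le_mul r1 r2 (by positivity) (by positivity)
  refine r4.trans ?_
  have r5 : 1 / (4 * (2 * (t : ℚ) + 1)) = ε / 4 := by rw [hε]; field_simp
  rw [r5]
  have r6 : (1 + ε / 16) * (1 + ε / 16) ≤ 1 + ε / 4 := by nlinarith
  calc (1 + ε / 16) * (E * (1 + ε / 16)) = E * ((1 + ε / 16) * (1 + ε / 16)) := by ring
    _ ≤ E * (1 + ε / 4) := mul_le_mul_of_nonneg_left r6 (by positivity)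

end Pool.Agent.Lib.Pa7c826t
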