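import Pool.Agent.Lib.Pa7c826t.ESum
import Pool.Agent.Lib.Pa7c826t.ENum

/-!
The number of independent sets of the block graph.
-/

namespace Pool.Agent.Lib.Pa7c826t

open Pool.Agent.Lib.Pa7c826

theorem card_EB (m : ℕ) : Fintype.card (EB m) = (m + 1) * 6 := by
  simp [Fintype.card_prod]

theorem card_EG (m : ℕ) : Fintype.card (EG m) = m * 5 := by
  simp [Fintype.card_prod]

theorem epureTotal_eq {a b m : ℕ} (c f : ℕ) (x : Fin m → Fin a) (y : Fin m → Fin b)
    (rl rr : Fin m → Fin m) (hl1 : ∀ e, x (rl e) = x e) (hl2 : ∀ e e', x e = x e' → rl e = rl e')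
    (hr1 : ∀ e, y (rr e) = y e) (hr2 : ∀ e e', y e = y e' → rr e = rr e') :
    (pureTotal (esrc rl) (etgt rr) (fun _ : EG m => True) c f : ℚ) * 2 ^ (a + b) =
      2 ^ ((m + 1) * 6 * (m * 5 * (c + 1) + f) + (6 + 3 * m)) * nsumE c x y := by
  have h1 : pureTotal (esrc rl) (etgt rr) (fun _ : EG m => True) c f *
      2 ^ (m * 5 * ((c + 1) * 2)) * 2 ^ (a + b) =
      2 ^ ((m + 1) * 6 * (m * 5 * (c + 1) + f)) * (2 ^ (6 + 2 * m) *
      ∑ p : (Fin a → Bool) × (Fin b → Bool), ∏ e : Fin m,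
        pw c True (p.1 (x e)) (p.2 (y e))) := by
    have h0 : pureTotal (esrc rl) (etgt rr) (fun _ : EG m => True) c f *
        2 ^ (m * 5 * ((c + 1) * 2)) = 2 ^ ((m + 1) * 6 * (m * 5 * (c + 1) + f)) *
        ∑ σ : EB m → Bool, ∏ g : EG m, wt c True (σ (esrc rl g)) (σ (etgt rr g)) := by
      unfold pureTotal
      rw [Finset.sum_mul, Finset.mul_sum]
      refine Finset.sum_congr rfl fun σ _ => ?_
      have := card_pure (act := fun _ : EG m => True) (c := c) (f := f)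
        (esrc_ne_etgt rl rr) σ
      rw [card_EB, card_EG] at this
      exact this
    rw [h0, mul_assoc, esum_vertices c x y rl rr hl1 hl2 hr1 hr2]
  have h2 : (4 : ℚ) ^ (c + 1) = 2 ^ ((c + 1) * 2) := by
    rw [mul_comm, pow_mul]; norm_num
  have hbw : (bw True : ℚ) = 2 := by
    unfold bw
    rw [if_pos trivial]
    norm_num
  have h3 : (∑ p : (Fin a → Bool) × (Fin b → Bool), ∏ e : Fin m,
        (pw c True (p.1 (x e)) (p.2 (y e)) : ℚ)) =
      2 ^ m * 2 ^ (m * 5 * ((c + 1) * 2)) * nsumE c x y := by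
    unfold nsumE
    rw [Finset.mul_sum]
    refine Finset.sum_congr rfl fun p _ => ?_
    have h4 : ∀ e : Fin m, (pw c True (p.1 (x e)) (p.2 (y e)) : ℚ) =
        2 * (4 ^ (c + 1)) ^ 5 * rw' c True (p.1 (x e)) (p.2 (y e)) := by
      intro e
      unfold rw'
      rw [hbw]
      field_simp
    rw [Finset.prod_congr rfl fun e _ => h4 e, Finset.prod_mul_distrib]
    congr 1
    rw [Finset.prod_const, Finset.card_univ, Fintype.card_fin, h2, mul_pow, ← pow_mul, ← pow_mul]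
    congr 2
    ring
  have h5 := congrArg (Nat.cast : ℕ → ℚ) h1
  push_cast at h5
  rw [h3] at h5
  have h6 : (0 : ℚ) < 2 ^ (m * 5 * ((c + 1) * 2)) := by positivity
  have h7 : (pureTotal (esrc rl) (etgt rr) (fun _ : EG m => True) c f : ℚ) * 2 ^ (a + b) *
      2 ^ (m * 5 * ((c + 1) * 2)) =
      2 ^ ((m + 1) * 6 * (m * 5 * (c + 1) + f) + (6 + 3 * m)) * nsumE c x y *
        2 ^ (m * 5 * ((c + 1) * 2)) := by
    have e1 : (2 : ℚ) ^ ((m + 1) * 6 * (m * 5 * (c + 1) + f) + (6 + 3 * m)) =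
        2 ^ ((m + 1) * 6 * (m * 5 * (c + 1) + f)) * (2 ^ (6 + 2 * m) * 2 ^ m) := by
      rw [← pow_add, ← pow_add]
      congr 1
      ring
    rw [e1]
    linear_combination h5
  exact mul_right_cancel₀ h6.ne' h7

theorem efinal_estimate {a b m : ℕ} (t f : ℕ) (x : Fin m → Fin a) (y : Fin m → Fin b)
    (rl rr : Fin m → Fin m) (hl1 : ∀ e, x (rl e) = x e) (hl2 : ∀ e e', x e = x e' → rl e = rl e')
    (hr1 : ∀ e, y (rr e) = y e) (hr2 : ∀ e e', y e = y e' → rr e = rr e')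
    (hE : 1 ≤ cnt (fun i j => ∃ e, x e = i ∧ y e = j))
    (hf : (m + 1) * 6 * 2 ^ (m * 5 * (ce a b m t + 1)) * (4 * (2 * t + 1)) ≤ 2 ^ f)
    (hab : a + b ≤ (m + 1) * 6 * (m * 5 * (ce a b m t + 1) + f)) :
    |(cnt (BRel (esrc rl) (etgt rr) (fun _ : EG m => True) (ce a b m t) f) : ℚ) /
        2 ^ ((m + 1) * 6 * (m * 5 * (ce a b m t + 1) + f) + (6 + 3 * m) - (a + b)) -
        cnt (fun i j => ∃ e, x e = i ∧ y e = j)| ≤
      cnt (fun i j => ∃ e, x e = i ∧ y e = j) / (2 * t + 1) := by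
  have hlo := lower_bound (esrc rl) (etgt rr) (fun _ : EG m => True) (ce a b m t) f
  have hup := upper_bound (esrc rl) (etgt rr) (fun _ : EG m => True) (ce a b m t) f
  have hPT0 := epureTotal_eq (ce a b m t) f x y rl rr hl1 hl2 hr1 hr2
  have hPT : (pureTotal (esrc rl) (etgt rr) (fun _ : EG m => True) (ce a b m t) f : ℚ) =
      2 ^ ((m + 1) * 6 * (m * 5 * (ce a b m t + 1) + f) + (6 + 3 * m) - (a + b)) *
        nsumE (ce a b m t) x y := by
    have h6 : (0 : ℚ) < 2 ^ (a + b) := by positivity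
    refine mul_right_cancel₀ h6.ne' ?_
    have e1 : (2 : ℚ) ^ ((m + 1) * 6 * (m * 5 * (ce a b m t + 1) + f) + (6 + 3 * m)) =
        2 ^ ((m + 1) * 6 * (m * 5 * (ce a b m t + 1) + f) + (6 + 3 * m) - (a + b)) *
          2 ^ (a + b) := by
      rw [← pow_add]
      congr 1
      omega
    rw [hPT0, e1]
    ring
  rw [card_EB] at hlo
  rw [card_EB, card_EG] at hup
  refine num_final (F := 2 ^ f) (W := 2 ^ (m * 5 * (ce a b m t + 1)))
    (N := ((m + 1) * 6 : ℕ)) (S := nsumE (ce a b m t) x y) (by positivity) (by positivity)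
    (by positivity)
    (by exact_mod_cast hE) (one_le_pow₀ (by norm_num)) (by positivity) ?_ ?_ ?_
    (by exact_mod_cast hf) (nsumE_lower _ x y) (nsumE_upper (t := t) x y hE)
  · have : (0 : ℚ) ≤ t := by positivity
    linarith
  · rw [← hPT]
    exact_mod_cast hlo
  · rw [← hPT]
    exact_mod_cast hup

end Pool.Agent.Lib.Pa7c826t
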