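import Pool.Agent.Lib.Pa7c826t.EDef

/-!
The block graph at the level of vertex numbers.
-/

namespace Pool.Agent.Lib.Pa7c826t

open Pool.Agent.Lib.Pa7c826

theorem eEB_val {m : ℕ} (x : EB m) : (eEB m x : ℕ) = x.2 + 6 * x.1 := rfl

theorem eEG_val {m : ℕ} (g : EG m) : (eEG m g : ℕ) = g.2 + 5 * g.1 := rfl

theorem eSlotE_inl {m c f : ℕ} (g : EG m) (j : Fin (c + 1)) :
    (eSlotE m c f (.inl (g, j)) : ℕ) = j + (c + 1) * eEG m g := by
  simp [eSlotE, finProdFinEquiv]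

theorem eSlotE_inr {m c f : ℕ} (s : Fin f) :
    (eSlotE m c f (.inr s) : ℕ) = m * 5 * (c + 1) + s := by
  simp [eSlotE]

theorem eVE_div {m c f : ℕ} (v : EB m × ((EG m × Fin (c + 1)) ⊕ Fin f)) :
    (eVE m c f v : ℕ) / (m * 5 * (c + 1) + f) = eEB m v.1 := by
  have h : (eVE m c f v : ℕ) = eSlotE m c f v.2 + (m * 5 * (c + 1) + f) * eEB m v.1 := rfl
  have h2 := (eSlotE m c f v.2).2
  rw [h, Nat.add_mul_div_left _ _ (by omega), Nat.div_eq_of_lt h2, Nat.zero_add]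

theorem eVE_mod {m c f : ℕ} (v : EB m × ((EG m × Fin (c + 1)) ⊕ Fin f)) :
    (eVE m c f v : ℕ) % (m * 5 * (c + 1) + f) = eSlotE m c f v.2 := by
  have h : (eVE m c f v : ℕ) = eSlotE m c f v.2 + (m * 5 * (c + 1) + f) * eEB m v.1 := rfl
  have h2 := (eSlotE m c f v.2).2
  rw [h, Nat.add_mul_mod_self_left, Nat.mod_eq_of_lt h2]

theorem egmod {m : ℕ} (g : EG m) : (eEG m g : ℕ) % 5 = g.2 := by
  rw [eEG_val]
  have := g.2.2
  omega

theorem egdiv {m : ℕ} (g : EG m) : (eEG m g : ℕ) / 5 = g.1 := by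
  rw [eEG_val]
  have := g.2.2
  omega

theorem srcE_eq {m : ℕ} {L : ℕ → ℕ} {rl : Fin m → Fin m} (hL : ∀ e : Fin m, L e = rl e)
    (g : EG m) : srcE L (eEG m g) = eEB m (esrc rl g) := by
  unfold srcE
  rw [egdiv, egmod, hL]
  obtain ⟨e, κ⟩ := g
  fin_cases κ <;> simp [esrc, eEB_val] <;> ring

theorem tgtE_eq {m : ℕ} {R : ℕ → ℕ} {rr : Fin m → Fin m} (hR : ∀ e : Fin m, R e = rr e)
    (g : EG m) : tgtE R (eEG m g) = eEB m (etgt rr g) := by
  unfold tgtE
  rw [egdiv, egmod, hR]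
  obtain ⟨e, κ⟩ := g
  fin_cases κ <;> simp [etgt, eEB_val] <;> ring

theorem F3_iff {m c f : ℕ} (L R : ℕ → ℕ) (rl rr : Fin m → Fin m)
    (hL : ∀ e : Fin m, L e = rl e) (hR : ∀ e : Fin m, R e = rr e)
    (u v : EB m × ((EG m × Fin (c + 1)) ⊕ Fin f)) :
    BRel (esrc rl) (etgt rr) (fun _ : EG m => True) c f u v ↔
      F3 m (c + 1) f L R (eVE m c f u) (eVE m c f v) = true := by
  unfold F3
  simp only [eVE_div, eVE_mod]
  obtain ⟨V, T⟩ := v
  obtain ⟨U, S⟩ := u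
  have hB : ∀ x y : EB m, ((eEB m x : ℕ) = eEB m y) ↔ x = y := by
    intro x y
    rw [← Fin.ext_iff, (eEB m).injective.eq_iff]
  have hS : ∀ x y : (EG m × Fin (c + 1)) ⊕ Fin f,
      ((eSlotE m c f x : ℕ) = eSlotE m c f y) ↔ x = y := by
    intro x y
    rw [← Fin.ext_iff, (eSlotE m c f).injective.eq_iff]
  rcases T with ⟨g, j⟩ | s
  · have hlt : (eSlotE m c f (.inl (g, j)) : ℕ) < m * 5 * (c + 1) := by
      rw [eSlotE_inl]
      have h1 := (eEG m g).2
      have h2 := j.2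
      calc (j : ℕ) + (c + 1) * eEG m g < (c + 1) + (c + 1) * eEG m g := by omega
        _ = (c + 1) * (eEG m g + 1) := by ring
        _ ≤ (c + 1) * (m * 5) := Nat.mul_le_mul_left _ h1
        _ = _ := by ring
    simp only [hlt, decide_true, if_true]
    unfold F3g
    have hg : (eSlotE m c f (.inl (g, j)) : ℕ) / (c + 1) = eEG m g := by
      rw [eSlotE_inl, Nat.add_mul_div_left _ _ (by omega), Nat.div_eq_of_lt j.2, Nat.zero_add]
    simp only [hg, srcE_eq hL, tgtE_eq hR]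
    have h0 : (c + 1) * (eEG m g : ℕ) = eSlotE m c f (.inl (g, 0)) := by
      rw [eSlotE_inl]; simp
    rw [h0]
    simp only [hB, hS]
    unfold BRel
    simp only [Bool.or_eq_true, Bool.and_eq_true, decide_eq_true_eq, Bool.not_eq_true',
      decide_eq_false_iff_not, and_assoc, true_and]
    rw [Bool.eq_false_iff]
    simp only [ne_eq, Bool.or_eq_true, decide_eq_true_eq]
  · have hlt : ¬ ((eSlotE m c f (.inr s) : ℕ) < m * 5 * (c + 1)) := by
      rw [eSlotE_inr]; omega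
    simp only [hlt, decide_false, Bool.false_eq_true, if_false, decide_eq_true_eq, hB]
    rfl

end Pool.Agent.Lib.Pa7c826t
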