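import Pool.Agent.Lib.Pa7c826t.LeafDef

/-!
The auction algorithm for bipartite matching, on an induced subgraph `S` of a bipartite graph
whose left vertices are the numbers `< a`. The state is a function `f`: for a vertex `u < n` the
number `f u` is the price of `u` and `f (n + u)` is `v + 1` if `u` is sold to the left vertex `v`,
and `0` if `u` is not sold.
-/

namespace Pool.Agent.Lib.Pa7c826t

open Finset Pool.Agent.Lib.Pa7c826

section

variable (n a : ℕ) (adj : ℕ → ℕ → Bool) (S : Finset ℕ)

/-- the left vertex `v` of `S` has not bought anything -/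
def aFree (f : ℕ → ℕ) (v : ℕ) : Bool :=
  (decide (v ∈ S) && decide (v < a)) && !decide (∃ u < n, decide (f (n + u) = v + 1) = true)

/-- `u` is a neighbour of `v` in `S` -/
def aNb (v u : ℕ) : Bool := decide (u ∈ S) && adj v u

/-- `v` is free and has a neighbour of price at most `n` -/
def aAct (f : ℕ → ℕ) (v : ℕ) : Bool :=
  aFree n a S f v && decide (∃ u < n, (aNb adj S v u && decide (f u ≤ n)) = true)

/-- the first active left vertex (`n` if there is none) -/
def aV (f : ℕ → ℕ) : ℕ :=
  ((range n).filter (fun v => (!decide (∃ v' < v + 1, aAct n a adj S f v' = true)) = true)).card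

/-- `u` is the cheapest neighbour of the first active left vertex -/
def aCh (f : ℕ → ℕ) (u : ℕ) : Bool :=
  (aAct n a adj S f (aV n a adj S f) && aNb adj S (aV n a adj S f) u) &&
    !decide (∃ u' < n, (aNb adj S (aV n a adj S f) u' &&
      decide (f u' * n + u' < f u * n + u)) = true)

/-- one step of the auction -/
def aStep (f : ℕ → ℕ) (i : ℕ) : ℕ :=
  if decide (i < n) then (if aCh n a adj S f i then f i + 1 else f i)
  else (if aCh n a adj S f (i - n) then aV n a adj S f + 1 else f i)

/-- the final state -/
def aFin : ℕ → ℕ := (aStep n a adj S)^[n * (n + 1)] (fun _ => 0)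

/-- the size of the matching found by the auction -/
def nu : ℕ :=
  ((range n).filter (fun u => (!decide (aFin n a adj S (n + u) = 0)) = true)).card

/-- the invariants of the auction -/
structure AInv (f : ℕ → ℕ) : Prop where
  lab_le : ∀ u < n, f u ≤ n + 1
  par_le : ∀ u < n, f (n + u) ≤ n
  pos : ∀ u < n, f u = 0 ↔ f (n + u) = 0
  edge : ∀ u < n, ∀ v, f (n + u) = v + 1 → u ∈ S ∧ v ∈ S ∧ v < a ∧ adj v u = true
  inj : ∀ u < n, ∀ u' < n, f (n + u) = f (n + u') → f (n + u) ≠ 0 → u = u'
  cs : ∀ u < n, ∀ v, f (n + u) = v + 1 → ∀ u' < n, u' ∈ S → adj v u' = true → f u ≤ f u' + 1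

end

end Pool.Agent.Lib.Pa7c826t
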