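import Pool.Agent.Lib.Pa7c826t.AuctDef

/-!
Invariants and termination of the auction.

PROOF. `aStep_spec`. If no vertex is active, then `aStep f = f` (`aStep_idle`). If some `v` is
active, then `v₀ = aV f` is the first active one and exactly one neighbour `u₀ ∈ S` of `v₀` is chosen
(`aCh_spec`); the step changes only `f u₀` (to `f u₀ + 1`) and `f (n + u₀)` (to `v₀ + 1`).
`aFin_spec`: by induction on `k`, after `k` steps the invariants hold and either no vertex is
active or `∑_{u < n} f u = k`. After `n (n + 1)` steps an active state would have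
`∑ f u = n (n + 1)`, so all prices are `n + 1` by `lab_le`, and no vertex is active.
-/

namespace Pool.Agent.Lib.Pa7c826t

open Finset Pool.Agent.Lib.Pa7c826

theorem aInv_zero (n a : ℕ) (adj : ℕ → ℕ → Bool) (S : Finset ℕ) :
    AInv n a adj S (fun _ => 0) := by
  refine ⟨?_, ?_, ?_, ?_, ?_, ?_⟩
  · intro u _; exact Nat.zero_le _
  · intro u _; exact Nat.zero_le _
  · intro u _; simp
  · intro u _ v h; exact absurd h.symm (Nat.succ_ne_zero v)
  · intro u _ u' _ _ h; exact absurd rfl h
  · intro u _ v h; exact absurd h.symm (Nat.succ_ne_zero v)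

section

variable {n a : ℕ} {adj : ℕ → ℕ → Bool} {S : Finset ℕ} {f : ℕ → ℕ}

theorem aFree_iff {v : ℕ} : aFree n a S f v = true ↔
    (v ∈ S ∧ v < a) ∧ ∀ u < n, f (n + u) ≠ v + 1 := by
  unfold aFree
  simp

theorem aNb_iff {v u : ℕ} : aNb adj S v u = true ↔ u ∈ S ∧ adj v u = true := by
  unfold aNb
  simp

theorem aAct_iff {v : ℕ} : aAct n a adj S f v = true ↔
    aFree n a S f v = true ∧ ∃ u < n, aNb adj S v u = true ∧ f u ≤ n := by
  unfold aAct
  simp

theorem aCh_iff {u : ℕ} : aCh n a adj S f u = true ↔
    (aAct n a adj S f (aV n a adj S f) = true ∧ aNb adj S (aV n a adj S f) u = true) ∧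
    ∀ u' < n, aNb adj S (aV n a adj S f) u' = true → f u * n + u ≤ f u' * n + u' := by
  unfold aCh
  simp

/-- `aV` is the first active vertex. -/
theorem aV_spec (hS : S ⊆ range n) (h : ∃ v, aAct n a adj S f v = true) :
    aAct n a adj S f (aV n a adj S f) = true := by
  classical
  have hs := Nat.find_spec h
  have hm := fun {m} (hm : m < Nat.find h) => Nat.find_min h hm
  set v₀ := Nat.find h with hv
  have hv0 : v₀ < n := by
    have := (aFree_iff.mp (aAct_iff.mp hs).1).1.1
    exact mem_range.mp (hS this)
  have e : (range n).filter (fun v => (!decide (∃ v' < v + 1, aAct n a adj S f v' = true)) = true) =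
      range v₀ := by
    ext v
    simp only [mem_filter, mem_range, Bool.not_eq_true', decide_eq_false_iff_not, not_exists, not_and]
    constructor
    · rintro ⟨-, h2⟩
      by_contra hc
      exact h2 v₀ (by omega) hs
    · intro h1
      refine ⟨by omega, fun v' hv' => hm (by omega)⟩
  have e2 : aV n a adj S f = v₀ := by
    unfold aV
    rw [e, card_range]
  rw [e2]
  exact hs

theorem aStep_idle (h : ∀ v, aAct n a adj S f v = false) : aStep n a adj S f = f := by
  have hch : ∀ u, aCh n a adj S f u = false := by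
    intro u
    unfold aCh
    rw [h]
    simp
  funext i
  unfold aStep
  simp [hch]

/-- the chosen vertex -/
theorem aCh_spec (hS : S ⊆ range n) (h : ∃ v, aAct n a adj S f v = true) :
    ∃ u₀ < n, aNb adj S (aV n a adj S f) u₀ = true ∧ f u₀ ≤ n ∧
      (∀ u' < n, aNb adj S (aV n a adj S f) u' = true → f u₀ ≤ f u') ∧
      ∀ u, aCh n a adj S f u = true ↔ u = u₀ := by
  classical
  have hact := aV_spec hS h
  set v₀ := aV n a adj S f with hv
  obtain ⟨u1, hu1, hn1, hf1⟩ := (aAct_iff.mp hact).2
  have hne : ((range n).filter fun u => aNb adj S v₀ u = true).Nonempty :=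
    ⟨u1, mem_filter.mpr ⟨mem_range.mpr hu1, hn1⟩⟩
  obtain ⟨u₀, hu₀, hmin⟩ := exists_min_image _ (fun u => f u * n + u) hne
  rw [mem_filter, mem_range] at hu₀
  have hmin' : ∀ u' < n, aNb adj S v₀ u' = true → f u₀ * n + u₀ ≤ f u' * n + u' :=
    fun u' h1 h2 => hmin u' (mem_filter.mpr ⟨mem_range.mpr h1, h2⟩)
  have hle : ∀ u' < n, aNb adj S v₀ u' = true → f u₀ ≤ f u' := by
    intro u' h1 h2
    have h3 := hmin' u' h1 h2
    by_contra hc
    push Not at hc
    have h4 : (f u' + 1) * n ≤ f u₀ * n := Nat.mul_le_mul_right n hc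
    rw [add_mul, one_mul] at h4
    omega
  refine ⟨u₀, hu₀.1, hu₀.2, (hle u1 hu1 hn1).trans hf1, hle, fun u => ?_⟩
  rw [aCh_iff, ← hv]
  constructor
  · rintro ⟨⟨-, h2⟩, h3⟩
    have hun : u < n := mem_range.mp (hS (aNb_iff.mp h2).1)
    have h4 := h3 u₀ hu₀.1 hu₀.2
    have h5 := hmin' u hun h2
    have h6 : f u * n + u = f u₀ * n + u₀ := le_antisymm h4 h5
    have h7 : (f u * n + u) % n = u := by
      rw [Nat.mul_add_mod', Nat.mod_eq_of_lt hun]
    have h8 : (f u₀ * n + u₀) % n = u₀ := by
      rw [Nat.mul_add_mod', Nat.mod_eq_of_lt hu₀.1]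
    rw [← h7, h6, h8]
  · rintro rfl
    exact ⟨⟨hact, hu₀.2⟩, hmin'⟩

end

/-- A step preserves the invariants; if some left vertex is active then exactly one price goes up
by one. -/
theorem aStep_spec {n a : ℕ} {adj : ℕ → ℕ → Bool} {S : Finset ℕ} (hS : S ⊆ range n)
    (hbip : ∀ u v, adj u v = true → (u < a ↔ ¬ v < a)) {f : ℕ → ℕ} (hf : AInv n a adj S f) :
    AInv n a adj S (aStep n a adj S f) ∧
      ((∃ v, aAct n a adj S f v = true) →
        ∑ u ∈ range n, aStep n a adj S f u = ∑ u ∈ range n, f u + 1) ∧
      ((∀ v, aAct n a adj S f v = false) → ∀ i < 2 * n, aStep n a adj S f i = f i) := by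
  by_cases h : ∃ v, aAct n a adj S f v = true
  · have hact := aV_spec hS h
    obtain ⟨u₀, hu₀, hnb, hfn, hle, hch⟩ := aCh_spec hS h
    set v₀ := aV n a adj S f with hv
    obtain ⟨⟨hvS, hva⟩, hfree⟩ := aFree_iff.mp (aAct_iff.mp hact).1
    have hvn : v₀ < n := mem_range.mp (hS hvS)
    have hstep : ∀ i, aStep n a adj S f i =
        if i = u₀ then f u₀ + 1 else if i = n + u₀ then v₀ + 1 else f i := by
      intro i
      unfold aStep
      rw [← hv]
      by_cases hi : i < n
      · have h1 : i ≠ n + u₀ := by omega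
        by_cases h2 : i = u₀
        · have h3 : aCh n a adj S f i = true := (hch i).mpr h2
          rw [if_pos (decide_eq_true hi), if_pos h3, if_pos h2, h2]
        · have h3 : ¬ aCh n a adj S f i = true := fun h3 => h2 ((hch i).mp h3)
          rw [if_pos (decide_eq_true hi), if_neg h3, if_neg h2, if_neg h1]
      · have h1 : i ≠ u₀ := by omega
        have hd : ¬ decide (i < n) = true := by simpa using hi
        by_cases h2 : i = n + u₀
        · have h3 : aCh n a adj S f (i - n) = true := (hch _).mpr (by omega)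
          rw [if_neg hd, if_pos h3, if_neg h1, if_pos h2]
        · have h3 : ¬ aCh n a adj S f (i - n) = true := fun h3 => h2 (by
            have := (hch _).mp h3
            omega)
          rw [if_neg hd, if_neg h3, if_neg h1, if_neg h2]
    have s1 : ∀ u < n, aStep n a adj S f u = if u = u₀ then f u₀ + 1 else f u := by
      intro u hu
      rw [hstep]
      have : u ≠ n + u₀ := by omega
      rw [if_neg this]
    have s2 : ∀ u < n, aStep n a adj S f (n + u) = if u = u₀ then v₀ + 1 else f (n + u) := by
      intro u hu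
      rw [hstep]
      have h1 : n + u ≠ u₀ := by omega
      rw [if_neg h1]
      by_cases h2 : u = u₀
      · rw [if_pos h2, if_pos (by omega)]
      · rw [if_neg h2, if_neg (by omega)]
    have smono : ∀ u < n, f u ≤ aStep n a adj S f u := by
      intro u hu
      rw [s1 u hu]
      split_ifs with h2
      · rw [h2]; omega
      · exact le_rfl
    refine ⟨⟨?_, ?_, ?_, ?_, ?_, ?_⟩, fun _ => ?_, fun hno => ?_⟩
    · intro u hu
      rw [s1 u hu]
      split_ifs
      · omega
      · exact hf.lab_le u hu
    · intro u hu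
      rw [s2 u hu]
      split_ifs
      · omega
      · exact hf.par_le u hu
    · intro u hu
      rw [s1 u hu, s2 u hu]
      split_ifs
      · simp
      · exact hf.pos u hu
    · intro u hu v hv'
      rw [s2 u hu] at hv'
      split_ifs at hv' with h2
      · have h3 : v₀ = v := by omega
        obtain ⟨h4, h5⟩ := aNb_iff.mp hnb
        subst h2
        rw [← h3]
        exact ⟨h4, hvS, hva, h5⟩
      · exact hf.edge u hu v hv'
    · intro u hu u' hu' heq hne
      rw [s2 u hu] at heq hne
      rw [s2 u' hu'] at heq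
      split_ifs at heq hne with h2 h3 h3
      · rw [h2, h3]
      · exact absurd heq.symm (hfree u' hu')
      · exact absurd heq (hfree u hu)
      · exact hf.inj u hu u' hu' heq hne
    · intro u hu v hv' u' hu' hu'S hadj
      have h9 := smono u' hu'
      rw [s2 u hu] at hv'
      rw [s1 u hu]
      split_ifs at hv' with h2
      · have h3 : v₀ = v := by omega
        rw [if_pos h2]
        have h4 := hle u' hu' (aNb_iff.mpr ⟨hu'S, by rw [h3]; exact hadj⟩)
        omega
      · rw [if_neg h2]
        have h4 := hf.cs u hu v hv' u' hu' hu'S hadj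
        omega
    · have h5 : ∀ u ∈ range n, aStep n a adj S f u = f u + if u = u₀ then 1 else 0 := by
        intro u hu
        rw [s1 u (mem_range.mp hu)]
        split_ifs with h2
        · rw [h2]
        · rfl
      rw [sum_congr rfl h5, sum_add_distrib, sum_ite_eq', if_pos (mem_range.mpr hu₀)]
    · obtain ⟨v, hv'⟩ := h
      rw [hno v] at hv'
      exact absurd hv' (by simp)
  · have hno : ∀ v, aAct n a adj S f v = false := by
      intro v
      by_contra hc
      exact h ⟨v, by simpa using hc⟩
    rw [aStep_idle hno]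
    exact ⟨hf, fun h' => absurd h' h, fun _ i _ => rfl⟩

/-- The final state satisfies the invariants and no left vertex is active. -/
theorem aFin_spec {n a : ℕ} {adj : ℕ → ℕ → Bool} {S : Finset ℕ} (hS : S ⊆ range n)
    (hbip : ∀ u v, adj u v = true → (u < a ↔ ¬ v < a)) :
    AInv n a adj S (aFin n a adj S) ∧ ∀ v, aAct n a adj S (aFin n a adj S) v = false := by
  have key : ∀ k, AInv n a adj S ((aStep n a adj S)^[k] (fun _ => 0)) ∧
      ((∀ v, aAct n a adj S ((aStep n a adj S)^[k] (fun _ => 0)) v = false) ∨
        ∑ u ∈ range n, (aStep n a adj S)^[k] (fun _ => 0) u = k) := by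
    intro k
    induction k with
    | zero => exact ⟨aInv_zero n a adj S, Or.inr (by simp)⟩
    | succ k ih =>
      rw [Function.iterate_succ_apply']
      set F := (aStep n a adj S)^[k] (fun _ => 0) with hF
      obtain ⟨h1, h2⟩ := ih
      obtain ⟨h3, h4, -⟩ := aStep_spec hS hbip h1
      refine ⟨h3, ?_⟩
      by_cases hno : ∀ v, aAct n a adj S F v = false
      · left
        rw [aStep_idle hno]
        exact hno
      · right
        have h5 : ∃ v, aAct n a adj S F v = true := by
          push Not at hno
          obtain ⟨v, hv⟩ := hno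
          exact ⟨v, by simpa using hv⟩
        rw [h4 h5]
        rcases h2 with h2 | h2
        · exact absurd h2 hno
        · rw [h2]
  obtain ⟨h1, h2⟩ := key (n * (n + 1))
  refine ⟨h1, ?_⟩
  rcases h2 with h2 | h2
  · exact h2
  · intro v
    by_contra hc
    have hc' : aAct n a adj S (aFin n a adj S) v = true := by simpa using hc
    obtain ⟨u, hu, -, hun⟩ := (aAct_iff.mp hc').2
    have h3 : ∑ u ∈ range n, aFin n a adj S u < ∑ _u ∈ range n, (n + 1) := by
      refine sum_lt_sum (fun i hi => h1.lab_le i (mem_range.mp hi)) ⟨u, mem_range.mpr hu, ?_⟩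
      omega
    rw [sum_const, card_range, smul_eq_mul] at h3
    have h4 : ∑ u ∈ range n, aFin n a adj S u = n * (n + 1) := h2
    omega

end Pool.Agent.Lib.Pa7c826t
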