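import Pool.Agent.Lib.Pa7c826t.ArrPoly
import Pool.Agent.Lib.Pa7c826t.AuctInv
import Pool.Agent.Lib.Pa7c826.Decode
import Pool.Agent.Lib.Pa7c826.BISRed

/-!
The auction runs in polynomial time.
-/

namespace Pool.Agent.Lib.Pa7c826t

open Pool.Agent.Lib.PolyTime Pool.Agent.Lib.Pa7c826 Finset

section

variable {α : Type*} {D : α → Prop} {ctx : List (α → List Bool)} {w : α → List Bool}
  {S : α → Finset ℕ} {F : α → ℕ → ℕ} {u v : α → ℕ}

theorem PolyS.up' {n m : α → ℕ} {S : α → Finset ℕ} (hS : PolyS D ctx n S) :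
    PolyS (fun p : α × ℕ => D p.1 ∧ p.2 < m p.1)
      (PolyTime.lift ctx ++ [fun p => un p.2]) (fun p => n p.1) (fun p => S p.1) := hS.up

theorem poly_aFree (hw : PolyC D ctx w) (hS : PolyS D ctx (fun x => nOf (w x)) S)
    (hF : PolyArr D ctx (fun x => nOf (w x) + 1) (fun x => 2 * nOf (w x)) F)
    (hv : PolyN D ctx v) :
    PolyB D ctx (fun x => aFree (nOf (w x)) (aOf (w x)) (S x) (F x) (v x)) := by
  have W := up (n := fun x => nOf (w x)) hw
  have FF := hF.up (k := fun x => nOf (w x))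
  have V := upN (n := fun x => nOf (w x)) hv
  have L := last (D := D) (ctx := ctx) (n := fun x => nOf (w x))
  have N := poly_nOf W
  have G := FF.get (i := fun p : α × ℕ => nOf (w p.1) + p.2) N.succ (N.add L)
    (fun p hp => by have := hp.2; omega)
  exact ((hS.mem hv).and (PolyB.lt hv (poly_aOf hw))).and
    (PolyB.exists_lt (φ := fun p : α × ℕ => decide (F p.1 (nOf (w p.1) + p.2) = v p.1 + 1))
      (poly_nOf hw) (PolyB.natEq G V.succ)).not

theorem poly_aNb (hw : PolyC D ctx w) (hS : PolyS D ctx (fun x => nOf (w x)) S)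
    (hv : PolyN D ctx v) (hu : PolyN D ctx u) :
    PolyB D ctx (fun x => aNb (adjOf (w x)) (S x) (v x) (u x)) :=
  (hS.mem hu).and (poly_adj hw hv hu)

theorem poly_aAct (hw : PolyC D ctx w) (hS : PolyS D ctx (fun x => nOf (w x)) S)
    (hF : PolyArr D ctx (fun x => nOf (w x) + 1) (fun x => 2 * nOf (w x)) F)
    (hv : PolyN D ctx v) :
    PolyB D ctx (fun x => aAct (nOf (w x)) (aOf (w x)) (adjOf (w x)) (S x) (F x) (v x)) := by
  have W := up (n := fun x => nOf (w x)) hw
  have SS := hS.up (m := fun x => nOf (w x))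
  have FF := hF.up (k := fun x => nOf (w x))
  have V := upN (n := fun x => nOf (w x)) hv
  have L := last (D := D) (ctx := ctx) (n := fun x => nOf (w x))
  have N := poly_nOf W
  have G := FF.get (i := fun p : α × ℕ => p.2) N.succ L
    (fun p hp => by have := hp.2; omega)
  exact (poly_aFree hw hS hF hv).and
    (PolyB.exists_lt (φ := fun p : α × ℕ => (aNb (adjOf (w p.1)) (S p.1) (v p.1) p.2 &&
      decide (F p.1 p.2 ≤ nOf (w p.1)))) (poly_nOf hw) ((poly_aNb W SS V L).and (PolyB.le G N)))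

theorem poly_aV (hw : PolyC D ctx w) (hS : PolyS D ctx (fun x => nOf (w x)) S)
    (hF : PolyArr D ctx (fun x => nOf (w x) + 1) (fun x => 2 * nOf (w x)) F) :
    PolyN D ctx (fun x => aV (nOf (w x)) (aOf (w x)) (adjOf (w x)) (S x) (F x)) := by
  have W := up (n := fun x => nOf (w x)) hw
  have SS := hS.up (m := fun x => nOf (w x))
  have FF := hF.up (k := fun x => nOf (w x))
  have L := last (D := D) (ctx := ctx) (n := fun x => nOf (w x))
  have W2 := up (n := fun p : α × ℕ => p.2 + 1) W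
  have SS2 := SS.up (m := fun p : α × ℕ => p.2 + 1)
  have FF2 := FF.up (k := fun p : α × ℕ => p.2 + 1)
  have L2 := last (D := fun p : α × ℕ => D p.1 ∧ p.2 < nOf (w p.1))
    (ctx := PolyTime.lift ctx ++ [fun p : α × ℕ => un p.2])
    (n := fun p : α × ℕ => p.2 + 1)
  have A2 := poly_aAct W2 SS2 FF2 L2
  have hB : PolyB (fun p : α × ℕ => D p.1 ∧ p.2 < nOf (w p.1))
      (PolyTime.lift ctx ++ [fun p : α × ℕ => un p.2])
      (fun p : α × ℕ => decide (∃ v' < p.2 + 1,
        aAct (nOf (w p.1)) (aOf (w p.1)) (adjOf (w p.1)) (S p.1) (F p.1) v' = true)) :=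
    PolyB.exists_lt (φ := fun q : (α × ℕ) × ℕ =>
      aAct (nOf (w q.1.1)) (aOf (w q.1.1)) (adjOf (w q.1.1)) (S q.1.1) (F q.1.1) q.2) L.succ A2
  exact PolyN.count (φ := fun p : α × ℕ => !decide (∃ v' < p.2 + 1,
    aAct (nOf (w p.1)) (aOf (w p.1)) (adjOf (w p.1)) (S p.1) (F p.1) v' = true))
    (poly_nOf hw) hB.not

theorem poly_aCh (hw : PolyC D ctx w) (hS : PolyS D ctx (fun x => nOf (w x)) S)
    (hF : PolyArr D ctx (fun x => nOf (w x) + 1) (fun x => 2 * nOf (w x)) F)
    (hu : PolyN D ctx u) (hlt : ∀ x, D x → u x < nOf (w x)) :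
    PolyB D ctx (fun x => aCh (nOf (w x)) (aOf (w x)) (adjOf (w x)) (S x) (F x) (u x)) := by
  have hV := poly_aV hw hS hF
  have W := up (n := fun x => nOf (w x)) hw
  have SS := hS.up (m := fun x => nOf (w x))
  have FF := hF.up (k := fun x => nOf (w x))
  have V := upN (n := fun x => nOf (w x)) hV
  have U := upN (n := fun x => nOf (w x)) hu
  have L := last (D := D) (ctx := ctx) (n := fun x => nOf (w x))
  have N := poly_nOf W
  have G := FF.get (i := fun p : α × ℕ => p.2) N.succ L
    (fun p hp => by have := hp.2; omega)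
  have GU := FF.get (i := fun p : α × ℕ => u p.1) N.succ U
    (fun p hp => by have := hlt p.1 hp.1; omega)
  exact ((poly_aAct hw hS hF hV).and (poly_aNb hw hS hV hu)).and
    (PolyB.exists_lt (φ := fun p : α × ℕ =>
      (aNb (adjOf (w p.1)) (S p.1)
        (aV (nOf (w p.1)) (aOf (w p.1)) (adjOf (w p.1)) (S p.1) (F p.1)) p.2 &&
        decide (F p.1 p.2 * nOf (w p.1) + p.2 < F p.1 (u p.1) * nOf (w p.1) + u p.1)))
      (poly_nOf hw) ((poly_aNb W SS V L).and (PolyB.lt ((G.mul N).add L) ((GU.mul N).add U)))).not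

theorem poly_aStep (hw : PolyC D ctx w) (hS : PolyS D ctx (fun x => nOf (w x)) S)
    (hF : PolyArr D ctx (fun x => nOf (w x) + 1) (fun x => 2 * nOf (w x)) F)
    (hu : PolyN D ctx u) (hlt : ∀ x, D x → u x < 2 * nOf (w x)) :
    PolyN D ctx (fun x => aStep (nOf (w x)) (aOf (w x)) (adjOf (w x)) (S x) (F x) (u x)) := by
  have hn := poly_nOf hw
  have hV := poly_aV hw hS hF
  have G := hF.get (i := u) hn.succ hu hlt
  have c1 : PolyB D ctx (fun x => decide (u x < nOf (w x))) := PolyB.lt hu hn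
  have mono : ∀ {b : Bool} {t : α → List Bool}, PolyC D ctx t →
      PolyC (fun x => D x ∧ decide (u x < nOf (w x)) = b) ctx t :=
    fun h => PolyC.mono h (fun _ h => h.1)
  have hS1 : ∀ b : Bool, PolyS (fun x => D x ∧ decide (u x < nOf (w x)) = b) ctx
      (fun x => nOf (w x)) S := fun b => PolyS.mono hS (fun _ h => h.1)
  have hF1 : ∀ b : Bool, PolyArr (fun x => D x ∧ decide (u x < nOf (w x)) = b) ctx
      (fun x => nOf (w x) + 1) (fun x => 2 * nOf (w x)) F :=
    fun b => PolyArr.mono hF (fun _ h => h.1)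
  have b1 : PolyN (fun x => D x ∧ decide (u x < nOf (w x)) = true) ctx
      (fun x => if aCh (nOf (w x)) (aOf (w x)) (adjOf (w x)) (S x) (F x) (u x) = true
        then F x (u x) + 1 else F x (u x)) :=
    PolyN.ite (poly_aCh (mono hw) (hS1 true) (hF1 true) (mono hu)
      (fun x hx => by simpa using hx.2)) (PolyN.succ (mono G)) (mono G)
  have b2 : PolyN (fun x => D x ∧ decide (u x < nOf (w x)) = false) ctx
      (fun x => if aCh (nOf (w x)) (aOf (w x)) (adjOf (w x)) (S x) (F x)
          (u x - nOf (w x)) = true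
        then aV (nOf (w x)) (aOf (w x)) (adjOf (w x)) (S x) (F x) + 1 else F x (u x)) :=
    PolyN.ite (poly_aCh (mono hw) (hS1 false) (hF1 false) (PolyN.sub (mono hu) (mono hn))
      (fun x hx => by
        have h1 := hlt x hx.1
        have h2 : ¬ (u x < nOf (w x)) := by simpa using hx.2
        omega)) (PolyN.succ (mono hV)) (mono G)
  refine PolyC.congr (PolyC.ite c1 b1 b2) (fun x _ => ?_)
  unfold aStep
  by_cases h : decide (u x < nOf (w x)) = true
  · simp only [h, if_true]
  · simp only [h, Bool.false_eq_true, if_false]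

end

theorem adjOf_left (w : List Bool) (u v : ℕ) (h : adjOf w u v = true) :
    u < aOf w ↔ ¬ v < aOf w := by
  rcases adjOf_bip h with h | h
  · constructor
    · intro _; omega
    · intro _; exact h.1
  · constructor
    · intro h1; omega
    · intro h1; omega

theorem aInv_iterate {n a : ℕ} {adj : ℕ → ℕ → Bool} {S : Finset ℕ} (hS : S ⊆ range n)
    (hbip : ∀ u v, adj u v = true → (u < a ↔ ¬ v < a)) (k : ℕ) :
    AInv n a adj S ((aStep n a adj S)^[k] (fun _ => 0)) := by
  induction k with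
  | zero => exact aInv_zero n a adj S
  | succ k ih =>
    rw [Function.iterate_succ_apply']
    exact (aStep_spec hS hbip ih).1

theorem AInv.bound {n a : ℕ} {adj : ℕ → ℕ → Bool} {S : Finset ℕ} {f : ℕ → ℕ}
    (h : AInv n a adj S f) (i : ℕ) (hi : i < 2 * n) : f i ≤ n + 1 := by
  rcases lt_or_ge i n with h1 | h1
  · exact h.lab_le i h1
  · have h2 := h.par_le (i - n) (by omega)
    rw [show n + (i - n) = i by omega] at h2
    omega

/-- `nu` is computable in polynomial time. -/
theorem poly_nu {α : Type*} {D : α → Prop} {ctx : List (α → List Bool)} {w : α → List Bool}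
    {S : α → Finset ℕ} (hw : PolyC D ctx w) (hS : PolyS D ctx (fun x => nOf (w x)) S) :
    PolyN D ctx (fun x => nu (nOf (w x)) (aOf (w x)) (adjOf (w x)) (S x)) := by
  have hn := poly_nOf hw
  have hk : PolyN D ctx (fun x => nOf (w x) * (nOf (w x) + 1)) := hn.mul hn.succ
  have h0 : PolyArr D ctx (fun x => nOf (w x) + 1) (fun x => 2 * nOf (w x))
      (fun _ _ => 0) :=
    PolyArr.mk hn.succ ((PolyN.const 2).mul hn) (PolyN.const 0) (fun _ _ _ _ => Nat.zero_le _)
  have hfin : PolyArr D ctx (fun x => nOf (w x) + 1) (fun x => 2 * nOf (w x))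
      (fun x => aFin (nOf (w x)) (aOf (w x)) (adjOf (w x)) (S x)) := by
    refine PolyArr.iterate (step := fun x => aStep (nOf (w x)) (aOf (w x)) (adjOf (w x)) (S x))
      (f := fun _ _ => 0) hn.succ ((PolyN.const 2).mul hn) hk h0 ?_
    -- the state variable
    set k : α → ℕ := fun x => nOf (w x) * (nOf (w x) + 1) with hkdef
    set st : α × ℕ → List Bool := fun p => arr (nOf (w p.1) + 1) (2 * nOf (w p.1))
      ((aStep (nOf (w p.1)) (aOf (w p.1)) (adjOf (w p.1)) (S p.1))^[p.2] (fun _ => 0)) with hst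
    have W : PolyC (fun p : α × ℕ => D p.1 ∧ p.2 < k p.1)
        (PolyTime.lift ctx ++ [fun p => un p.2, st]) (fun p => w p.1) := up2 hw
    have SS : PolyS (fun p : α × ℕ => D p.1 ∧ p.2 < k p.1)
        (PolyTime.lift ctx ++ [fun p => un p.2, st]) (fun p => nOf (w p.1)) (fun p => S p.1) :=
      ⟨up2 hS.1, fun p hp => hS.2 p.1 hp.1⟩
    have FF : PolyArr (fun p : α × ℕ => D p.1 ∧ p.2 < k p.1)
        (PolyTime.lift ctx ++ [fun p => un p.2, st]) (fun p => nOf (w p.1) + 1)
        (fun p => 2 * nOf (w p.1))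
        (fun p => (aStep (nOf (w p.1)) (aOf (w p.1)) (adjOf (w p.1)) (S p.1))^[p.2]
          (fun _ => 0)) :=
      ⟨PolyC.var (by simp [hst]), fun p hp i hi =>
        (aInv_iterate (hS.2 p.1 hp.1) (adjOf_left (w p.1)) p.2).bound i hi⟩
    have N := poly_nOf W
    refine PolyArr.mk N.succ ((PolyN.const 2).mul N) ?_ ?_
    · have W1 := up (n := fun p : α × ℕ => 2 * nOf (w p.1)) W
      have SS1 := SS.up (m := fun p : α × ℕ => 2 * nOf (w p.1))
      have FF1 := FF.up (k := fun p : α × ℕ => 2 * nOf (w p.1))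
      have L1 := last (D := fun p : α × ℕ => D p.1 ∧ p.2 < k p.1)
        (ctx := PolyTime.lift ctx ++ [fun p => un p.2, st])
        (n := fun p : α × ℕ => 2 * nOf (w p.1))
      exact poly_aStep W1 SS1 FF1 L1 (fun p hp => hp.2)
    · rintro ⟨x, j⟩ hx i hi
      have h1 := (aInv_iterate (hS.2 x hx.1) (adjOf_left (w x)) (j + 1)).bound i hi
      rw [Function.iterate_succ_apply'] at h1
      exact h1
  have W := up (n := fun x => nOf (w x)) hw
  have FF := hfin.up (k := fun x => nOf (w x))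
  have L := last (D := D) (ctx := ctx) (n := fun x => nOf (w x))
  have N := poly_nOf W
  have G := FF.get (i := fun p : α × ℕ => nOf (w p.1) + p.2) N.succ (N.add L)
    (fun p hp => by have := hp.2; omega)
  exact PolyN.count (φ := fun p : α × ℕ =>
    !decide (aFin (nOf (w p.1)) (aOf (w p.1)) (adjOf (w p.1)) (S p.1)
      (nOf (w p.1) + p.2) = 0)) hn (PolyB.natEq G (PolyN.const 0)).not

end Pool.Agent.Lib.Pa7c826t
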