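import Pool.Agent.Lib.Pa7c826t.WInd

/-!
The branching tree: in/out on the first vertex of large degree. The threshold for the degree is
`m / g`.
-/

namespace Pool.Agent.Lib.Pa7c826t

open Finset Pool.Agent.Lib.Pa7c826

section

variable (n m g : ℕ) (adj : ℕ → ℕ → Bool)

/-- `v` is heavy in `S` -/
def hvy (S : Finset ℕ) (v : ℕ) : Bool := decide (v ∈ S) && decide (m ≤ g * dg adj S v)

/-- `v` is the first heavy vertex -/
def chs (S : Finset ℕ) (v : ℕ) : Bool :=
  hvy m g adj S v && !decide (∃ u < v, hvy m g adj S u = true)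

/-- there is a heavy vertex -/
def anyH (S : Finset ℕ) : Bool := decide (∃ u < n, hvy m g adj S u = true)

/-- remove the first heavy vertex -/
def outT (S : Finset ℕ) : Finset ℕ := S.filter (fun v => (!chs m g adj S v) = true)

/-- remove the first heavy vertex and its neighbours -/
def inT (S : Finset ℕ) : Finset ℕ :=
  S.filter (fun u => (!chs m g adj S u &&
    !decide (∃ v < n, (chs m g adj S v && adj v u) = true)) = true)

/-- the children of a node -/
def kids (S : Finset ℕ) : List (Finset ℕ) :=
  if anyH n m g adj S then [outT m g adj S, inT n m g adj S] else [S]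

/-- the pruned tree, level by level -/
def plv (al : Finset ℕ → Bool) (S₀ : Finset ℕ) : ℕ → List (Finset ℕ)
  | 0 => [S₀]
  | t + 1 => ((plv al S₀ t).flatMap (kids n m g adj)).filter al

/-- the children of a node, with the number of inclusions -/
def kidsw (x : Finset ℕ × ℕ) : List (Finset ℕ × ℕ) :=
  if anyH n m g adj x.1 then [(outT m g adj x.1, x.2), (inT n m g adj x.1, x.2 + 1)] else [x]

/-- the full tree, level by level, with the number of inclusions -/
def lvw (S₀ : Finset ℕ) : ℕ → List (Finset ℕ × ℕ)
  | 0 => [(S₀, 0)]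
  | t + 1 => (lvw S₀ t).flatMap (kidsw n m g adj)

end

section analysis

variable {n m g : ℕ} {adj : ℕ → ℕ → Bool}

theorem hvy_mem {S : Finset ℕ} {v : ℕ} (h : hvy m g adj S v = true) : v ∈ S := by
  unfold hvy at h
  simp only [Bool.and_eq_true, decide_eq_true_eq] at h
  exact h.1

theorem chs_hvy {S : Finset ℕ} {v : ℕ} (h : chs m g adj S v = true) :
    hvy m g adj S v = true := by
  unfold chs at h
  simp only [Bool.and_eq_true] at h
  exact h.1

theorem chs_unique {S : Finset ℕ} {v w : ℕ} (h : chs m g adj S v = true)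
    (h' : chs m g adj S w = true) : v = w := by
  unfold chs at h h'
  simp only [Bool.and_eq_true, Bool.not_eq_true', decide_eq_false_iff_not] at h h'
  rcases lt_trichotomy v w with hlt | heq | hgt
  · exact absurd ⟨v, hlt, h.1⟩ h'.2
  · exact heq
  · exact absurd ⟨w, hgt, h'.1⟩ h.2

theorem exists_chs {S : Finset ℕ} (h : ∃ u, hvy m g adj S u = true) :
    ∃ v, chs m g adj S v = true := by
  classical
  refine ⟨Nat.find h, ?_⟩
  unfold chs
  simp only [Bool.and_eq_true, Bool.not_eq_true', decide_eq_false_iff_not]
  refine ⟨Nat.find_spec h, ?_⟩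
  rintro ⟨u, hu, hh⟩
  exact Nat.find_min h hu hh

theorem outT_eq {S : Finset ℕ} {v : ℕ} (h : chs m g adj S v = true) :
    outT m g adj S = S.erase v := by
  ext u
  simp only [outT, mem_filter, mem_erase, Bool.not_eq_true']
  constructor
  · rintro ⟨h1, h2⟩
    exact ⟨fun e => by subst e; rw [h] at h2; exact absurd h2 (by simp), h1⟩
  · rintro ⟨h1, h2⟩
    refine ⟨h2, ?_⟩
    by_contra h3
    rw [Bool.not_eq_false] at h3
    exact h1 (chs_unique h3 h)

theorem inT_eq {S : Finset ℕ} {v : ℕ} (hv : v < n) (h : chs m g adj S v = true) :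
    inT n m g adj S = (S.erase v).filter (fun u => adj v u = false) := by
  ext u
  simp only [inT, mem_filter, mem_erase, Bool.and_eq_true, Bool.not_eq_true',
    decide_eq_false_iff_not]
  constructor
  · rintro ⟨h1, h2, h3⟩
    refine ⟨⟨fun e => by subst e; rw [h] at h2; exact absurd h2 (by simp), h1⟩, ?_⟩
    by_contra h4
    rw [Bool.not_eq_false] at h4
    exact h3 ⟨v, hv, h, h4⟩
  · rintro ⟨⟨h1, h2⟩, h3⟩
    refine ⟨h2, ?_, ?_⟩
    · by_contra h4
      rw [Bool.not_eq_false] at h4
      exact h1 (chs_unique h4 h)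
    · rintro ⟨w, hw, h4, h5⟩
      rw [chs_unique h4 h, h3] at h5
      exact absurd h5 (by simp)

theorem outT_subset (S : Finset ℕ) : outT m g adj S ⊆ S := filter_subset _ _

theorem inT_subset (S : Finset ℕ) : inT n m g adj S ⊆ S := filter_subset _ _

theorem anyH_iff {S : Finset ℕ} (hS : S ⊆ range n) :
    anyH n m g adj S = true ↔ ∃ u, hvy m g adj S u = true := by
  unfold anyH
  rw [decide_eq_true_eq]
  constructor
  · rintro ⟨u, _, h⟩
    exact ⟨u, h⟩
  · rintro ⟨u, h⟩
    exact ⟨u, mem_range.1 (hS (hvy_mem h)), h⟩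

theorem card_inT {S : Finset ℕ} (hS : S ⊆ range n)
    (h : anyH n m g adj S = true) : g * (inT n m g adj S).card + m ≤ g * S.card := by
  obtain ⟨v, hv⟩ := exists_chs ((anyH_iff hS).1 h)
  have hh := chs_hvy hv
  have hvS := hvy_mem hh
  rw [inT_eq (mem_range.1 (hS hvS)) hv]
  have h1 : ((S.erase v).filter (fun u => adj v u = false)).card + dg adj S v ≤ S.card := by
    unfold dg
    have h2 : (S.filter (fun u => adj v u = true)).card +
        (S.filter (fun u => ¬ adj v u = true)).card = S.card :=
      card_filter_add_card_filter_not _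
    have h3 : ((S.erase v).filter (fun u => adj v u = false)).card ≤
        (S.filter (fun u => ¬ adj v u = true)).card := by
      apply card_le_card
      intro u
      simp only [mem_filter, mem_erase, Bool.not_eq_true]
      exact fun h => ⟨h.1.2, h.2⟩
    omega
  unfold hvy at hh
  simp only [Bool.and_eq_true, decide_eq_true_eq] at hh
  have h4 := Nat.mul_le_mul_left g h1
  rw [Nat.mul_add] at h4
  omega

theorem kids_subset {S T : Finset ℕ} (hT : T ∈ kids n m g adj S) : T ⊆ S := by
  unfold kids at hT
  split_ifs at hT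
  · simp only [List.mem_cons, List.not_mem_nil, or_false] at hT
    rcases hT with rfl | rfl
    · exact outT_subset _
    · exact inT_subset _
  · simp only [List.mem_cons, List.not_mem_nil, or_false] at hT
    rw [hT]

end analysis

end Pool.Agent.Lib.Pa7c826t
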