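import Pool.Agent.Lib.Pa7c826t.ArrPoly
import Pool.Agent.Lib.Pa7c826t.TreeDef

/-!
Codes of lists of finsets, and functions of the input string computable in every context.
-/

namespace Pool.Agent.Lib.Pa7c826t

open Pool.Agent.Lib.PolyTime Pool.Agent.Lib.Pa7c826 Finset

/-- finsets depending on the input string, computable in every context -/
def UPolyS (S : List Bool → Finset ℕ) : Prop :=
  ∀ {β : Type} {D' : β → Prop} {ctx' : List (β → List Bool)} {w' : β → List Bool},
    PolyC D' ctx' w' → PolyS D' ctx' (fun b => nOf (w' b)) (fun b => S (w' b))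

/-- properties of a finset depending on the input string, computable in every context -/
def UPolyA (al : List Bool → Finset ℕ → Bool) : Prop :=
  ∀ {β : Type} {D' : β → Prop} {ctx' : List (β → List Bool)} {w' : β → List Bool}
    {S : β → Finset ℕ}, PolyC D' ctx' w' → PolyS D' ctx' (fun b => nOf (w' b)) S →
      PolyB D' ctx' (fun b => al (w' b) (S b))

/-- numbers (in binary) depending on a finset and the input string, computable in every
context -/
def UPolyF (F : List Bool → Finset ℕ → ℕ) : Prop :=
  ∀ {β : Type} {D' : β → Prop} {ctx' : List (β → List Bool)} {w' : β → List Bool}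
    {S : β → Finset ℕ}, PolyC D' ctx' w' → PolyS D' ctx' (fun b => nOf (w' b)) S →
      PolyBin D' ctx' (fun b => F (w' b) (S b))

/-- the code of a list of finsets -/
def codeL (n : ℕ) (l : List (Finset ℕ)) : List Bool := l.flatMap (fun S => true :: msk n S)

/-- the `i`-th finset of a coded list -/
def nodeAt (n : ℕ) (c : List Bool) (i : ℕ) : Finset ℕ :=
  (range n).filter (fun v => c.getD (i * (n + 1) + (v + 1)) false = true)

end Pool.Agent.Lib.Pa7c826t
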