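import Pool.Agent.Lib.Pa7c826t.CodeDef

/-!
Reading the code of a list of finsets.
-/

namespace Pool.Agent.Lib.Pa7c826t

open Pool.Agent.Lib.PolyTime Pool.Agent.Lib.Pa7c826 Finset

theorem codeL_cons (n : ℕ) (S : Finset ℕ) (l : List (Finset ℕ)) :
    codeL n (S :: l) = (true :: msk n S) ++ codeL n l := by
  simp [codeL]

theorem length_codeL (n : ℕ) (l : List (Finset ℕ)) : (codeL n l).length = l.length * (n + 1) := by
  induction l with
  | nil => simp [codeL]
  | cons S l ih =>
    rw [codeL_cons, List.length_append, ih]
    simp only [List.length_cons, msk_length]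
    ring

/-- reading position `x` of block `i` -/
theorem codeL_getD {n : ℕ} {l : List (Finset ℕ)} {i x : ℕ} (hi : i < l.length)
    (hx : x < n + 1) :
    (codeL n l).getD (i * (n + 1) + x) false = (true :: msk n l[i]).getD x false := by
  induction l generalizing i with
  | nil => simp at hi
  | cons S l ih =>
    rw [codeL_cons]
    have hlen : (true :: msk n S).length = n + 1 := by simp
    rcases i with _ | i
    · rw [List.getD_append _ _ _ _ (by rw [hlen]; omega)]
      simp
    · rw [List.getD_append_right _ _ _ _ (by rw [hlen]; nlinarith), hlen]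
      have h1 : (i + 1) * (n + 1) + x - (n + 1) = i * (n + 1) + x := by
        have : (i + 1) * (n + 1) = i * (n + 1) + (n + 1) := by ring
        omega
      rw [h1, ih (by simpa using hi)]
      simp

theorem nodeAt_codeL {n : ℕ} {l : List (Finset ℕ)} (hl : ∀ S ∈ l, S ⊆ range n) {i : ℕ}
    (hi : i < l.length) : nodeAt n (codeL n l) i = l[i] := by
  unfold nodeAt
  ext v
  simp only [mem_filter, mem_range]
  have hsub : l[i] ⊆ range n := hl _ (List.getElem_mem hi)
  constructor
  · rintro ⟨hv, h⟩
    rw [codeL_getD hi (by omega)] at h
    rw [List.getD_cons_succ, msk_getD n _ hsub] at h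
    simpa using h
  · intro hv
    have hv' := mem_range.1 (hsub hv)
    refine ⟨hv', ?_⟩
    rw [codeL_getD hi (by omega)]
    rw [List.getD_cons_succ, msk_getD n _ hsub]
    simpa using hv

/-- `c.getD (i * (n + 1)) false` tells whether `i` is an index of the list -/
theorem guard_codeL {n : ℕ} {l : List (Finset ℕ)} (i : ℕ) :
    (codeL n l).getD (i * (n + 1)) false = decide (i < l.length) := by
  rcases lt_or_ge i l.length with h | h
  · have := codeL_getD (n := n) h (x := 0) (by omega)
    rw [Nat.add_zero] at this
    rw [this]
    simp [h]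
  · rw [List.getD_eq_default _ _ (by rw [length_codeL]; exact Nat.mul_le_mul_right _ h)]
    simp; omega

end Pool.Agent.Lib.Pa7c826t
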