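import Pool.Agent.Lib.Pa7c826.BISRed

/-!
The block graph of a bipartite graph given by a list of `m` edges: six blocks per edge (and six
additional ones) and five gadgets per edge. The edge number `e` uses the blocks `(rl e, 0)` and
`(rr e, 1)` of its left and right ends and the pendant blocks `(e, 2), …, (e, 5)`.
-/

namespace Pool.Agent.Lib.Pa7c826t

open Pool.Agent.Lib.Pa7c826

/-- blocks -/
abbrev EB (m : ℕ) : Type := Fin (m + 1) × Fin 6

/-- gadgets -/
abbrev EG (m : ℕ) : Type := Fin m × Fin 5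

/-- source block of a gadget -/
def esrc {m : ℕ} (rl : Fin m → Fin m) (g : EG m) : EB m :=
  match g.2 with
  | 0 => ((rl g.1).castSucc, 0)
  | 1 => ((rl g.1).castSucc, 0)
  | 2 => (g.1.castSucc, 2)
  | 3 => (g.1.castSucc, 4)
  | 4 => (g.1.castSucc, 5)

/-- target block of a gadget -/
def etgt {m : ℕ} (rr : Fin m → Fin m) (g : EG m) : EB m :=
  match g.2 with
  | 0 => ((rr g.1).castSucc, 1)
  | 1 => (g.1.castSucc, 2)
  | 2 => (g.1.castSucc, 3)
  | 3 => ((rr g.1).castSucc, 1)
  | 4 => (g.1.castSucc, 4)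

theorem esrc_ne_etgt {m : ℕ} (rl rr : Fin m → Fin m) (g : EG m) : esrc rl g ≠ etgt rr g := by
  obtain ⟨e, κ⟩ := g
  fin_cases κ <;> simp [esrc, etgt]

/-- the normalised sum over the states of the vertices, for the list of edges `(x e, y e)` -/
noncomputable def nsumE {a b m : ℕ} (c : ℕ) (x : Fin m → Fin a) (y : Fin m → Fin b) : ℚ :=
  ∑ p : (Fin a → Bool) × (Fin b → Bool), ∏ e : Fin m, rw' c True (p.1 (x e)) (p.2 (y e))

/-- the precision parameter -/
def ce (a b m t : ℕ) : ℕ := 3 * (a + b + m + 2 * t + 8)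

/-! ### Index level -/

/-- index of the source block of gadget number `g` -/
def srcE (L : ℕ → ℕ) (g : ℕ) : ℕ :=
  if decide (g % 5 < 2) = true then 6 * L (g / 5)
  else if decide (g % 5 = 2) = true then 6 * (g / 5) + 2
  else if decide (g % 5 = 3) = true then 6 * (g / 5) + 4
  else 6 * (g / 5) + 5

/-- index of the target block of gadget number `g` -/
def tgtE (R : ℕ → ℕ) (g : ℕ) : ℕ :=
  if decide (g % 5 = 0) = true then 6 * R (g / 5) + 1
  else if decide (g % 5 = 1) = true then 6 * (g / 5) + 2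
  else if decide (g % 5 = 2) = true then 6 * (g / 5) + 3
  else if decide (g % 5 = 3) = true then 6 * R (g / 5) + 1
  else 6 * (g / 5) + 4

/-- adjacency of `(U, S)` and `(V, T)` (block, slot), when `T` is the slot `(g, j)` of a gadget -/
def F3g (c1 : ℕ) (L R : ℕ → ℕ) (U S V T : ℕ) : Bool :=
  let g := T / c1
  let s := srcE L g
  let t := tgtE R g
  (decide (V = s) && ((decide (U = V) && !decide (S = T)) ||
    (decide (U = t) && decide (S = c1 * g)))) ||
  ((decide (V = t) && ((decide (U = V) && !decide (S = c1 * g)) ||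
    (decide (U = s) && decide (S = T)))) ||
  (!(decide (V = s) || decide (V = t)) && decide (U = V)))

/-- adjacency -/
def F3 (m c1 f : ℕ) (L R : ℕ → ℕ) (u v : ℕ) : Bool :=
  let d := m * 5 * c1 + f
  if decide (v % d < m * 5 * c1) = true then F3g c1 L R (u / d) (u % d) (v / d) (v % d)
  else decide (u / d = v / d)

/-- numbering of the blocks -/
def eEB (m : ℕ) : EB m ≃ Fin ((m + 1) * 6) := finProdFinEquiv

/-- numbering of the gadgets -/
def eEG (m : ℕ) : EG m ≃ Fin (m * 5) := finProdFinEquiv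

/-- numbering of the slots -/
def eSlotE (m c f : ℕ) : (EG m × Fin (c + 1)) ⊕ Fin f ≃ Fin (m * 5 * (c + 1) + f) :=
  (Equiv.sumCongr ((Equiv.prodCongr (eEG m) (Equiv.refl _)).trans finProdFinEquiv)
    (Equiv.refl _)).trans finSumFinEquiv

/-- numbering of the vertices -/
def eVE (m c f : ℕ) : EB m × ((EG m × Fin (c + 1)) ⊕ Fin f) ≃
    Fin ((m + 1) * 6 * (m * 5 * (c + 1) + f)) :=
  (Equiv.prodCongr (eEB m) (eSlotE m c f)).trans finProdFinEquiv

/-! ### The list of edges of a graph -/

/-- number of edges among the first `k` pairs -/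
def eCnt (G : BGraph) (k : ℕ) : ℕ :=
  ((Finset.range k).filter fun i => G.F (i / G.b) (i % G.b) = true).card

/-- number of the pair that is the `e`-th edge -/
def pairI (G : BGraph) (e : ℕ) : ℕ :=
  ((Finset.range (G.a * G.b)).filter fun i => decide (eCnt G (i + 1) ≤ e) = true).card

/-- left end of the `e`-th edge -/
def xI (G : BGraph) (e : ℕ) : ℕ := pairI G e / G.b

/-- right end of the `e`-th edge -/
def yI (G : BGraph) (e : ℕ) : ℕ := pairI G e % G.b

/-- the first index `i` with `z i = z e` -/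
def repI (m : ℕ) (z : ℕ → ℕ) (e : ℕ) : ℕ :=
  ((Finset.range m).filter fun i =>
    (!decide (∃ i' < i + 1, decide (z i' = z e) = true)) = true).card

/-! ### The reduction -/

/-- number of free slots -/
def fE (a b m t : ℕ) : ℕ := m * 5 * (ce a b m t + 1) + (m + 1) * 6 + (2 * t + 2) + (a + b)

/-- the degree -/
def dE (a b m t : ℕ) : ℕ := m * 5 * (ce a b m t + 1) + fE a b m t

/-- the new graph -/
def redE (G : BGraph) (t : ℕ) : BGraph :=
  mkGraph ((ecount G + 1) * 6 * dE G.a G.b (ecount G) t)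
    ((ecount G + 1) * 6 * dE G.a G.b (ecount G) t)
    (F3 (ecount G) (ce G.a G.b (ecount G) t + 1) (fE G.a G.b (ecount G) t)
      (repI (ecount G) (xI G)) (repI (ecount G) (yI G)))

/-- the exponent -/
def KE (G : BGraph) (t : ℕ) : ℕ :=
  (ecount G + 1) * 6 * dE G.a G.b (ecount G) t + (6 + 3 * ecount G) - (G.a + G.b)

end Pool.Agent.Lib.Pa7c826t
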