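import Pool.Agent.Lib.Pa7c826t.EDef

/-!
The list of edges of a bipartite graph.
-/

namespace Pool.Agent.Lib.Pa7c826t

open Pool.Agent.Lib.Pa7c826

/-- a downward closed subset of an initial segment is an initial segment -/
theorem mem_of_lt_card {n : ℕ} {P : ℕ → Prop} [DecidablePred P]
    (hP : ∀ i j, i ≤ j → P j → P i) :
    (Finset.range n).filter P = Finset.range ((Finset.range n).filter P).card := by
  induction n with
  | zero => simp
  | succ n ih =>
    by_cases h : P n
    · have h1 : (Finset.range (n + 1)).filter P = Finset.range (n + 1) := by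
        refine Finset.filter_true_of_mem fun i hi => ?_
        exact hP i n (by have := Finset.mem_range.1 hi; omega) h
      rw [h1, Finset.card_range]
    · have h1 : (Finset.range (n + 1)).filter P = (Finset.range n).filter P := by
        rw [Finset.range_add_one, Finset.filter_insert, if_neg h]
      rw [h1]
      exact ih

theorem lt_card_iff {n : ℕ} {P : ℕ → Prop} [DecidablePred P]
    (hP : ∀ i j, i ≤ j → P j → P i) (i : ℕ) :
    i < ((Finset.range n).filter P).card ↔ i < n ∧ P i := by
  rw [← Finset.mem_range, ← mem_of_lt_card hP, Finset.mem_filter, Finset.mem_range]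

theorem eCnt_mono (G : BGraph) : Monotone (eCnt G) := by
  intro i j hij
  exact Finset.card_le_card (Finset.filter_subset_filter _ (Finset.range_mono hij))

theorem eCnt_succ (G : BGraph) (k : ℕ) :
    eCnt G (k + 1) = eCnt G k + (if G.F (k / G.b) (k % G.b) = true then 1 else 0) := by
  unfold eCnt
  rw [Finset.range_add_one, Finset.filter_insert]
  split_ifs with h
  · rw [Finset.card_insert_of_notMem (by simp)]
  · rfl

theorem lt_pairI_iff (G : BGraph) (e i : ℕ) :
    i < pairI G e ↔ i < G.a * G.b ∧ eCnt G (i + 1) ≤ e := by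
  unfold pairI
  rw [lt_card_iff (P := fun i => decide (eCnt G (i + 1) ≤ e) = true) ?_ i]
  · simp
  · intro i j hij hj
    simp only [decide_eq_true_eq] at hj ⊢
    exact (eCnt_mono G (by omega)).trans hj

theorem pairI_spec {G : BGraph} {e : ℕ} (he : e < ecount G) :
    pairI G e < G.a * G.b ∧ eCnt G (pairI G e) ≤ e ∧ e < eCnt G (pairI G e + 1) ∧
      G.F (pairI G e / G.b) (pairI G e % G.b) = true := by
  have he' : e < eCnt G (G.a * G.b) := he
  have h1 : pairI G e < G.a * G.b := by
    by_contra h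
    have h0 : 0 < G.a * G.b := by
      rcases Nat.eq_zero_or_pos (G.a * G.b) with h0 | h0
      · rw [h0] at he'
        simp [eCnt] at he'
      · exact h0
    have h2 := (lt_pairI_iff G e (G.a * G.b - 1)).1 (by omega)
    rw [show G.a * G.b - 1 + 1 = G.a * G.b by omega] at h2
    omega
  have h2 : e < eCnt G (pairI G e + 1) := by
    by_contra h
    exact absurd ((lt_pairI_iff G e (pairI G e)).2 ⟨h1, by omega⟩) (lt_irrefl _)
  have h3 : eCnt G (pairI G e) ≤ e := by
    rcases Nat.eq_zero_or_pos (pairI G e) with h0 | h0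
    · rw [h0]
      simp [eCnt]
    · have h4 := (lt_pairI_iff G e (pairI G e - 1)).1 (by omega)
      rw [show pairI G e - 1 + 1 = pairI G e by omega] at h4
      exact h4.2
  refine ⟨h1, h3, h2, ?_⟩
  by_contra h
  rw [eCnt_succ, if_neg h] at h2
  omega

theorem xI_lt {G : BGraph} {e : ℕ} (he : e < ecount G) : xI G e < G.a := by
  have h := (pairI_spec he).1
  unfold xI
  exact Nat.div_lt_of_lt_mul (by rw [mul_comm]; exact h)

theorem yI_lt {G : BGraph} {e : ℕ} (he : e < ecount G) : yI G e < G.b := by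
  have h := (pairI_spec he).1
  have hb : 0 < G.b := by
    rcases Nat.eq_zero_or_pos G.b with h0 | h0
    · rw [h0] at h; omega
    · exact h0
  exact Nat.mod_lt _ hb

theorem pairI_eCnt {G : BGraph} {k : ℕ} (hk : k < G.a * G.b)
    (hF : G.F (k / G.b) (k % G.b) = true) : eCnt G k < ecount G ∧ pairI G (eCnt G k) = k := by
  have h1 : eCnt G (k + 1) = eCnt G k + 1 := by rw [eCnt_succ, if_pos hF]
  have h2 : eCnt G k < ecount G := by
    have h3 : eCnt G (k + 1) ≤ eCnt G (G.a * G.b) := eCnt_mono G (by omega)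
    have h4 : eCnt G (G.a * G.b) = ecount G := rfl
    omega
  refine ⟨h2, ?_⟩
  refine le_antisymm ?_ ?_
  · by_contra h
    have h3 := (lt_pairI_iff G (eCnt G k) k).1 (by omega)
    omega
  · by_contra h
    push Not at h
    have h3 := (pairI_spec h2).2.2.1
    have h4 : eCnt G (pairI G (eCnt G k) + 1) ≤ eCnt G k := eCnt_mono G (by omega)
    omega

/-- the edges are the pairs `(xI e, yI e)`, `e < ecount G` -/
theorem edge_iff (G : BGraph) (i : Fin G.a) (j : Fin G.b) :
    G.E i j = true ↔ ∃ e, ∃ he : e < ecount G, (⟨xI G e, xI_lt he⟩ : Fin G.a) = i ∧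
      (⟨yI G e, yI_lt he⟩ : Fin G.b) = j := by
  constructor
  · intro h
    have hj := j.2
    have hi := i.2
    have hk : (i : ℕ) * G.b + j < G.a * G.b := by
      calc (i : ℕ) * G.b + j < i * G.b + G.b := by omega
        _ = (i + 1) * G.b := by ring
        _ ≤ G.a * G.b := Nat.mul_le_mul_right _ hi
    have hd : ((i : ℕ) * G.b + j) / G.b = i := by
      rw [mul_comm, Nat.mul_add_div (by omega), Nat.div_eq_of_lt hj, Nat.add_zero]
    have hm : ((i : ℕ) * G.b + j) % G.b = j := by
      rw [mul_comm, Nat.mul_add_mod, Nat.mod_eq_of_lt hj]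
    obtain ⟨h1, h2⟩ := pairI_eCnt hk (by rw [hd, hm, BGraph.F_eq]; exact h)
    refine ⟨_, h1, ?_, ?_⟩
    · apply Fin.ext
      simp only [xI, h2, hd]
    · apply Fin.ext
      simp only [yI, h2, hm]
  · rintro ⟨e, he, rfl, rfl⟩
    have h := (pairI_spec he).2.2.2
    rw [← BGraph.F_eq]
    exact h

theorem lt_repI_iff (m : ℕ) (z : ℕ → ℕ) (e i : ℕ) :
    i < repI m z e ↔ i < m ∧ ∀ i' < i + 1, z i' ≠ z e := by
  unfold repI
  rw [lt_card_iff (P := fun i =>
    (!decide (∃ i' < i + 1, decide (z i' = z e) = true)) = true) ?_ i]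
  · simp
  · intro i j hij hj
    simp only [Bool.not_eq_true', decide_eq_false_iff_not, decide_eq_true_eq, not_exists,
      not_and] at hj ⊢
    exact fun i' hi' => hj i' (by omega)

theorem repI_le {m : ℕ} (z : ℕ → ℕ) (e : ℕ) : repI m z e ≤ e := by
  by_contra h
  exact ((lt_repI_iff m z e e).1 (by omega)).2 e (by omega) rfl

theorem repI_lt {m : ℕ} (z : ℕ → ℕ) {e : ℕ} (he : e < m) : repI m z e < m :=
  (repI_le z e).trans_lt he

theorem repI_spec {m : ℕ} (z : ℕ → ℕ) {e : ℕ} (he : e < m) : z (repI m z e) = z e := by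
  by_contra h
  refine absurd ((lt_repI_iff m z e (repI m z e)).2 ⟨repI_lt z he, ?_⟩) (lt_irrefl _)
  intro i' hi'
  rcases Nat.lt_succ_iff_lt_or_eq.1 hi' with h1 | h1
  · exact ((lt_repI_iff m z e i').1 h1).2 i' (by omega)
  · rw [h1]; exact h

theorem repI_congr {m : ℕ} (z : ℕ → ℕ) {e e' : ℕ} (h : z e = z e') :
    repI m z e = repI m z e' := by
  unfold repI
  rw [h]

/-- number of edges -/
theorem ecount_eq (G : BGraph) : ecount G = ∑ i, G.rowDeg i := by
  have h1 : ecount G = ∑ k ∈ Finset.range (G.a * G.b),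
      if G.F (k / G.b) (k % G.b) = true then 1 else 0 := by
    unfold ecount
    rw [Finset.card_filter]
  rw [h1, ← Fin.sum_univ_eq_sum_range
    (fun k => if G.F (k / G.b) (k % G.b) = true then 1 else 0), ← Equiv.sum_comp finProdFinEquiv,
    Fintype.sum_prod_type]
  refine Finset.sum_congr rfl fun i _ => ?_
  unfold BGraph.rowDeg
  rw [Finset.card_filter]
  refine Finset.sum_congr rfl fun j _ => ?_
  have h2 : ((finProdFinEquiv (i, j) : Fin (G.a * G.b)) : ℕ) = j + G.b * i := by
    rw [finProdFinEquiv_apply_val]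
  have h3 := j.2
  rw [h2, Nat.add_mul_div_left _ _ (by omega), Nat.div_eq_of_lt h3, Nat.zero_add,
    Nat.add_mul_mod_self_left, Nat.mod_eq_of_lt h3, BGraph.F_eq]

end Pool.Agent.Lib.Pa7c826t
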