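import Pool.Agent.Lib.Pa7c826t.ETotal
import Pool.Agent.Lib.Pa7c826t.EIndex
import Pool.Agent.Lib.Pa7c826t.EEnum

/-!
The reduction: estimate and class.
-/

namespace Pool.Agent.Lib.Pa7c826t

open Pool.Agent.Lib.Pa7c826

/-- left end of an edge -/
def xF (G : BGraph) (e : Fin (ecount G)) : Fin G.a := ⟨xI G e, xI_lt e.2⟩

/-- right end of an edge -/
def yF (G : BGraph) (e : Fin (ecount G)) : Fin G.b := ⟨yI G e, yI_lt e.2⟩

/-- first edge with the same left end -/
def rlF (G : BGraph) (e : Fin (ecount G)) : Fin (ecount G) :=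
  ⟨repI (ecount G) (xI G) e, repI_lt _ e.2⟩

/-- first edge with the same right end -/
def rrF (G : BGraph) (e : Fin (ecount G)) : Fin (ecount G) :=
  ⟨repI (ecount G) (yI G) e, repI_lt _ e.2⟩

theorem cnt_edges (G : BGraph) :
    cnt (fun i j => ∃ e, xF G e = i ∧ yF G e = j) = numIndep G.graph := by
  unfold BGraph.graph
  rw [numIndep_bip]
  congr 1
  funext i j
  apply propext
  rw [edge_iff]
  constructor
  · rintro ⟨e, h1, h2⟩
    exact ⟨e, e.2, h1, h2⟩
  · rintro ⟨e, he, h1, h2⟩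
    exact ⟨⟨e, he⟩, h1, h2⟩

/-- the abstract relation of the reduction -/
abbrev relE (G : BGraph) (t : ℕ) :=
  BRel (esrc (rlF G)) (etgt (rrF G)) (fun _ : EG (ecount G) => True)
    (ce G.a G.b (ecount G) t) (fE G.a G.b (ecount G) t)

theorem relE_iff (G : BGraph) (t : ℕ) (x y) :
    relE G t x y ↔
      F3 (ecount G) (ce G.a G.b (ecount G) t + 1) (fE G.a G.b (ecount G) t)
        (repI (ecount G) (xI G)) (repI (ecount G) (yI G))
        (eVE (ecount G) (ce G.a G.b (ecount G) t) (fE G.a G.b (ecount G) t) x)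
        (eVE (ecount G) (ce G.a G.b (ecount G) t) (fE G.a G.b (ecount G) t) y) = true :=
  F3_iff _ _ (rlF G) (rrF G) (fun _ => rfl) (fun _ => rfl) x y

theorem numIndep_redE (G : BGraph) (t : ℕ) :
    numIndep (redE G t).graph = cnt (relE G t) :=
  numIndep_mkGraph (eVE (ecount G) (ce G.a G.b (ecount G) t) (fE G.a G.b (ecount G) t))
    (eVE (ecount G) (ce G.a G.b (ecount G) t) (fE G.a G.b (ecount G) t)) (relE_iff G t)

theorem hf_fE (a b m t : ℕ) :
    (m + 1) * 6 * 2 ^ (m * 5 * (ce a b m t + 1)) * (4 * (2 * t + 1)) ≤ 2 ^ fE a b m t := by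
  unfold fE
  have h1 : (m + 1) * 6 ≤ 2 ^ ((m + 1) * 6) := Nat.lt_two_pow_self.le
  have h2 : 4 * (2 * t + 1) ≤ 2 ^ (2 * t + 2) := by
    rw [pow_add]
    have : 2 * t + 1 ≤ 2 ^ (2 * t) := Nat.lt_two_pow_self
    omega
  calc (m + 1) * 6 * 2 ^ (m * 5 * (ce a b m t + 1)) * (4 * (2 * t + 1))
      ≤ 2 ^ ((m + 1) * 6) * 2 ^ (m * 5 * (ce a b m t + 1)) * 2 ^ (2 * t + 2) :=
        Nat.mul_le_mul (Nat.mul_le_mul_right _ h1) h2
    _ = 2 ^ (m * 5 * (ce a b m t + 1) + (m + 1) * 6 + (2 * t + 2)) := by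
        rw [← pow_add, ← pow_add]
        congr 1
        ring
    _ ≤ _ := Nat.pow_le_pow_right (by norm_num) (by omega)

theorem redE_estimate (G : BGraph) (t : ℕ) :
    |(numIndep (redE G t).graph : ℚ) / 2 ^ KE G t - numIndep G.graph| ≤
      numIndep G.graph / (2 * t + 1) := by
  have h1 := efinal_estimate t (fE G.a G.b (ecount G) t) (xF G) (yF G) (rlF G) (rrF G)
    (fun e => Fin.ext (repI_spec (xI G) e.2))
    (fun e e' h => Fin.ext (repI_congr (xI G) (Fin.ext_iff.1 h)))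
    (fun e => Fin.ext (repI_spec (yI G) e.2))
    (fun e e' h => Fin.ext (repI_congr (yI G) (Fin.ext_iff.1 h)))
    (by rw [cnt_edges]; exact one_le_numIndep G) (hf_fE G.a G.b (ecount G) t)
    (by
      have h2 : G.a + G.b ≤ fE G.a G.b (ecount G) t := by unfold fE; omega
      calc G.a + G.b ≤ ecount G * 5 * (ce G.a G.b (ecount G) t + 1) +
            fE G.a G.b (ecount G) t := by omega
        _ ≤ (ecount G + 1) * 6 * (ecount G * 5 * (ce G.a G.b (ecount G) t + 1) +
            fE G.a G.b (ecount G) t) := Nat.le_mul_of_pos_left _ (by omega))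
  rw [cnt_edges] at h1
  rw [numIndep_redE]
  exact h1

/-- Regular bipartite graphs of degree `d` with `n ≤ d g(n)` vertices. -/
def RegularLe (g : ℕ → ℕ) (G : BGraph) : Prop :=
  ∃ d, (∀ i, G.rowDeg i = d) ∧ (∀ j, G.colDeg j = d) ∧ G.a + G.b ≤ d * g (G.a + G.b)

theorem redE_class {g : ℕ → ℕ} (hg : Monotone g) (G : BGraph) (t : ℕ)
    (hG : 12 * (ecount G + 1) ≤ g (G.a + G.b)) : RegularLe g (redE G t) := by
  refine ⟨dE G.a G.b (ecount G) t, ?_, ?_, ?_⟩
  · intro i
    obtain ⟨x, hx⟩ := (eVE (ecount G) (ce G.a G.b (ecount G) t)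
      (fE G.a G.b (ecount G) t)).surjective i
    have h1 := rowDeg_mkGraph (eVE (ecount G) (ce G.a G.b (ecount G) t)
      (fE G.a G.b (ecount G) t)) (eVE (ecount G) (ce G.a G.b (ecount G) t)
      (fE G.a G.b (ecount G) t)) (relE_iff G t) x
    have h2 : (redE G t).rowDeg i = {y | relE G t x y}.ncard := by
      rw [← hx]; exact h1
    rw [h2, ldeg (esrc_ne_etgt _ _) x, card_EG]
    rfl
  · intro i
    obtain ⟨x, hx⟩ := (eVE (ecount G) (ce G.a G.b (ecount G) t)
      (fE G.a G.b (ecount G) t)).surjective i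
    have h1 := colDeg_mkGraph (eVE (ecount G) (ce G.a G.b (ecount G) t)
      (fE G.a G.b (ecount G) t)) (eVE (ecount G) (ce G.a G.b (ecount G) t)
      (fE G.a G.b (ecount G) t)) (relE_iff G t) x
    have h2 : (redE G t).colDeg i = {y | relE G t y x}.ncard := by
      rw [← hx]; exact h1
    rw [h2, rdeg (esrc_ne_etgt _ _) x, card_EG]
    rfl
  · set d := dE G.a G.b (ecount G) t with hd
    show (ecount G + 1) * 6 * d + (ecount G + 1) * 6 * d ≤
      d * g ((ecount G + 1) * 6 * d + (ecount G + 1) * 6 * d)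
    have h2 : G.a + G.b ≤ d := by rw [hd]; unfold dE fE; omega
    have h3 : G.a + G.b ≤ (ecount G + 1) * 6 * d + (ecount G + 1) * 6 * d := by
      have : d ≤ (ecount G + 1) * 6 * d := Nat.le_mul_of_pos_left _ (by omega)
      omega
    calc (ecount G + 1) * 6 * d + (ecount G + 1) * 6 * d = d * (12 * (ecount G + 1)) := by ring
      _ ≤ d * g (G.a + G.b) := Nat.mul_le_mul_left _ hG
      _ ≤ _ := Nat.mul_le_mul_left _ (hg h3)

end Pool.Agent.Lib.Pa7c826t
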