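import Pool.Agent.Lib.Pa7c826t.EDef

/-!
The sum over the states of all blocks.
-/

namespace Pool.Agent.Lib.Pa7c826t

open Pool.Agent.Lib.Pa7c826

/-- splitting a state of the blocks -/
def stEquiv (m : ℕ) : (((Fin m → Bool) × (Fin m → Bool)) × (Fin m → Fin 4 → Bool)) ×
    (Fin 6 → Bool) ≃ (EB m → Bool) where
  toFun q x := Fin.lastCases (motive := fun _ => Fin 6 → Bool) q.2
    (fun e => Fin.cons (q.1.1.1 e) (Fin.cons (q.1.1.2 e) (q.1.2 e))) x.1 x.2
  invFun σ := (((fun e => σ (e.castSucc, 0), fun e => σ (e.castSucc, 1)),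
    fun e k => σ (e.castSucc, k.succ.succ)), fun k => σ (Fin.last m, k))
  left_inv q := by
    obtain ⟨⟨⟨s, t⟩, τ⟩, r⟩ := q
    simp only [Fin.lastCases_last, Fin.lastCases_castSucc]
    rfl
  right_inv σ := by
    funext x
    obtain ⟨i, k⟩ := x
    refine Fin.lastCases ?_ (fun e => ?_) i
    · simp only [Fin.lastCases_last]
    · simp only [Fin.lastCases_castSucc]
      refine Fin.cases ?_ (fun k => ?_) k
      · rfl
      · refine Fin.cases ?_ (fun k => ?_) k
        · rfl
        · rfl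

theorem esum_blocks {m : ℕ} (c : ℕ) (rl rr : Fin m → Fin m) :
    ∑ σ : EB m → Bool, ∏ g : EG m, wt c True (σ (esrc rl g)) (σ (etgt rr g)) =
      2 ^ 6 * ∑ s : Fin m → Bool, ∑ t : Fin m → Bool, ∏ e : Fin m,
        pw c True (s (rl e)) (t (rr e)) := by
  rw [← Equiv.sum_comp (stEquiv m), Fintype.sum_prod_type, Fintype.sum_prod_type,
    Fintype.sum_prod_type, Finset.mul_sum]
  refine Finset.sum_congr rfl fun s _ => ?_
  rw [Finset.mul_sum]
  refine Finset.sum_congr rfl fun t _ => ?_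
  have h1 : ∀ (τ : Fin m → Fin 4 → Bool) (r : Fin 6 → Bool),
      ∏ g : EG m, wt c True (stEquiv m (((s, t), τ), r) (esrc rl g))
        (stEquiv m (((s, t), τ), r) (etgt rr g)) =
      ∏ e : Fin m, (wt c True (s (rl e)) (t (rr e)) *
        wt c True (s (rl e)) (τ e 0) * wt c True (τ e 0) (τ e 1) *
        wt c True (τ e 2) (t (rr e)) * wt c True (τ e 3) (τ e 2)) := by
    intro τ r
    rw [Fintype.prod_prod_type]
    refine Finset.prod_congr rfl fun e _ => ?_
    rw [Fin.prod_univ_five]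
    simp only [stEquiv, Equiv.coe_fn_mk, esrc, etgt, Fin.lastCases_castSucc]
    rfl
  simp only [h1]
  simp only [Finset.sum_const, Finset.card_univ, Fintype.card_fun, Fintype.card_fin,
    Fintype.card_bool, smul_eq_mul]
  rw [← Finset.mul_sum]
  congr 1
  have h2 := Finset.prod_univ_sum (fun _ : Fin m => (Finset.univ : Finset (Fin 4 → Bool)))
    (fun e τ => wt c True (s (rl e)) (t (rr e)) *
        wt c True (s (rl e)) (τ 0) * wt c True (τ 0) (τ 1) *
        wt c True (τ 2) (t (rr e)) * wt c True (τ 3) (τ 2))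
  rw [Fintype.piFinset_univ] at h2
  rw [← h2]
  refine Finset.prod_congr rfl fun e _ => ?_
  rw [sum_four]
  unfold pw
  simp only [Fintype.sum_bool, Matrix.cons_val_zero, Matrix.cons_val_one, Matrix.cons_val]
  ring

theorem sum_rep {m a : ℕ} (x : Fin m → Fin a) (rep : Fin m → Fin m) (h1 : ∀ e, x (rep e) = x e)
    (h2 : ∀ e e', x e = x e' → rep e = rep e') (Φ : (Fin m → Bool) → ℕ) :
    (∑ σ : Fin m → Bool, Φ (fun e => σ (rep e))) * 2 ^ a =
      2 ^ m * ∑ s : Fin a → Bool, Φ (fun e => s (x e)) := by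
  classical
  have hrr : ∀ e, rep (rep e) = rep e := fun e => h2 _ _ (h1 e)
  -- the exchange
  let ψ : (Fin m → Bool) × (Fin a → Bool) → (Fin m → Bool) × (Fin a → Bool) := fun p =>
    (fun e => if rep e = e then p.2 (x e) else p.1 e,
      fun v => if h : ∃ e, x e = v then p.1 (rep h.choose) else p.2 v)
  have hψ2 : ∀ p e, (ψ p).2 (x e) = p.1 (rep e) := by
    intro p e
    have hex : ∃ e', x e' = x e := ⟨e, rfl⟩
    have hc : x hex.choose = x e := hex.choose_spec
    simp only [ψ]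
    rw [dif_pos hex, h2 _ _ hc]
  have hψ1 : ∀ p e, (ψ p).1 (rep e) = p.2 (x e) := by
    intro p e
    simp only [ψ]
    rw [if_pos (hrr e), h1 e]
  have hinv : Function.Involutive ψ := by
    intro p
    refine Prod.ext ?_ ?_
    · funext e
      show (if rep e = e then (ψ p).2 (x e) else (ψ p).1 e) = p.1 e
      split_ifs with h
      · rw [hψ2, h]
      · show (if rep e = e then p.2 (x e) else p.1 e) = p.1 e
        rw [if_neg h]
    · funext v
      show (if h : ∃ e, x e = v then (ψ p).1 (rep h.choose) else (ψ p).2 v) = p.2 v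
      split_ifs with h
      · rw [hψ1, h.choose_spec]
      · show (if h : ∃ e, x e = v then p.1 (rep h.choose) else p.2 v) = p.2 v
        rw [dif_neg h]
  have key : ∑ p : (Fin m → Bool) × (Fin a → Bool), Φ (fun e => p.1 (rep e)) =
      ∑ p : (Fin m → Bool) × (Fin a → Bool), Φ (fun e => p.2 (x e)) := by
    rw [← Equiv.sum_comp hinv.toPerm]
    refine Finset.sum_congr rfl fun p _ => ?_
    congr 1
    funext e
    exact hψ1 p e
  rw [Fintype.sum_prod_type, Fintype.sum_prod_type] at key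
  simp only [Finset.sum_const, Finset.card_univ, Fintype.card_fun, Fintype.card_fin,
    Fintype.card_bool, smul_eq_mul] at key
  rw [← Finset.mul_sum, mul_comm] at key
  exact key

/-- The sum over the block states in terms of the states of the vertices. -/
theorem esum_vertices {a b m : ℕ} (c : ℕ) (x : Fin m → Fin a) (y : Fin m → Fin b)
    (rl rr : Fin m → Fin m) (hl1 : ∀ e, x (rl e) = x e) (hl2 : ∀ e e', x e = x e' → rl e = rl e')
    (hr1 : ∀ e, y (rr e) = y e) (hr2 : ∀ e e', y e = y e' → rr e = rr e') :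
    (∑ σ : EB m → Bool, ∏ g : EG m, wt c True (σ (esrc rl g)) (σ (etgt rr g))) * 2 ^ (a + b) =
      2 ^ (6 + 2 * m) * ∑ p : (Fin a → Bool) × (Fin b → Bool), ∏ e : Fin m,
        pw c True (p.1 (x e)) (p.2 (y e)) := by
  rw [esum_blocks, Fintype.sum_prod_type]
  have e1 := sum_rep x rl hl1 hl2 (fun s' => ∑ t : Fin m → Bool, ∏ e : Fin m,
    pw c True (s' e) (t (rr e)))
  have e2 : ∀ s' : Fin m → Bool, (∑ t : Fin m → Bool, ∏ e : Fin m,
      pw c True (s' e) (t (rr e))) * 2 ^ b = 2 ^ m * ∑ t : Fin b → Bool, ∏ e : Fin m,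
      pw c True (s' e) (t (y e)) := fun s' =>
    sum_rep y rr hr1 hr2 (fun t' => ∏ e : Fin m, pw c True (s' e) (t' e))
  calc 2 ^ 6 * (∑ s : Fin m → Bool, ∑ t : Fin m → Bool, ∏ e : Fin m,
        pw c True (s (rl e)) (t (rr e))) * 2 ^ (a + b)
      = 2 ^ 6 * ((∑ s : Fin m → Bool, ∑ t : Fin m → Bool, ∏ e : Fin m,
        pw c True (s (rl e)) (t (rr e))) * 2 ^ a) * 2 ^ b := by rw [pow_add]; ring
    _ = 2 ^ 6 * (2 ^ m * ∑ s : Fin a → Bool, ∑ t : Fin m → Bool, ∏ e : Fin m,
        pw c True (s (x e)) (t (rr e))) * 2 ^ b := by rw [e1]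
    _ = 2 ^ 6 * 2 ^ m * ∑ s : Fin a → Bool, (∑ t : Fin m → Bool, ∏ e : Fin m,
        pw c True (s (x e)) (t (rr e))) * 2 ^ b := by rw [← Finset.sum_mul]; ring
    _ = 2 ^ 6 * 2 ^ m * ∑ s : Fin a → Bool, 2 ^ m * ∑ t : Fin b → Bool, ∏ e : Fin m,
        pw c True (s (x e)) (t (y e)) := by
          congr 1
          exact Finset.sum_congr rfl fun s _ => e2 (fun e => s (x e))
    _ = 2 ^ (6 + 2 * m) * ∑ s : Fin a → Bool, ∑ t : Fin b → Bool, ∏ e : Fin m,
        pw c True (s (x e)) (t (y e)) := by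
          rw [← Finset.mul_sum, pow_add, two_mul, pow_add]; ring

end Pool.Agent.Lib.Pa7c826t
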