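import Pool.Agent.Lib.Pa7c826t.Mahler

/-!
Finner's inequality on the cube: if every coordinate `u ∈ R` lies in exactly `p` of the sets
`N v`, `v ∈ V`, and `Φ v` depends only on the coordinates in `N v`, then the sum over all `B ⊆ R`
of the product of the `p`-th roots is at most the product of the `p`-th roots of the sums.

PROOF. Induction on `R` (`Finset.induction_on`), for all `N`, `Φ`. `R = ∅`: both sides are
`∏ Φ v ∅ ^ (1/p)`. Step `insert u R`, `u ∉ R`: `Finset.sum_powerset_insert` splits the left side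
into `∑_{B ⊆ R} (∏_v Φ v B ^ (1/p) + ∏_v Φ v (insert u B) ^ (1/p))`. Let `V₁ = V.filter (u ∈ N v)`
(`V₁.card = p`) and `V₂` the rest. For `v ∈ V₂` we have `Φ v (insert u B) = Φ v B` (locality), so
this is `∑_B (∏_{V₂} Φ v B ^ (1/p)) (∏_{V₁} Φ v B ^ (1/p) + ∏_{V₁} Φ v (insert u B) ^ (1/p))`, and
by `mahler` the bracket is at most `∏_{V₁} (Φ v B + Φ v (insert u B)) ^ (1/p)`. Apply the induction
hypothesis to `N' v = (N v).erase u`, `Φ' v B = if u ∈ N v then Φ v B + Φ v (insert u B) else Φ v B`
(local on `N' v`, nonnegative on subsets of `R`), and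
`∑_{B ⊆ N v} Φ v B = ∑_{B ⊆ (N v).erase u} Φ' v B` for `u ∈ N v` (again
`Finset.sum_powerset_insert`, `Finset.insert_erase`).
-/

namespace Pool.Agent.Lib.Pa7c826t

open Finset

theorem finner {ι κ : Type*} [DecidableEq κ] {p : ℕ} (hp : 1 ≤ p) (V : Finset ι) (R : Finset κ)
    (N : ι → Finset κ) (Φ : ι → Finset κ → ℝ) (hN : ∀ v ∈ V, N v ⊆ R)
    (hΦ : ∀ v ∈ V, ∀ B, B ⊆ R → 0 ≤ Φ v B)
    (hloc : ∀ v ∈ V, ∀ B, B ⊆ R → Φ v B = Φ v (B ∩ N v))
    (hcov : ∀ u ∈ R, (V.filter (fun v => u ∈ N v)).card = p) :
    ∑ B ∈ R.powerset, ∏ v ∈ V, Φ v B ^ ((1 : ℝ) / p) ≤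
      ∏ v ∈ V, (∑ B ∈ (N v).powerset, Φ v B) ^ ((1 : ℝ) / p) := by
  classical
  induction R using Finset.induction_on generalizing N Φ with
  | empty =>
    have hN' : ∀ v ∈ V, N v = ∅ := fun v hv => Finset.subset_empty.1 (hN v hv)
    simp only [Finset.powerset_empty, Finset.sum_singleton]
    apply le_of_eq
    apply Finset.prod_congr rfl
    intro v hv
    rw [hN' v hv, Finset.powerset_empty, Finset.sum_singleton]
  | insert u R hu ih =>
    set Φ' : ι → Finset κ → ℝ := fun v B =>
      if u ∈ N v then Φ v B + Φ v (insert u B) else Φ v B with hΦ'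
    have hBu : ∀ B, B ⊆ R → B ⊆ insert u R := fun B hB => hB.trans (Finset.subset_insert u R)
    have hBi : ∀ B, B ⊆ R → insert u B ⊆ insert u R := fun B hB => Finset.insert_subset_insert u hB
    have hih := ih (fun v => (N v).erase u) Φ'
      (by
        intro v hv x hx
        rw [Finset.mem_erase] at hx
        have := hN v hv hx.2
        rw [Finset.mem_insert] at this
        exact this.resolve_left hx.1)
      (by
        intro v hv B hB
        simp only [hΦ']
        split_ifs
        · exact add_nonneg (hΦ v hv _ (hBu B hB)) (hΦ v hv _ (hBi B hB))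
        · exact hΦ v hv _ (hBu B hB))
      (by
        intro v hv B hB
        have huB : u ∉ B := fun h => hu (hB h)
        simp only [hΦ']
        have key : B ∩ (N v).erase u = B ∩ N v := by
          ext x
          simp only [Finset.mem_inter, Finset.mem_erase]
          constructor
          · rintro ⟨h1, _, h2⟩
            exact ⟨h1, h2⟩
          · rintro ⟨h1, h2⟩
            exact ⟨h1, fun h => huB (h ▸ h1), h2⟩
        rw [key]
        split_ifs with hm
        · rw [← hloc v hv B (hBu B hB)]
          congr 1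
          rw [hloc v hv _ (hBi B hB), hloc v hv (insert u (B ∩ N v)) (hBi _ (Finset.inter_subset_left.trans hB))]
          congr 1
          ext x
          simp only [Finset.mem_inter, Finset.mem_insert]
          tauto
        · exact hloc v hv B (hBu B hB))
      (by
        intro w hw
        have hwu : w ≠ u := fun h => hu (h ▸ hw)
        rw [← hcov w (Finset.mem_insert_of_mem hw)]
        congr 1
        apply Finset.filter_congr
        intro v _
        simp only [Finset.mem_erase]
        exact ⟨fun h => h.2, fun h => ⟨hwu, h⟩⟩)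
    have hright : ∏ v ∈ V, (∑ B ∈ (N v).powerset, Φ v B) ^ ((1 : ℝ) / p) =
        ∏ v ∈ V, (∑ B ∈ ((N v).erase u).powerset, Φ' v B) ^ ((1 : ℝ) / p) := by
      apply Finset.prod_congr rfl
      intro v hv
      congr 1
      by_cases hm : u ∈ N v
      · conv_lhs => rw [← Finset.insert_erase hm]
        rw [Finset.sum_powerset_insert (Finset.notMem_erase u (N v)), ← Finset.sum_add_distrib]
        apply Finset.sum_congr rfl
        intro B _
        simp only [hΦ', if_pos hm]
      · rw [Finset.erase_eq_of_notMem hm]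
        apply Finset.sum_congr rfl
        intro B _
        simp only [hΦ', if_neg hm]
    rw [hright]
    refine le_trans ?_ hih
    rw [Finset.sum_powerset_insert hu, ← Finset.sum_add_distrib]
    apply Finset.sum_le_sum
    intro B hB
    rw [Finset.mem_powerset] at hB
    have huB : u ∉ B := fun h => hu (hB h)
    rw [← Finset.prod_filter_mul_prod_filter_not V (fun v => u ∈ N v),
      ← Finset.prod_filter_mul_prod_filter_not V (fun v => u ∈ N v)
        (fun v => Φ v (insert u B) ^ ((1 : ℝ) / p)),
      ← Finset.prod_filter_mul_prod_filter_not V (fun v => u ∈ N v)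
        (fun v => Φ' v B ^ ((1 : ℝ) / p))]
    have e1 : ∏ v ∈ V.filter (fun v => ¬ u ∈ N v), Φ v (insert u B) ^ ((1 : ℝ) / p) =
        ∏ v ∈ V.filter (fun v => ¬ u ∈ N v), Φ v B ^ ((1 : ℝ) / p) := by
      apply Finset.prod_congr rfl
      intro v hv
      rw [Finset.mem_filter] at hv
      congr 1
      rw [hloc v hv.1 _ (hBi B hB), hloc v hv.1 B (hBu B hB)]
      congr 1
      ext x
      simp only [Finset.mem_inter, Finset.mem_insert]
      constructor
      · rintro ⟨h1 | h1, h2⟩
        · exact absurd (h1 ▸ h2) hv.2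
        · exact ⟨h1, h2⟩
      · rintro ⟨h1, h2⟩
        exact ⟨Or.inr h1, h2⟩
    have e2 : ∏ v ∈ V.filter (fun v => ¬ u ∈ N v), Φ' v B ^ ((1 : ℝ) / p) =
        ∏ v ∈ V.filter (fun v => ¬ u ∈ N v), Φ v B ^ ((1 : ℝ) / p) := by
      apply Finset.prod_congr rfl
      intro v hv
      rw [Finset.mem_filter] at hv
      simp only [hΦ', if_neg hv.2]
    have e3 : ∏ v ∈ V.filter (fun v => u ∈ N v), Φ' v B ^ ((1 : ℝ) / p) =
        ∏ v ∈ V.filter (fun v => u ∈ N v), (Φ v B + Φ v (insert u B)) ^ ((1 : ℝ) / p) := by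
      apply Finset.prod_congr rfl
      intro v hv
      rw [Finset.mem_filter] at hv
      simp only [hΦ', if_pos hv.2]
    rw [e1, e2, e3, ← add_mul]
    apply mul_le_mul_of_nonneg_right
    · exact mahler _ hp (hcov u (Finset.mem_insert_self u R)) _ _
        (fun i hi => hΦ i (Finset.mem_filter.1 hi).1 _ (hBu B hB))
        (fun i hi => hΦ i (Finset.mem_filter.1 hi).1 _ (hBi B hB))
    · apply Finset.prod_nonneg
      intro v hv
      exact Real.rpow_nonneg (hΦ v (Finset.mem_filter.1 hv).1 _ (hBu B hB)) _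

end Pool.Agent.Lib.Pa7c826t
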