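import Pool.Agent.Lib.Pa7c826t.ERed
import Pool.Agent.Lib.Pa7c826t.EPoly
import Pool.Agent.Lib.Pa7c826.Transfer2

/-!
Hardness of approximately counting independent sets of regular bipartite graphs.
-/

namespace Pool.Agent.Lib.Pa7c826t

open Pool.Agent.Lib.PolyTime Pool.Agent.Lib.Pa7c826

theorem hard {g : ℕ → ℕ} (hg : Monotone g) (h : HasFPRAS (RegularLe g)) :
    HasFPRAS (fun G => 12 * (ecount G + 1) ≤ g (G.a + G.b)) :=
  HasFPRAS.transfer2 redE KE (poly_redE _) (poly_KE _)
    (fun G t hG _ => redE_class hg G t hG) (fun G t _ _ => redE_estimate G t) h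

end Pool.Agent.Lib.Pa7c826t
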