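import Pool.Agent.Lib.Pa7c826t.Finner
import Pool.Agent.Lib.Pa7c826t.WInd

/-!
Matchings of induced subgraphs of bipartite graphs.
-/

namespace Pool.Agent.Lib.Pa7c826t

open Finset Pool.Agent.Lib.Pa7c826

/-- `M` is a matching of the subgraph induced by `S`, given by pairs with first entry on the
side `p`. -/
structure IsMat (adj : ℕ → ℕ → Bool) (p : ℕ → Prop) (S : Finset ℕ) (M : Finset (ℕ × ℕ)) :
    Prop where
  left_mem : ∀ e ∈ M, e.1 ∈ S
  left_p : ∀ e ∈ M, p e.1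
  right_mem : ∀ e ∈ M, e.2 ∈ S
  edge : ∀ e ∈ M, adj e.1 e.2 = true
  inj_left : ∀ e ∈ M, ∀ f ∈ M, e.1 = f.1 → e = f
  inj_right : ∀ e ∈ M, ∀ f ∈ M, e.2 = f.2 → e = f

end Pool.Agent.Lib.Pa7c826t
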