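import Pool.Agent.Lib.Pa7c826t.LeafDef

/-!
Hölder bound for the number of independent sets of a graph of small maximum degree in terms of a
matching.

PROOF. Let `L = S.filter p`, `R = S.filter (¬ p)`, `N v = R.filter (adj v ·)`, `l = |L|`,
`m' = q / 2` (so `dg adj S u ≤ m'` for all `u ∈ S` and `m' ≤ q - dg adj S u`). By `wind_one` and
`wind_eq_sum` with `lam = 1`: `i(S) = ∑_{B ⊆ R} 2 ^ #{v ∈ L : N v ∩ B = ∅}`. Apply `finner` with
exponent `q` to the index set `L` together with `q - dg adj S u` extra indices `(u, k)`,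
`k < q - dg adj S u`, for every `u ∈ R`, sets `N v` and `{u}`. For `v ∈ L`:
`Φ v B = (if B ∩ N v = ∅ then 2 ^ q else 1) * ∏_{(v, u) ∈ M} (if u ∈ B then 2 ^ m' else 1)`, and
`Φ (u,k) B = ∏_{(w, u) ∈ M} (if u ∈ B then 1/2 else 1)` for `k < m'` and `1` otherwise. The product
over all indices of `Φ ^ (1/q)` is `2 ^ #{v : N v ∩ B = ∅}` (the powers of `2` at a matched `u ∈ B`
cancel). Every `u ∈ R` is in exactly `q` sets. Sums: for `v ∈ L` at most
`2 ^ q + 2 ^ (dg v) 2 ^ m' ≤ 2 ^ (q + 1)`; for `(u,k)` with `u` matched and `k < m'`: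
`3/2 = 2 * (3/4)`; otherwise `2`.
-/

namespace Pool.Agent.Lib.Pa7c826t

open Finset Pool.Agent.Lib.Pa7c826

/-- the power form of Finner's inequality -/
theorem lh_finner_pow {ι κ : Type*} [DecidableEq κ] {p : ℕ} (hp : 1 ≤ p) (V : Finset ι)
    (R : Finset κ) (N : ι → Finset κ) (Φ : ι → Finset κ → ℝ) (hN : ∀ v ∈ V, N v ⊆ R)
    (hΦ : ∀ v ∈ V, ∀ B, B ⊆ R → 0 ≤ Φ v B)
    (hloc : ∀ v ∈ V, ∀ B, B ⊆ R → Φ v B = Φ v (B ∩ N v))
    (hcov : ∀ u ∈ R, (V.filter (fun v => u ∈ N v)).card = p) (F : Finset κ → ℝ)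
    (hF : ∀ B, B ⊆ R → 0 ≤ F B) (hprod : ∀ B, B ⊆ R → ∏ v ∈ V, Φ v B = F B ^ p) :
    (∑ B ∈ R.powerset, F B) ^ p ≤ ∏ v ∈ V, ∑ B ∈ (N v).powerset, Φ v B := by
  have hp0 : p ≠ 0 := by omega
  have h := finner hp V R N Φ hN hΦ hloc hcov
  have hnn : ∀ v ∈ V, 0 ≤ ∑ B ∈ (N v).powerset, Φ v B := fun v hv =>
    sum_nonneg fun B hB => hΦ v hv B ((mem_powerset.1 hB).trans (hN v hv))
  have e1 : ∑ B ∈ R.powerset, ∏ v ∈ V, Φ v B ^ ((1 : ℝ) / p) = ∑ B ∈ R.powerset, F B := by
    refine sum_congr rfl fun B hB => ?_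
    have hB' := mem_powerset.1 hB
    rw [Real.finsetProd_rpow _ _ (fun v hv => hΦ v hv B hB'), hprod B hB', one_div,
      Real.pow_rpow_inv_natCast (hF B hB') hp0]
  rw [e1, Real.finsetProd_rpow _ _ hnn] at h
  calc (∑ B ∈ R.powerset, F B) ^ p
      ≤ ((∏ v ∈ V, ∑ B ∈ (N v).powerset, Φ v B) ^ ((1 : ℝ) / p)) ^ p := by
        apply pow_le_pow_left₀ (sum_nonneg fun B hB => hF B (mem_powerset.1 hB)) h
    _ = ∏ v ∈ V, ∑ B ∈ (N v).powerset, Φ v B := by
        rw [one_div, Real.rpow_inv_natCast_pow (prod_nonneg hnn) hp0]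

theorem leaf_holder {adj : ℕ → ℕ → Bool} (hs : ∀ u v, adj u v = adj v u) (p : ℕ → Prop)
    [DecidablePred p] (hbip : ∀ u v, adj u v = true → (p u ↔ ¬ p v)) {S : Finset ℕ} {q : ℕ}
    (hq : 1 ≤ q) (hdeg : ∀ v ∈ S, 2 * dg adj S v ≤ q) {M : Finset (ℕ × ℕ)}
    (hM : IsMat adj p S M) :
    (ind adj S : ℝ) ^ q ≤ 2 ^ ((q + 1) * (S.filter (fun v => p v)).card +
      ∑ u ∈ S.filter (fun u => ¬ p u), (q - dg adj S u)) * (3 / 4) ^ (M.card * (q / 2)) := by
  classical
  set L := S.filter (fun v => p v) with hL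
  set R := S.filter (fun u => ¬ p u) with hR
  set m := q / 2 with hm
  set N : ℕ → Finset ℕ := fun v => R.filter (fun u => adj v u = true) with hN
  set h : ℕ → Finset ℕ → ℝ :=
    fun v B => ∏ e ∈ M.filter (fun e => e.1 = v), (if e.2 ∈ B then (2 : ℝ) ^ m else 1) with hh
  set g : ℕ → Finset ℕ → ℝ :=
    fun u B => ∏ e ∈ M.filter (fun e => e.2 = u), (if e.2 ∈ B then (1 / 2 : ℝ) else 1) with hg
  set V : Finset (ℕ ⊕ (Σ _ : ℕ, ℕ)) :=
    L.disjSum (R.sigma fun u => range (q - dg adj S u)) with hV
  set N' : (ℕ ⊕ (Σ _ : ℕ, ℕ)) → Finset ℕ := Sum.elim N (fun x => {x.1}) with hN'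
  set Φ : (ℕ ⊕ (Σ _ : ℕ, ℕ)) → Finset ℕ → ℝ :=
    Sum.elim (fun v B => (if B ∩ N v = ∅ then (2 : ℝ) ^ q else 1) * h v B)
      (fun x B => if x.2 < m then g x.1 B else 1) with hΦ
  have hML : ∀ e ∈ M, e.1 ∈ L := fun e he =>
    mem_filter.2 ⟨hM.left_mem e he, hM.left_p e he⟩
  have hMR : ∀ e ∈ M, e.2 ∈ R := fun e he =>
    mem_filter.2 ⟨hM.right_mem e he, (hbip _ _ (hM.edge e he)).1 (hM.left_p e he)⟩
  have hMN : ∀ e ∈ M, e.2 ∈ N e.1 := fun e he => mem_filter.2 ⟨hMR e he, hM.edge e he⟩
  have hh0 : ∀ v B, 0 ≤ h v B := fun v B =>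
    prod_nonneg fun e _ => by split_ifs <;> positivity
  have hg0 : ∀ u B, 0 ≤ g u B := fun u B =>
    prod_nonneg fun e _ => by split_ifs <;> positivity
  have hcard1 : ∀ v, (M.filter (fun e => e.1 = v)).card ≤ 1 := by
    intro v
    rw [card_le_one]
    intro e he f hf
    rw [mem_filter] at he hf
    exact hM.inj_left e he.1 f hf.1 (he.2.trans hf.2.symm)
  have hcard2 : ∀ u, (M.filter (fun e => e.2 = u)).card ≤ 1 := by
    intro v
    rw [card_le_one]
    intro e he f hf
    rw [mem_filter] at he hf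
    exact hM.inj_right e he.1 f hf.1 (he.2.trans hf.2.symm)
  have hdegL : ∀ v ∈ L, (N v).card ≤ m := by
    intro v hv
    have h1 := hdeg v (mem_filter.1 hv).1
    have h2 : (N v).card ≤ dg adj S v := by
      unfold dg
      apply card_le_card
      intro u hu
      rw [mem_filter] at hu
      exact mem_filter.2 ⟨(mem_filter.1 hu.1).1, hu.2⟩
    omega
  have hdegR : ∀ u ∈ R, m ≤ q - dg adj S u := by
    intro v hv
    have h1 := hdeg v (mem_filter.1 hv).1
    omega
  -- the function of the expansion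
  set F : Finset ℕ → ℝ := fun B => 2 ^ (L.filter (fun v => ∀ u ∈ B, adj v u = false)).card with hF
  have hind : (ind adj S : ℝ) = ∑ B ∈ R.powerset, F B := by
    rw [← wind_one, wind_eq_sum hs p hbip]
    refine sum_congr rfl fun B _ => ?_
    simp only [one_pow, one_mul, hF, hL]
    norm_num
  have hmain := lh_finner_pow hq V R N' Φ ?_ ?_ ?_ ?_ F ?_ ?_
  · rw [hind]
    refine hmain.trans ?_
    rw [hV, prod_disjSum, prod_sigma]
    have c1 : ∏ v ∈ L, ∑ B ∈ (N' (Sum.inl v)).powerset, Φ (Sum.inl v) B ≤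
        ((2 : ℝ) ^ (q + 1)) ^ L.card := by
      rw [← prod_const]
      refine prod_le_prod (fun v _ => sum_nonneg fun B _ => ?_) fun v hv => ?_
      · simp only [hΦ, Sum.elim_inl]
        have := hh0 v B
        split_ifs <;> positivity
      · simp only [hΦ, Sum.elim_inl, hN']
        have h1 : ∀ B ∈ (N v).powerset, (if B ∩ N v = ∅ then (2 : ℝ) ^ q else 1) * h v B ≤
            (if B = ∅ then (2 : ℝ) ^ q else 0) + 2 ^ m := by
          intro B hB
          rw [inter_eq_left.2 (mem_powerset.1 hB)]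
          by_cases hB0 : B = ∅
          · have h2 : h v B = 1 := by
              subst hB0
              simp [hh]
            rw [h2, if_pos hB0, if_pos hB0, mul_one]
            linarith [pow_pos (two_pos : (0 : ℝ) < 2) m]
          · rw [if_neg hB0, if_neg hB0, one_mul, zero_add]
            calc h v B ≤ ∏ _e ∈ M.filter (fun e => e.1 = v), (2 : ℝ) ^ m := by
                  refine prod_le_prod (fun e _ => by split_ifs <;> positivity) fun e _ => ?_
                  split_ifs
                  · exact le_rfl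
                  · exact one_le_pow₀ (by norm_num)
              _ ≤ ((2 : ℝ) ^ m) ^ 1 := by
                  rw [prod_const]
                  exact pow_le_pow_right₀ (one_le_pow₀ (by norm_num)) (hcard1 v)
              _ = 2 ^ m := pow_one _
        have h3 : ∑ B ∈ (N v).powerset, (if B = ∅ then (2 : ℝ) ^ q else 0) = 2 ^ q := by
          rw [sum_ite_eq' (N v).powerset ∅ (fun _ => (2 : ℝ) ^ q), if_pos (empty_mem_powerset _)]
        refine (sum_le_sum h1).trans ?_
        rw [sum_add_distrib, h3, sum_const, card_powerset, nsmul_eq_mul]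
        push_cast
        rw [← pow_add]
        have h4 : (2 : ℝ) ^ ((N v).card + m) ≤ 2 ^ q :=
          pow_le_pow_right₀ (by norm_num) (by have := hdegL v hv; omega)
        rw [pow_succ]
        linarith
    have c2 : ∏ u ∈ R, ∏ k ∈ range (q - dg adj S u),
        ∑ B ∈ (N' (Sum.inr ⟨u, k⟩)).powerset, Φ (Sum.inr ⟨u, k⟩) B ≤
        2 ^ (∑ u ∈ R, (q - dg adj S u)) * (3 / 4) ^ (M.card * m) := by
      have h1 : ∀ u ∈ R, ∏ k ∈ range (q - dg adj S u),
          ∑ B ∈ (N' (Sum.inr ⟨u, k⟩)).powerset, Φ (Sum.inr ⟨u, k⟩) B =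
          (2 : ℝ) ^ (q - dg adj S u) * (3 / 4) ^ ((M.filter (fun e => e.2 = u)).card * m) := by
        intro u hu
        have h2 : ∀ k, ∑ B ∈ (N' (Sum.inr ⟨u, k⟩)).powerset, Φ (Sum.inr ⟨u, k⟩) B =
            2 * (if k < m then (3 / 4 : ℝ) ^ (M.filter (fun e => e.2 = u)).card else 1) := by
          intro k
          have h3 : g u ∅ = 1 := by simp [hg]
          have h4 : g u {u} = (1 / 2 : ℝ) ^ (M.filter (fun e => e.2 = u)).card := by
            rw [hg, ← prod_const]
            refine prod_congr rfl fun e he => ?_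
            rw [if_pos (by rw [mem_singleton]; exact (mem_filter.1 he).2)]
          have h5 : (N' (Sum.inr ⟨u, k⟩)).powerset = {∅, {u}} := by
            simp only [hN', Sum.elim_inr]
            rfl
          rw [h5, sum_pair (singleton_ne_empty u).symm]
          simp only [hΦ, Sum.elim_inr]
          rw [h3, h4]
          by_cases hk : k < m
          · rw [if_pos hk, if_pos hk, if_pos hk]
            have h6 := hcard2 u
            interval_cases (M.filter (fun e => e.2 = u)).card <;> norm_num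
          · rw [if_neg hk, if_neg hk, if_neg hk]
            norm_num
        rw [prod_congr rfl (fun k _ => h2 k), prod_mul_distrib, prod_const, card_range, prod_ite,
          prod_const, prod_const_one, mul_one, ← pow_mul]
        have e3 : ((range (q - dg adj S u)).filter (fun k => k < m)).card = m := by
          have : (range (q - dg adj S u)).filter (fun k => k < m) = range m := by
            ext k
            simp only [mem_filter, mem_range]
            have := hdegR u hu
            omega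
          rw [this, card_range]
        rw [e3]
      rw [prod_congr rfl h1, prod_mul_distrib, prod_pow_eq_pow_sum, prod_pow_eq_pow_sum,
        ← sum_mul, ← card_eq_sum_card_fiberwise hMR]
    have c3 : (0 : ℝ) ≤ ∏ u ∈ R, ∏ k ∈ range (q - dg adj S u),
        ∑ B ∈ (N' (Sum.inr ⟨u, k⟩)).powerset, Φ (Sum.inr ⟨u, k⟩) B := by
      refine prod_nonneg fun u _ => prod_nonneg fun k _ => sum_nonneg fun B _ => ?_
      simp only [hΦ, Sum.elim_inr]
      have := hg0 u B
      split_ifs <;> positivity
    calc _ ≤ ((2 : ℝ) ^ (q + 1)) ^ L.card *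
          (2 ^ (∑ u ∈ R, (q - dg adj S u)) * (3 / 4) ^ (M.card * m)) :=
          mul_le_mul c1 c2 c3 (by positivity)
      _ = _ := by
          rw [← pow_mul, ← mul_assoc, ← pow_add]
  · -- subsets
    rintro (v | ⟨u, k⟩) hv
    · exact filter_subset _ _
    · rw [hV, inr_mem_disjSum, mem_sigma] at hv
      simpa [hN'] using hv.1
  · -- nonneg
    rintro (v | ⟨u, k⟩) hv B hB
    · simp only [hΦ, Sum.elim_inl]
      have := hh0 v B
      split_ifs <;> positivity
    · simp only [hΦ, Sum.elim_inr]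
      have := hg0 u B
      split_ifs <;> positivity
  · -- locality
    rintro (v | ⟨u, k⟩) hv B hB
    · simp only [hΦ, Sum.elim_inl, hN', inter_assoc, inter_self]
      congr 1
      refine prod_congr rfl fun e he => ?_
      rw [mem_filter] at he
      have h1 := hMN e he.1
      rw [he.2] at h1
      simp [h1]
    · simp only [hΦ, Sum.elim_inr, hN']
      congr 1
      refine prod_congr rfl fun e he => ?_
      rw [mem_filter] at he
      simp [he.2]
  · -- coverage
    intro u hu
    have e1 : V.filter (fun v => u ∈ N' v) =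
        (L.filter (fun v => u ∈ N v)).disjSum
          (({u} : Finset ℕ).sigma fun u => range (q - dg adj S u)) := by
      ext x
      rcases x with v | ⟨w, k⟩
      · simp only [hV, hN', mem_filter, inl_mem_disjSum, Sum.elim_inl]
      · simp only [hV, hN', mem_filter, inr_mem_disjSum, Sum.elim_inr, mem_sigma, mem_singleton]
        constructor
        · rintro ⟨⟨_, h2⟩, h3⟩
          exact ⟨h3.symm, h2⟩
        · rintro ⟨h1, h2⟩
          subst h1
          exact ⟨⟨hu, h2⟩, rfl⟩
    have e2 : L.filter (fun v => u ∈ N v) = S.filter (fun v => adj u v = true) := by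
      ext v
      simp only [hL, hN, mem_filter]
      constructor
      · rintro ⟨⟨h1, _⟩, _, h2⟩
        exact ⟨h1, by rw [hs]; exact h2⟩
      · rintro ⟨h1, h2⟩
        rw [hs] at h2
        refine ⟨⟨h1, ?_⟩, hu, h2⟩
        exact (hbip _ _ h2).2 (mem_filter.1 hu).2
    have e3 := hdegR u hu
    have e4 := hdeg u (mem_filter.1 hu).1
    rw [e1, card_disjSum, card_sigma, sum_singleton, card_range, e2]
    unfold dg at *
    omega
  · intro B _
    positivity
  · -- product
    intro B hB
    rw [hV, prod_disjSum, prod_sigma]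
    have e1 : ∏ v ∈ L, Φ (Sum.inl v) B =
        F B ^ q * ∏ e ∈ M, (if e.2 ∈ B then (2 : ℝ) ^ m else 1) := by
      simp only [hΦ, Sum.elim_inl, prod_mul_distrib]
      congr 1
      · rw [prod_ite, prod_const, prod_const_one, mul_one, hF]
        simp only
        rw [← pow_mul, ← pow_mul, mul_comm]
        congr 3
        ext v
        simp only [mem_filter, and_congr_right_iff]
        intro hv
        rw [eq_empty_iff_forall_notMem]
        constructor
        · intro h1 u hu
          by_contra h2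
          rw [Bool.not_eq_false] at h2
          exact h1 u (mem_inter.2 ⟨hu, mem_filter.2 ⟨hB hu, h2⟩⟩)
        · intro h1 u hu
          rw [mem_inter, hN, mem_filter] at hu
          rw [h1 u hu.1] at hu
          exact absurd hu.2.2 (by simp)
      · exact prod_fiberwise_of_maps_to hML _
    have e2 : ∏ u ∈ R, ∏ k ∈ range (q - dg adj S u), Φ (Sum.inr ⟨u, k⟩) B =
        ∏ e ∈ M, (if e.2 ∈ B then (1 / 2 : ℝ) ^ m else 1) := by
      rw [← prod_fiberwise_of_maps_to hMR]
      refine prod_congr rfl fun u hu => ?_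
      simp only [hΦ, Sum.elim_inr]
      rw [prod_ite, prod_const, prod_const_one, mul_one]
      have e3 : ((range (q - dg adj S u)).filter (fun k => k < m)).card = m := by
        have : (range (q - dg adj S u)).filter (fun k => k < m) = range m := by
          ext k
          simp only [mem_filter, mem_range]
          have := hdegR u hu
          omega
        rw [this, card_range]
      rw [e3, hg]
      simp only
      rw [← prod_pow]
      refine prod_congr rfl fun e _ => ?_
      split_ifs <;> simp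
    rw [e1, e2, mul_assoc, ← prod_mul_distrib]
    have e4 : ∏ e ∈ M, ((if e.2 ∈ B then (2 : ℝ) ^ m else 1) *
        (if e.2 ∈ B then (1 / 2 : ℝ) ^ m else 1)) = 1 := by
      refine prod_eq_one fun e _ => ?_
      split_ifs
      · rw [← mul_pow]
        norm_num
      · norm_num
    rw [e4, mul_one]

end Pool.Agent.Lib.Pa7c826t
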