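import Mathlib

/-!
Hölder's inequality for several functions on a two point set (Mahler's inequality).

PROOF. If `x i + y i = 0` for some `i ∈ s`, then `x i = y i = 0` and all three products vanish
(`0 ^ (1/p) = 0` as `p ≥ 1`). Otherwise divide by the right hand side: with
`a i = x i / (x i + y i)` and `b i = y i / (x i + y i)` (`a i + b i = 1`) the weighted AM-GM
inequality (`Real.geom_mean_le_arith_mean_weighted` with weights `1/p`) gives
`∏ a i ^ (1/p) ≤ (∑ a i) / p` and `∏ b i ^ (1/p) ≤ (∑ b i) / p`, and the two right hand sides add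
up to `1`. Use `Real.div_rpow`, `Finset.prod_div_distrib`.
-/

namespace Pool.Agent.Lib.Pa7c826t

open Finset

/-- Mahler's inequality: for `p` nonnegative pairs,
`∏ x_i ^ (1/p) + ∏ y_i ^ (1/p) ≤ ∏ (x_i + y_i) ^ (1/p)`. -/
theorem mahler {ι : Type*} (s : Finset ι) {p : ℕ} (hp : 1 ≤ p) (hs : s.card = p)
    (x y : ι → ℝ) (hx : ∀ i ∈ s, 0 ≤ x i) (hy : ∀ i ∈ s, 0 ≤ y i) :
    ∏ i ∈ s, x i ^ ((1 : ℝ) / p) + ∏ i ∈ s, y i ^ ((1 : ℝ) / p) ≤
      ∏ i ∈ s, (x i + y i) ^ ((1 : ℝ) / p) := by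
  have hp0 : (p : ℝ) ≠ 0 := by positivity
  have hpi : (1 : ℝ) / p ≠ 0 := by positivity
  by_cases h : ∃ i ∈ s, x i + y i = 0
  · obtain ⟨i, hi, h0⟩ := h
    have hxi : x i = 0 := le_antisymm (by linarith [hy i hi]) (hx i hi)
    have hyi : y i = 0 := le_antisymm (by linarith [hx i hi]) (hy i hi)
    rw [Finset.prod_eq_zero hi (by rw [hxi, Real.zero_rpow hpi]),
      Finset.prod_eq_zero hi (by rw [hyi, Real.zero_rpow hpi]),
      Finset.prod_eq_zero hi (by rw [h0, Real.zero_rpow hpi]), add_zero]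
  · push Not at h
    have hpos : ∀ i ∈ s, 0 < x i + y i := fun i hi =>
      lt_of_le_of_ne (add_nonneg (hx i hi) (hy i hi)) (Ne.symm (h i hi))
    have hw : ∑ _i ∈ s, (1 : ℝ) / p = 1 := by
      rw [Finset.sum_const, hs, nsmul_eq_mul, mul_one_div, div_self hp0]
    have h1 := Real.geom_mean_le_arith_mean_weighted s (fun _ => (1 : ℝ) / p)
      (fun i => x i / (x i + y i)) (fun i _ => by positivity) hw
      (fun i hi => div_nonneg (hx i hi) (hpos i hi).le)
    have h2 := Real.geom_mean_le_arith_mean_weighted s (fun _ => (1 : ℝ) / p)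
      (fun i => y i / (x i + y i)) (fun i _ => by positivity) hw
      (fun i hi => div_nonneg (hy i hi) (hpos i hi).le)
    have h3 : ∑ i ∈ s, (1 : ℝ) / p * (x i / (x i + y i)) +
        ∑ i ∈ s, (1 : ℝ) / p * (y i / (x i + y i)) = 1 := by
      rw [← Finset.sum_add_distrib, ← hw]
      apply Finset.sum_congr rfl
      intro i hi
      rw [← mul_add, ← add_div, div_self (hpos i hi).ne', mul_one, hw]
    have hP : 0 < ∏ i ∈ s, (x i + y i) ^ ((1 : ℝ) / p) :=
      Finset.prod_pos fun i hi => Real.rpow_pos_of_pos (hpos i hi) _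
    have e1 : ∏ i ∈ s, (x i / (x i + y i)) ^ ((1 : ℝ) / p) =
        (∏ i ∈ s, x i ^ ((1 : ℝ) / p)) / ∏ i ∈ s, (x i + y i) ^ ((1 : ℝ) / p) := by
      rw [← Finset.prod_div_distrib]
      exact Finset.prod_congr rfl fun i hi => Real.div_rpow (hx i hi) (hpos i hi).le _
    have e2 : ∏ i ∈ s, (y i / (x i + y i)) ^ ((1 : ℝ) / p) =
        (∏ i ∈ s, y i ^ ((1 : ℝ) / p)) / ∏ i ∈ s, (x i + y i) ^ ((1 : ℝ) / p) := by
      rw [← Finset.prod_div_distrib]
      exact Finset.prod_congr rfl fun i hi => Real.div_rpow (hy i hi) (hpos i hi).le _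
    rw [e1] at h1
    rw [e2] at h2
    have h4 : (∏ i ∈ s, x i ^ ((1 : ℝ) / p) + ∏ i ∈ s, y i ^ ((1 : ℝ) / p)) /
        ∏ i ∈ s, (x i + y i) ^ ((1 : ℝ) / p) ≤ 1 := by
      rw [add_div]
      linarith
    rwa [div_le_one hP] at h4

end Pool.Agent.Lib.Pa7c826t
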