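import Pool.Agent.Lib.Pa7c826t.TreeDef

/-!
Properties of the branching tree.

PROOFS. All by induction on `t`. `plv_eq`: `kids S = (kidsw (S, s)).map Prod.fst`; a node that is
not alive has no alive children (`kids_subset`, `hmono`), so filtering before or after taking the
children gives the same list; all nodes are subsets of `S₀`. `sum_lvw`: for a heavy node `(S, s)`
with chosen vertex `v` (`exists_chs`, `anyH_iff`) use `outT_eq`, `inT_eq` and `wind_erase`:
`lam ^ s Z_S = lam ^ s Z_{out} + lam ^ (s + 1) Z_{in}`; `List.sum_flatMap`-style lemma for lists.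
`lvw_props`: `card_inT`, and `outT` removes one element of a heavy node. `lvw_le`: cancel `m`.
`lvw_light`: at level `n` a node with a heavy vertex would have `|S| + n ≤ |S₀| ≤ n`, so `S = ∅`,
but a heavy vertex lies in `S`.
-/

namespace Pool.Agent.Lib.Pa7c826t

open Finset Pool.Agent.Lib.Pa7c826

variable {n m g : ℕ} {adj : ℕ → ℕ → Bool}

theorem kids_eq_kidsw (x : Finset ℕ × ℕ) :
    kids n m g adj x.1 = (kidsw n m g adj x).map Prod.fst := by
  unfold kids kidsw
  split_ifs <;> rfl

theorem lvw_sub {S₀ : Finset ℕ} (t : ℕ) : ∀ x ∈ lvw n m g adj S₀ t, x.1 ⊆ S₀ := by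
  induction t with
  | zero =>
    intro x hx
    simp only [lvw, List.mem_cons, List.not_mem_nil, or_false] at hx
    rw [hx]
  | succ t ih =>
    intro x hx
    simp only [lvw, List.mem_flatMap] at hx
    obtain ⟨y, hy, hxy⟩ := hx
    have h1 : x.1 ∈ kids n m g adj y.1 := by
      rw [kids_eq_kidsw]
      exact List.mem_map_of_mem hxy
    exact (kids_subset h1).trans (ih y hy)

theorem filter_flatMap_kids {al : Finset ℕ → Bool} {S₀ : Finset ℕ}
    (hmono : ∀ S T, S ⊆ S₀ → T ⊆ S → al T = true → al S = true) (l : List (Finset ℕ))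
    (hl : ∀ S ∈ l, S ⊆ S₀) :
    ((l.filter al).flatMap (kids n m g adj)).filter al =
      (l.flatMap (kids n m g adj)).filter al := by
  induction l with
  | nil => rfl
  | cons S l ih =>
    have ih' := ih fun T hT => hl T (List.mem_cons_of_mem _ hT)
    by_cases h : al S = true
    · rw [List.filter_cons_of_pos h, List.flatMap_cons, List.flatMap_cons, List.filter_append,
        List.filter_append, ih']
    · rw [List.filter_cons_of_neg h, List.flatMap_cons, List.filter_append, ih']
      have h1 : (kids n m g adj S).filter al = [] := by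
        rw [List.filter_eq_nil_iff]
        intro T hT hal
        exact h (hmono S T (hl S (List.mem_cons_self ..)) (kids_subset hT) hal)
      rw [h1, List.nil_append]

/-- The pruned tree consists of the nodes of the full tree that are alive, if being alive is
monotone. -/
theorem plv_eq {al : Finset ℕ → Bool} {S₀ : Finset ℕ}
    (hmono : ∀ S T, S ⊆ S₀ → T ⊆ S → al T = true → al S = true) (h0 : al S₀ = true) (t : ℕ) :
    plv n m g adj al S₀ t = ((lvw n m g adj S₀ t).map Prod.fst).filter al := by
  induction t with
  | zero => simp [plv, lvw, h0]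
  | succ t ih =>
    have e1 : (lvw n m g adj S₀ (t + 1)).map Prod.fst =
        ((lvw n m g adj S₀ t).map Prod.fst).flatMap (kids n m g adj) := by
      simp only [lvw]
      rw [List.map_flatMap, List.flatMap_map]
      congr 1
      funext x
      exact (kids_eq_kidsw x).symm
    rw [e1]
    simp only [plv]
    rw [ih]
    refine filter_flatMap_kids hmono _ ?_
    intro S hS
    obtain ⟨x, hx, rfl⟩ := List.mem_map.1 hS
    exact lvw_sub t x hx

theorem sum_flatMap_eq {α : Type*} (F : α → ℝ) (k : α → List α) (l : List α)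
    (h : ∀ x ∈ l, ((k x).map F).sum = F x) : ((l.flatMap k).map F).sum = (l.map F).sum := by
  induction l with
  | nil => rfl
  | cons x l ih =>
    rw [List.flatMap_cons, List.map_append, List.sum_append, h x (List.mem_cons_self ..),
      ih fun y hy => h y (List.mem_cons_of_mem _ hy), List.map_cons, List.sum_cons]

/-- The nodes of each level partition the independent sets. -/
theorem sum_lvw (hs : ∀ u v, adj u v = adj v u) (hl : ∀ u, adj u u = false) {S₀ : Finset ℕ}
    (hS : S₀ ⊆ range n) (lam : ℝ) (t : ℕ) :
    ((lvw n m g adj S₀ t).map (fun x => lam ^ x.2 * wind adj lam x.1)).sum =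
      wind adj lam S₀ := by
  induction t with
  | zero => simp [lvw]
  | succ t ih =>
    rw [← ih]
    simp only [lvw]
    refine sum_flatMap_eq _ _ _ ?_
    intro x hx
    unfold kidsw
    have hxS : x.1 ⊆ range n := (lvw_sub t x hx).trans hS
    split_ifs with h
    · obtain ⟨v, hv⟩ := exists_chs ((anyH_iff hxS).1 h)
      have hvS := hvy_mem (chs_hvy hv)
      simp only [List.map_cons, List.map_nil, List.sum_cons, List.sum_nil, add_zero]
      rw [outT_eq hv, inT_eq (mem_range.1 (hxS hvS)) hv, wind_erase hs hl lam hvS, pow_succ]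
      ring
    · simp

theorem lvw_props {S₀ : Finset ℕ} (hS : S₀ ⊆ range n) (t : ℕ) :
    ∀ x ∈ lvw n m g adj S₀ t, x.1 ⊆ S₀ ∧ m * x.2 + g * x.1.card ≤ g * S₀.card ∧
      (anyH n m g adj x.1 = true → x.1.card + t ≤ S₀.card) := by
  induction t with
  | zero =>
    intro x hx
    simp only [lvw, List.mem_cons, List.not_mem_nil, or_false] at hx
    rw [hx]
    refine ⟨subset_rfl, by simp, fun _ => le_rfl⟩
  | succ t ih =>
    intro x hx
    have hsub := lvw_sub (t + 1) x hx
    simp only [lvw, List.mem_flatMap] at hx
    obtain ⟨y, hy, hxy⟩ := hx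
    obtain ⟨h1, h2, h3⟩ := ih y hy
    unfold kidsw at hxy
    split_ifs at hxy with h
    · have hyS : y.1 ⊆ range n := h1.trans hS
      obtain ⟨v, hv⟩ := exists_chs ((anyH_iff hyS).1 h)
      have hvS := hvy_mem (chs_hvy hv)
      have hout : (outT m g adj y.1).card + 1 = y.1.card := by
        rw [outT_eq hv]
        exact card_erase_add_one hvS
      have hin : (inT n m g adj y.1).card + 1 ≤ y.1.card := by
        rw [← hout, outT_eq hv, inT_eq (mem_range.1 (hyS hvS)) hv]
        exact Nat.add_le_add_right (card_le_card (filter_subset _ _)) 1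
      have h4 := h3 h
      simp only [List.mem_cons, List.not_mem_nil, or_false] at hxy
      rcases hxy with rfl | rfl
      · refine ⟨hsub, ?_, fun _ => by simp only; omega⟩
        have : g * (outT m g adj y.1).card ≤ g * y.1.card := Nat.mul_le_mul_left g (by omega)
        simp only
        omega
      · refine ⟨hsub, ?_, fun _ => by simp only; omega⟩
        have := card_inT hyS h
        simp only
        rw [Nat.mul_add, Nat.mul_one]
        omega
    · simp only [List.mem_cons, List.not_mem_nil, or_false] at hxy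
      rw [hxy]
      exact ⟨h1, h2, fun h5 => absurd h5 h⟩

/-- The number of inclusions is at most `g`, if `m = |S₀|`. -/
theorem lvw_le {S₀ : Finset ℕ} (hS : S₀ ⊆ range n) (hm : m = S₀.card) (hpos : 0 < m) (t : ℕ) :
    ∀ x ∈ lvw n m g adj S₀ t, x.2 ≤ g := by
  intro x hx
  obtain ⟨_, h2, _⟩ := lvw_props hS t x hx
  rw [← hm, mul_comm g m] at h2
  exact Nat.le_of_mul_le_mul_left (by omega : m * x.2 ≤ m * g) hpos

/-- After `n` levels there are no heavy vertices left. -/
theorem lvw_light {S₀ : Finset ℕ} (hS : S₀ ⊆ range n) :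
    ∀ x ∈ lvw n m g adj S₀ n, ∀ v, hvy m g adj x.1 v = false := by
  intro x hx v
  by_contra h
  rw [Bool.not_eq_false] at h
  obtain ⟨h1, _, h3⟩ := lvw_props hS n x hx
  have h4 := h3 ((anyH_iff (h1.trans hS)).2 ⟨v, h⟩)
  have h5 : S₀.card ≤ n := (card_le_card hS).trans_eq (card_range n)
  have h6 : x.1.card = 0 := by omega
  rw [card_eq_zero] at h6
  have h7 := hvy_mem h
  rw [h6] at h7
  exact absurd h7 (notMem_empty v)

end Pool.Agent.Lib.Pa7c826t
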